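import Pool.Agent.Lib.MP_3a30fb_gt.RO

/-!
Margolis-type differentials of finite complexes of comodules.
-/

namespace Pool.Agent.Tel

open MvPolynomial Matrix DirectSum
open scoped Kronecker

noncomputable section

variable {ι κ : Type} [Fintype ι] [DecidableEq ι] [Fintype κ] [DecidableEq κ]
  {S : Type} [CommRing S]

/-- Exactness of a square matrix acting on row vectors. -/
def MEx (B : Matrix ι ι S) : Prop := ∀ x, x ᵥ* B = 0 → ∃ y, y ᵥ* B = x

omit [DecidableEq ι] in
theorem MEx.filt {B B0 : Matrix ι ι S} (lvl : ι → ℤ) (h2 : B * B = 0)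
    (h1 : ∀ i j, B i j ≠ B0 i j → lvl j < lvl i) (h0 : ∀ i j, B0 i j ≠ 0 → lvl i = lvl j)
    (h : MEx B0) : MEx B := by
  obtain ⟨m, hm⟩ := (Set.finite_range lvl).bddBelow
  obtain ⟨M, hM⟩ := (Set.finite_range lvl).bddAbove
  have key : ∀ n : ℕ, ∀ x : ι → S, (∀ i, m + n ≤ lvl i → x i = 0) → x ᵥ* B = 0 →
      ∃ y, y ᵥ* B = x := by
    intro n
    induction n with
    | zero =>
      intro x hx _
      exact ⟨0, by rw [zero_vecMul]; exact (funext fun i => hx i (by simpa using hm ⟨i, rfl⟩)).symm⟩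
    | succ n ih =>
      intro x hx hx0
      have res : ∀ (z : ι → S) (j : ι), ((fun i => if lvl i = m + n then z i else 0) ᵥ* B0) j =
          if lvl j = m + n then (z ᵥ* B0) j else 0 := by
        intro z j
        simp only [vecMul, dotProduct]
        split_ifs with hj
        · refine Finset.sum_congr rfl fun i _ => ?_
          split_ifs with hi
          · rfl
          · rw [show B0 i j = 0 from by_contra fun e => hi (h0 i j e ▸ hj)]; simp
        · refine Finset.sum_eq_zero fun i _ => ?_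
          split_ifs with hi
          · rw [show B0 i j = 0 from by_contra fun e => hj (h0 i j e ▸ hi)]; simp
          · simp
      have top : ∀ (z : ι → S) (j : ι), (∀ i, m + n < lvl i → z i = 0) → m + n ≤ lvl j →
          (z ᵥ* B) j = (z ᵥ* B0) j := by
        intro z j hz hj
        refine Finset.sum_congr rfl fun i _ => ?_
        by_cases hi : m + n < lvl i
        · simp [hz i hi]
        · exact congrArg (z i * ·)
            (show B i j = B0 i j from by_contra fun e => by have := h1 i j e; omega)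
      have hx' : ∀ i, m + n < lvl i → x i = 0 := fun i hi => hx i (by push_cast; omega)
      obtain ⟨y, hy⟩ := h (fun i => if lvl i = m + n then x i else 0) (funext fun j => by
        rw [res]
        split_ifs with hj
        · rw [← top x j hx' hj.ge, hx0]
        · rfl)
      obtain ⟨z, hz⟩ := ih (x - (fun i => if lvl i = m + n then y i else 0) ᵥ* B) (fun j hj => by
        rw [Pi.sub_apply, top _ j (fun i hi => if_neg hi.ne') hj, res, hy]
        split_ifs with e
        · simp [e]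
        · rw [hx' j (lt_of_le_of_ne hj (Ne.symm e)), sub_zero])
        (by rw [sub_vecMul, hx0, vecMul_vecMul, h2, vecMul_zero, sub_zero])
      exact ⟨z + fun i => if lvl i = m + n then y i else 0, by rw [add_vecMul, hz, sub_add_cancel]⟩
  exact fun x => key (M - m + 1).toNat x fun i hi => by
    have := hM ⟨i, rfl⟩
    omega

omit [DecidableEq κ] in
theorem MEx.one_kron {B : Matrix κ κ S} (h : MEx B) : MEx ((1 : Matrix ι ι S) ⊗ₖ B) := by
  have e : ∀ (x : ι × κ → S) j b, (x ᵥ* ((1 : Matrix ι ι S) ⊗ₖ B)) (j, b) =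
      ((fun a => x (j, a)) ᵥ* B) b := by
    intro x j b
    simp [vecMul, dotProduct, Fintype.sum_prod_type, one_apply]
  intro x hx
  choose y hy using fun j => h (fun a => x (j, a)) (funext fun b => by rw [← e, hx]; rfl)
  exact ⟨fun p => y p.1 p.2, funext fun ⟨j, b⟩ => by rw [e, hy]⟩

omit [DecidableEq ι] in
theorem MEx.kron_one {B : Matrix ι ι S} (h : MEx B) : MEx (B ⊗ₖ (1 : Matrix κ κ S)) := by
  have e : ∀ (x : ι × κ → S) j b, (x ᵥ* (B ⊗ₖ (1 : Matrix κ κ S))) (j, b) =
      ((fun i => x (i, b)) ᵥ* B) j := by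
    intro x j b
    simp [vecMul, dotProduct, Fintype.sum_prod_type, one_apply]
  intro x hx
  choose y hy using fun b => h (fun i => x (i, b)) (funext fun j => by rw [← e, hx]; rfl)
  exact ⟨fun p => y p.2 p.1, funext fun ⟨j, b⟩ => by rw [e, hy]⟩

omit [DecidableEq κ] [Fintype κ] in
theorem bl_vec (ψ : C →+* S) (f : ι → κ →₀ C) (x : ι →₀ S) :
    ⇑(bl ψ f x) = x ᵥ* Matrix.of fun i j => ψ (f i j) := by
  induction x using Finsupp.induction_linear with
  | zero => simp
  | add x y hx hy => rw [map_add, Finsupp.coe_add, Finsupp.coe_add, add_vecMul, hx, hy]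
  | single i c =>
    rw [bl_single, Finsupp.single_eq_pi_single, single_vecMul]
    rfl

theorem torP_iff (ψ : C →+* S) (D : ι → ι →₀ C) :
    TorP (· = 1) ψ D ↔ MEx (Matrix.of fun i j => ψ (D i j)) := by
  constructor
  · intro h x hx
    obtain ⟨_, rfl, y, e⟩ := h (Finsupp.equivFunOnFinite.symm x) (DFunLike.coe_injective (by
      rw [bl_vec]; exact hx))
    exact ⟨y, by rw [← bl_vec, ← e, one_smul]; rfl⟩
  · intro h x hx
    obtain ⟨y, e⟩ := h x (by rw [← bl_vec, hx]; rfl)
    exact ⟨1, rfl, Finsupp.equivFunOnFinite.symm y, DFunLike.coe_injective (by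
      rw [bl_vec, one_smul]; exact e.symm)⟩

variable [Algebra (ZMod 2) S]

def pz (c : Fin 2) : Hz →ₐ[ℤ] Polynomial (ZMod 2) := aeval (Pi.single c Polynomial.X)

/-- The coefficient of `t^e`, with values in `S`. -/
def cf (S : Type) [CommRing S] [Algebra (ZMod 2) S] (c : Fin 2) (e : ℕ) (g : Hz) : S :=
  algebraMap (ZMod 2) S ((pz c g).coeff e)

theorem psi_L1 (c : Fin 2) (a b : S) (g : Hz) :
    psi (c + 1) (th a b) (L1 g) = a * cf S c 1 g + b * cf S c 2 g := by
  obtain ⟨h, e⟩ := L1_eq g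
  have e1 : el 0 1 g = ev (aeval ![(X (1, 0) : PZ), X (1, 1)] g) := by
    have : (el 0 1).toRingHom =
        ev.toRingHom.comp (aeval ![(X (1, 0) : PZ), X (1, 1)] : Hz →ₐ[ℤ] PZ).toRingHom :=
      ringHom_ext (by simp) (by simp [el, ev_X_succ 0])
    exact RingHom.congr_fun this g
  have e2 : red (c + 1) (aeval ![(X (1, 0) : PZ), X (1, 1)] g) =
      Polynomial.aeval (X 0 : PT) (pz c g) := by
    have : (red (c + 1)).comp (aeval ![(X (1, 0) : PZ), X (1, 1)] : Hz →ₐ[ℤ] PZ).toRingHom =
        (Polynomial.aeval (X 0 : PT) : Polynomial (ZMod 2) →ₐ[ZMod 2] PT).toRingHom.comp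
          (pz c).toRingHom :=
      ringHom_ext (by simp) (by fin_cases c <;> simp [pz, red_X])
    exact RingHom.congr_fun this g
  rw [e, psi_of]
  dsimp only
  rw [e1, crd_ev, e2, Lam_one, Algebra.smul_def, Algebra.smul_def, cf, cf, mul_comm a, mul_comm b]

theorem cf_one (c : Fin 2) (e : ℕ) : cf S c (e + 1) 1 = 0 := by
  simp [cf, Polynomial.coeff_one]

theorem cf_zero (c : Fin 2) (e : ℕ) : cf S c e 0 = 0 := by simp [cf]

theorem cf_mul1 (c : Fin 2) (g g' : Hz) :
    cf S c 1 (g * g') = cf S c 1 g * cf S c 0 g' + cf S c 0 g * cf S c 1 g' := by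
  simp [cf, Polynomial.coeff_mul, Finset.Nat.antidiagonal_succ, add_comm]

theorem cf_mul2 (c : Fin 2) (g g' : Hz) : cf S c 2 (g * g') =
    cf S c 2 g * cf S c 0 g' + cf S c 0 g * cf S c 2 g' + cf S c 1 g * cf S c 1 g' := by
  simp [cf, Polynomial.coeff_mul, Finset.Nat.antidiagonal_succ]
  ring

namespace RO

variable (Y : RO ι)

theorem cf0 (c : Fin 2) (i j : ι) : cf S c 0 (Y.G i j) = (1 : Matrix ι ι S) i j := by
  by_cases e : i = j
  · rw [e, Y.diag, one_apply_eq]; simp [cf]
  · have h0 : ∀ g, (pz c g).coeff 0 = (constantCoeff g : ℤ) := fun g => by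
      have : Polynomial.constantCoeff.comp (pz c).toRingHom =
          (Int.castRingHom _).comp constantCoeff :=
        ringHom_ext (by simp) (by fin_cases c <;> simp [pz])
      exact RingHom.congr_fun this g
    rw [one_apply_ne e, cf, h0]
    by_cases h : Y.G i j = 0
    · simp [h]
    · have := Y.lt i j e h
      rw [constantCoeff_eq, (Y.hG i j).coeff_eq_zero 0 (by rw [map_zero]; omega)]
      simp

/-- The matrix of the operation dual to `t^e`. -/
def X (S : Type) [CommRing S] [Algebra (ZMod 2) S] (c : Fin 2) (e : ℕ) : Matrix ι ι S :=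
  Y.G.map (cf S c e)

/-- The differential after base change. -/
def B (c : Fin 2) (a b : S) : Matrix ι ι S := a • Y.X S c 1 + b • Y.X S c 2 + Y.P.map (↑)

theorem psi_toD (c : Fin 2) (a b : S) :
    (Matrix.of fun i j => psi (c + 1) (th a b) (Y.toD i j)) = Y.B c a b := by
  ext1 i j
  have : ∀ e, cf S c (e + 1) ((Y.G - 1) i j) = cf S c (e + 1) (Y.G i j) := fun e => by
    by_cases h : i = j
    · rw [h, Matrix.sub_apply, Y.diag, one_apply_eq, sub_self, cf_one, cf_zero]
    · rw [Matrix.sub_apply, one_apply_ne h, sub_zero]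
  rw [of_apply, toD_apply, map_add, psi_L1, this, this, map_intCast]
  rfl

theorem X_ne {c : Fin 2} {e : ℕ} {i j : ι} (h : Y.X S c (e + 1) i j ≠ 0) :
    Y.w j < Y.w i ∧ Y.ch i = Y.ch j := by
  have h1 : Y.G i j ≠ 0 := fun h0 => h (by rw [X, Matrix.map_apply, h0, cf_zero])
  exact ⟨Y.lt i j (fun h0 => h (by rw [X, Matrix.map_apply, h0, Y.diag, cf_one])) h1, Y.cG i j h1⟩

theorem B_sq {c : Fin 2} {a b : S} (h : IsAug (psi (c + 1) (th a b))) :
    Y.B c a b * Y.B c a b = 0 := by
  ext1 i j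
  have := bl_sq h (D := Y.toD) (fun i j => psi_J2 _ _ (Y.toPC.sq i j)) (Finsupp.single i 1)
  have := congrFun (congrArg DFunLike.coe this) j
  rwa [bl_vec, bl_vec, psi_toD, vecMul_vecMul, Finsupp.single_eq_pi_single, single_one_vecMul]
    at this

theorem X_sq : Y.X S 1 1 * Y.X S 1 1 = 0 := by
  have h1 := Y.B_sq (c := 1) (a := (1 : S)) (b := 0) (psi_aug 2 (by omega) _ _ fun e he => by
    rw [th, if_neg (by omega), if_neg (by omega)])
  have h2 : Y.P.map ((↑) : ℤ → S) * Y.P.map (↑) = 0 := by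
    have := congrArg (·.map (Int.castRingHom S)) Y.PP
    simp only [Matrix.map_mul, Matrix.map_zero _ (map_zero _)] at this
    exact this
  have h3 : Y.P.map ((↑) : ℤ → S) * Y.X S 1 1 = Y.X S 1 1 * Y.P.map (↑) := by
    ext1 i j
    have := congrArg (cf S 1 1) (congrFun (congrFun Y.PG i) j)
    simp only [mul_apply, Matrix.map_apply, eq_intCast, cf, map_sum, map_mul, map_intCast,
      Polynomial.finsetSum_coeff, Polynomial.coeff_intCast_mul, Polynomial.coeff_mul_intCast]
      at this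
    exact this
  rw [B, one_smul, zero_smul, add_zero, Matrix.add_mul, Matrix.mul_add, Matrix.mul_add, h2, h3,
    add_zero, add_assoc, ← two_smul S, two_eq_zero', zero_smul, add_zero] at h1
  exact h1

theorem X_tens1 (M : RO κ) (c : Fin 2) :
    (Y.tens M).X S c 1 = Y.X S c 1 ⊗ₖ 1 + 1 ⊗ₖ M.X S c 1 := by
  ext1 p q
  exact (cf_mul1 c _ _).trans (by rw [Y.cf0, M.cf0]; rfl)

theorem B_tens (M : RO κ) (c : Fin 2) (a b : S) : (Y.tens M).B c a b = Y.B c a b ⊗ₖ 1 +
    1 ⊗ₖ (a • M.X S c 1 + b • M.X S c 2) + b • (Y.X S c 1 ⊗ₖ M.X S c 1) := by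
  ext1 p q
  have e1 := cf_mul1 (S := S) c (Y.G p.1 q.1) (M.G p.2 q.2)
  have e2 := cf_mul2 (S := S) c (Y.G p.1 q.1) (M.G p.2 q.2)
  rw [Y.cf0, M.cf0] at e1 e2
  simp only [B, X, tens, Matrix.add_apply, Matrix.smul_apply, Matrix.map_apply, kroneckerMap_apply,
    e1, e2, smul_eq_mul, Int.cast_mul, one_apply, Int.cast_ite, Int.cast_one, Int.cast_zero]
  ring

theorem tens_right (M : RO κ) {c : Fin 2} {a b : S} (h : IsAug (psi (c + 1) (th a b)))
    (hM : MEx (a • M.X S c 1 + b • M.X S c 2)) : MEx ((Y.tens M).B c a b) := by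
  refine MEx.filt (fun p => Y.w p.1 + Y.ch p.1) (B_sq _ h) (fun p q hn => ?_) (fun p q hn => ?_)
    hM.one_kron
  · by_contra hl
    apply hn
    have x1 : Y.X S c 1 p.1 q.1 = 0 := by_contra fun e => by have := Y.X_ne e; omega
    have x2 : Y.X S c 2 p.1 q.1 = 0 := by_contra fun e => by have := Y.X_ne e; omega
    have x3 : Y.P p.1 q.1 = 0 := by_contra fun e => by have := Y.hP _ _ e; omega
    rw [B_tens]
    simp [B, x1, x2, x3]
  · have : p.1 = q.1 := by_contra fun e => left_ne_zero_of_mul hn (one_apply_ne e)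
    rw [this]

theorem tens_left (M : RO κ) {c : Fin 2} {a b : S} (h : IsAug (psi (c + 1) (th a b)))
    (hY : MEx (Y.B c a b)) : MEx ((Y.tens M).B c a b) := by
  refine MEx.filt (fun p => M.w p.2) (B_sq _ h) (fun p q hn => ?_) (fun p q hn => ?_) hY.kron_one
  · by_contra hl
    apply hn
    have x1 : M.X S c 1 p.2 q.2 = 0 := by_contra fun e => by have := M.X_ne e; omega
    have x2 : M.X S c 2 p.2 q.2 = 0 := by_contra fun e => by have := M.X_ne e; omega
    simp [B_tens, x1, x2]
  · have : p.2 = q.2 := by_contra fun e => right_ne_zero_of_mul hn (one_apply_ne e)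
    rw [this]

end RO

end

end Pool.Agent.Tel
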