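import Pool.Agent.Lib.MP_3a30fb_gt.Zorn

/-!
Existence of the Bousfield localisation.
-/

namespace Pool.Agent.Tel

open Finsupp

noncomputable section

/-- A small cell module with the coefficients of an attaching map. -/
structure Shape (S : Type) : Type where
  p : Set (Om S)
  F : Cell p
  co : p → ℕ →₀ C

/-- Names for the cells of the localisation. -/
inductive Tr (S ι : Type) : Type
  | base (i : ι) : Tr S ι
  | node (σ : Shape S) (ch : σ.p → ℕ → Tr S ι) (a : σ.p) : Tr S ι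

variable {ι κ μ : Type} {S : Type}

def Tr.rk : Tr S ι → Ordinal.{0}
  | .base _ => 0
  | .node _ ch _ => Order.succ (⨆ q : _ × ℕ, (ch q.1 q.2).rk)

def att (σ : Shape S) (ch : σ.p → ℕ → Tr S ι) (b : σ.p) : Tr S ι →₀ C :=
  mapDomain (ch b) (σ.co b)

def dg (V : Cell ι) : Tr S ι → ℤ × ℤ
  | .base i => V.deg i
  | .node σ _ a => σ.F.deg a + (1, 0)

def DD (V : Cell ι) : Tr S ι → Tr S ι →₀ C
  | .base i => mapDomain .base (V.D i)
  | .node σ ch a => att σ ch a - mapDomain (.node σ ch) (eM (σ.F.D a))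

theorem md_ne {R : Type} [Ring R] {j : μ → ι} {x : μ →₀ R} {i : ι} (h : mapDomain j x i ≠ 0) :
    ∃ a, x a ≠ 0 ∧ j a = i := by
  classical
  obtain ⟨a, ha, e⟩ := Finset.mem_image.mp (mapDomain_support (mem_support_iff.mpr h))
  exact ⟨a, mem_support_iff.mp ha, e⟩

theorem DD_node {V : Cell ι} {σ : Shape S} {ch : σ.p → ℕ → Tr S ι} {a : σ.p} {u : Tr S ι}
    (h : DD V (.node σ ch a) u ≠ 0) :
    (∃ k, ch a k = u) ∨ ∃ b, σ.F.D a b ≠ 0 ∧ .node σ ch b = u := by
  by_cases e : att σ ch a u = 0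
  · rw [DD, Finsupp.sub_apply, e, zero_sub, neg_ne_zero] at h
    obtain ⟨b, hb, e⟩ := md_ne h
    exact .inr ⟨b, eM_ne hb, e⟩
  · obtain ⟨k, -, e⟩ := md_ne e
    exact .inl ⟨k, e⟩

theorem DD_wf (V : Cell ι) : WellFounded fun u t : Tr S ι => DD V t u ≠ 0 := by
  refine ⟨fun t => ?_⟩
  induction t with
  | base i =>
    induction i using V.wf.induction with
    | _ i ih =>
      refine ⟨_, fun u hu => ?_⟩
      obtain ⟨a, ha, rfl⟩ := md_ne hu
      exact ih a ha
  | node σ ch a ih =>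
    induction a using σ.F.wf.induction with
    | _ a ih' =>
      refine ⟨_, fun u hu => ?_⟩
      rcases DD_node hu with ⟨k, rfl⟩ | ⟨b, hb, rfl⟩
      exacts [ih _ _, ih' b hb]

theorem rk_lt {σ : Shape S} (ch : σ.p → ℕ → Tr S ι) (a b : σ.p) (k : ℕ) :
    (ch b k).rk < (Tr.node σ ch a).rk :=
  Order.lt_succ_of_le (Ordinal.le_iSup (fun q : _ × ℕ => (ch q.1 q.2).rk) (b, k))

theorem node_inj (σ : Shape S) (ch : σ.p → ℕ → Tr S ι) : Function.Injective (Tr.node σ ch) :=
  fun _ _ h => by cases h; rfl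

theorem base_inj : Function.Injective (Tr.base : ι → Tr S ι) := fun _ _ h => by cases h; rfl

theorem md_hom {j : μ → ι} (hj : Function.Injective j) {x : μ →₀ C} {g : ι → ℤ × ℤ}
    (h : ∀ a, x a ∈ Hom (g (j a))) (i : ι) : mapDomain j x i ∈ Hom (g i) := by
  by_cases e : i ∈ Set.range j
  · obtain ⟨a, rfl⟩ := e
    rw [mapDomain_apply hj]; exact h a
  · rw [mapDomain_of_notMem_range _ _ e]; exact Hom_zero _

theorem att_eq (V : Cell ι) (σ : Shape S) (ch : σ.p → ℕ → Tr S ι) (a : σ.p) : att σ ch a =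
    dM (DD V) (single (.node σ ch a) 1) + lc (fun a => single (.node σ ch a) 1) (eM (σ.F.D a)) := by
  rw [dM_single, dC_one, single_zero, zero_add, map_one, one_smul, lc_single_one, DD,
    sub_add_cancel]

variable [CommRing S] {ψ : C →+* S}

/-- The names that describe cells. -/
inductive Val (ψ : C →+* S) (V : Cell ι) : Tr S ι → Prop
  | base (i : ι) : Val ψ V (.base i)
  | node (σ : Shape S) (ch : σ.p → ℕ → Tr S ι) (a : σ.p) (h1 : ∀ b k, Val ψ V (ch b k))
      (h2 : ExOn ψ σ.F.D Set.univ) (h3 : ∀ b u, att σ ch b u ∈ Hom (σ.F.deg b - dg V u))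
      (h4 : ∀ b, dM (DD V) (att σ ch b) = lc (att σ ch) (σ.F.D b)) : Val ψ V (.node σ ch a)

variable {V : Cell ι}

theorem Val.cl {t u : Tr S ι} (h : Val ψ V t) (hu : DD V t u ≠ 0) : Val ψ V u := by
  cases h with
  | base i => obtain ⟨a, -, rfl⟩ := md_ne hu; exact .base a
  | node σ ch a h1 h2 h3 h4 =>
    rcases DD_node hu with ⟨k, rfl⟩ | ⟨b, -, rfl⟩
    exacts [h1 _ _, .node σ ch b h1 h2 h3 h4]

theorem Val.hom {t : Tr S ι} (h : Val ψ V t) (u : Tr S ι) :
    DD V t u ∈ Hom (dg V t - dg V u - (1, 0)) := by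
  cases h with
  | base i => exact md_hom base_inj (g := fun u => V.deg i - dg V u - (1, 0)) (V.hom i) u
  | node σ ch a h1 h2 h3 h4 =>
    refine Hom_sub (Hom_congr (h3 a u) (by rw [dg]; abel)) (md_hom (node_inj σ ch)
      (g := fun u => σ.F.deg a + (1, 0) - dg V u - (1, 0))
      (fun b => Hom_congr (Hom_eC (σ.F.hom a b)) (by rw [dg]; abel)) u)

theorem Val.sq {t : Tr S ι} (h : Val ψ V t) : dM (DD V) (DD V t) = 0 := by
  cases h with
  | base i => rw [DD, dM_sub (D := V.D) (D' := DD V) fun _ => rfl, V.sq, mapDomain_zero]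
  | node σ ch a h1 h2 h3 h4 =>
    rw [DD, map_sub, h4, ← lc_single_one, dM_lc (att_eq V σ ch), σ.F.sq, map_zero, map_zero,
      sub_zero, sub_self]

def bous (ψ : C →+* S) (V : Cell ι) : Cell {t // Val ψ V t} :=
  pullC (dg V) (DD V) Subtype.val Subtype.val_injective (fun a b => a.2.hom b) (DD_wf V)
    (fun a => a.2.sq) fun a i hi => .inl ⟨⟨i, a.2.cl hi⟩, rfl⟩

theorem bous_D (t : {t // Val ψ V t}) : DD V t.1 = mapDomain Subtype.val ((bous ψ V).D t) :=
  (md_pl Subtype.val_injective fun i hi => ⟨⟨i, t.2.cl hi⟩, rfl⟩).symm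

theorem bous_apply (t u : {t // Val ψ V t}) : (bous ψ V).D t u = DD V t.1 u.1 := rfl

theorem bous_small [Nonempty ι] (p : Set (Om S)) (F : Cell p) (hF : ExOn ψ F.D Set.univ)
    (f : Map F (bous ψ V)) : f.Null := by
  have : Nonempty {t // Val ψ V t} := ⟨⟨_, .base (Classical.arbitrary ι)⟩⟩
  have : ∀ b, ∃ (g : ℕ → {t // Val ψ V t}) (c : ℕ →₀ C), mapDomain g c = f.f b := fun b => by
    obtain ⟨g, hg⟩ := Set.countable_iff_exists_subset_range.mp (f.f b).support.countable_toSet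
    have : f.f b ∈ supported C C (g '' Set.univ) := by rwa [Set.image_univ]
    rw [← lmapDomain_supported] at this
    obtain ⟨c, -, e⟩ := this
    exact ⟨g, c, e⟩
  choose g c e using this
  let σ : Shape S := ⟨p, F, c⟩
  have ea : ∀ b, att σ (fun b k => (g b k).1) b = mapDomain Subtype.val (f.f b) := fun b => by
    rw [← e, ← mapDomain_comp]; rfl
  have v : ∀ a, Val ψ V (.node σ (fun b k => (g b k).1) a) := fun a =>
    .node σ _ a (fun b k => (g b k).2) hF (fun b u => by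
      rw [ea]
      exact md_hom Subtype.val_injective (g := fun u => F.deg b - dg V u) (f.hom b) u) fun b => by
      rw [ea, dM_sub bous_D, f.comm, mapDomain_lc, funext ea]
  refine ⟨fun a => single ⟨_, v a⟩ 1, fun a j => ?_, fun a =>
    mapDomain_injective Subtype.val_injective ?_⟩
  · rw [← add_sub_right_comm]
    exact single_hom _ _ (sub_self _)
  · rw [← ea, att_eq V, mapDomain_add, ← dM_sub bous_D, mapDomain_single, mapDomain_lc]
    simp only [mapDomain_single]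
    rfl

/-- The base cells. -/
def bs (ψ : C →+* S) (V : Cell ι) (i : ι) : {t // Val ψ V t} := ⟨_, .base i⟩

theorem bs_inj : Function.Injective (bs ψ V) := fun _ _ h => base_inj (congrArg Subtype.val h)

theorem bs_D (i : ι) : (bous ψ V).D (bs ψ V i) = mapDomain (bs ψ V) (V.D i) :=
  mapDomain_injective Subtype.val_injective (by rw [← bous_D, ← mapDomain_comp]; rfl)

theorem bous_rel (hψ : IsAug ψ) (x : {t // Val ψ V t} →₀ S)
    (hx : bl ψ (bous ψ V).D x ∈ supported S S (Set.range (bs ψ V))) :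
    ∃ y, x - bl ψ (bous ψ V).D y ∈ supported S S (Set.range (bs ψ V)) := by
  let β := {b : Σ σ : Shape S, σ.p → ℕ → Tr S ι // (∀ a, Val ψ V (.node b.1 b.2 a)) ∧
    ExOn ψ b.1.F.D Set.univ}
  let j : ∀ b : β, b.1.1.p → {t // Val ψ V t} := fun b a => ⟨_, b.2.1 a⟩
  have cov : ∀ k : {t // Val ψ V t}, k ∈ Set.range (bs ψ V) ∨ ∃ b, k ∈ Set.range (j b) := by
    rintro ⟨t, ht⟩
    cases ht with
    | base i => exact .inl ⟨i, rfl⟩
    | node σ ch a h1 h2 h3 h4 =>
      exact .inr ⟨⟨⟨σ, ch⟩, fun a => .node σ ch a h1 h2 h3 h4, h2⟩, a, rfl⟩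
  refine rel_blocks hψ (fun b : β => Order.succ (⨆ q : _ × ℕ, (b.1.2 q.1 q.2).rk)) j
    (fun b _ _ h => node_inj _ _ (congrArg Subtype.val h)) (bous ψ V) (closed_range bs_D) cov
    (fun b a ⟨i, h⟩ => by cases congrArg Subtype.val h) (fun b a k hk => ?_)
    (fun b b' a a' h => ?_) (fun b => ?_) x hx
  · rcases DD_node (V := V) (σ := b.1.1) (ch := b.1.2) (a := a) (u := k.1) hk with
      ⟨n, e⟩ | ⟨a', -, e⟩
    · refine (cov k).imp_right fun ⟨b', a', h⟩ => .inr ⟨b', ?_, a', h⟩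
      have := rk_lt b.1.2 a a n
      rwa [e, ← h] at this
    · exact .inr (.inl ⟨a', Subtype.ext e⟩)
  · obtain ⟨⟨σ, ch⟩, _⟩ := b
    obtain ⟨⟨σ', ch'⟩, _⟩ := b'
    cases congrArg Subtype.val h
    rfl
  · convert susp_exOn hψ b.2.2 using 1
    funext a
    ext1 a'
    rw [pl_apply, bous_apply, DD, Finsupp.sub_apply, mapDomain_apply (node_inj _ _), att,
      mapDomain_of_notMem_range, zero_sub, susp_D, Finsupp.neg_apply]
    rintro ⟨n, e⟩
    exact (rk_lt b.1.2 a' a n).ne (congrArg _ e)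

theorem exists_bous [Nontrivial S] [Nonempty ι] (hψ : IsAug ψ) (V : Cell ι) :
    ∃ (κ : Type) (Z : Cell κ) (η : Map V Z), (∀ (μ : Type) (W : Cell μ), ExOn ψ W.D Set.univ →
      ∀ f : Map W Z, f.Null) ∧ ExOn ψ η.cone.D Set.univ := by
  refine ⟨_, bous ψ V, incl (e := bs ψ V) ⟨fun _ => rfl, bs_D⟩,
    fun μ W => local_of_small hψ bous_small W, fun x _ hx => ?_⟩
  obtain ⟨x1, x2, rfl⟩ := split x
  have eb : ∀ x, bl ψ (incl (V := V) (Z := bous ψ V) (e := bs ψ V) ⟨fun _ => rfl, bs_D⟩).f x =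
    mapDomain (bs ψ V) x := bl_single_one ψ _
  rw [cone_D, map_add, bl_cone_inl, bl_cone_inr hψ, ← add_assoc, ← mapDomain_add, eb] at hx
  have e1 := eq_neg_of_add_eq_zero_left (split_zero hx).1
  obtain ⟨y, hy⟩ := bous_rel hψ x1 (by rw [e1]; exact neg_mem (md_mem _))
  have e2 := md_pl bs_inj (mem_sup.mp hy)
  generalize pl (bs ψ V) bs_inj (x1 - bl ψ (bous ψ V).D y) = z at e2
  refine ⟨mapDomain .inl y + mapDomain .inr z, by simp, ?_⟩
  have e3 : - bl ψ V.D z = x2 := mapDomain_injective (bs_inj (ψ := ψ)) (by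
    rw [← lmapDomain_apply S S _ (-_), map_neg, lmapDomain_apply, ← bl_sub ψ bs_D, e2, map_sub,
      sq_bl hψ, sub_zero, e1, neg_neg])
  rw [cone_D, map_add, bl_cone_inl, bl_cone_inr hψ, ← add_assoc, ← mapDomain_add, eb, e2, e3,
    add_sub_cancel]

end

end Pool.Agent.Tel
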