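import Pool.Agent.Lib.MP_3a30fb_gt.DGA

/-!
Cell (semifree) differential graded modules over the cobar algebra `C`, their homotopy category,
the Morava K-theories on it, and the two localisations.
-/

namespace Pool.Agent.Tel

open Finsupp

noncomputable section

variable {ι κ : Type}

/-- The `C`-linear map of free left modules with the basis vector `i` going to `f i`. -/
abbrev lc (f : ι → κ →₀ C) : (ι →₀ C) →ₗ[C] (κ →₀ C) := linearCombination C f

/-- The sign automorphism applied to the coefficients. -/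
def eM : (ι →₀ C) →+ (ι →₀ C) := mapRange.addMonoidHom eC.toAddMonoidHom

/-- The differential `d (c e_i) = (d c) e_i + (-1)^|c| c D_i` on the free module with basis `e_i`. -/
def dM (D : ι → ι →₀ C) : (ι →₀ C) →+ (ι →₀ C) :=
  mapRange.addMonoidHom dC + (lc D).toAddMonoidHom.comp eM

/-- A cell module: a free bigraded module on cells `ι`, attached in a well-founded order, with a
differential of bidegree `(-1, 0)` and square zero. -/
structure Cell (ι : Type) where
  deg : ι → ℤ × ℤ
  D : ι → ι →₀ C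
  hom : ∀ i j, D i j ∈ Hom (deg i - deg j - (1, 0))
  wf : WellFounded fun j i => D i j ≠ 0
  sq : ∀ i, dM D (D i) = 0

/-- A chain map of bidegree `(0, 0)`. -/
structure Map (M : Cell ι) (N : Cell κ) where
  f : ι → κ →₀ C
  hom : ∀ i j, f i j ∈ Hom (M.deg i - N.deg j)
  comm : ∀ i, dM N.D (f i) = lc f (M.D i)

/-- The map is null-homotopic: `f = d h + h d` with `h` of bidegree `(1, 0)`. -/
def Map.Null {M : Cell ι} {N : Cell κ} (f : Map M N) : Prop :=
  ∃ h : ι → κ →₀ C, (∀ i j, h i j ∈ Hom (M.deg i - N.deg j + (1, 0))) ∧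
    ∀ i, f.f i = dM N.D (h i) + lc h (eM (M.D i))

theorem eM_apply (x : ι →₀ C) (i : ι) : eM x i = eC (x i) := rfl

theorem eM_single (i : ι) (c : C) : eM (single i c) = single i (eC c) :=
  mapRange_single (hf := map_zero _)

theorem dM_single (D : ι → ι →₀ C) (i : ι) (c : C) :
    dM D (single i c) = single i (dC c) + eC c • D i := by
  change mapRange dC (map_zero _) (single i c) + lc D (eM (single i c)) = _
  rw [mapRange_single, eM_single, linearCombination_single]

theorem eM_smul (c : C) (x : ι →₀ C) : eM (c • x) = eC c • eM x := by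
  ext1 i; simp [eM_apply]

theorem eM_eM (x : ι →₀ C) : eM (eM x) = x := by
  ext1 i; simp [eM_apply, eC_eC]

theorem eM_mapDomain (e : ι → κ) (x : ι →₀ C) : eM (mapDomain e x) = mapDomain e (eM x) := by
  induction x using Finsupp.induction_linear with
  | zero => simp
  | add x y hx hy => simp only [mapDomain_add, map_add, hx, hy]
  | single i c => simp only [mapDomain_single, eM_single]

/-- The matrix of the differential of a mapping cone. -/
def coneD (D : ι → ι →₀ C) (D' : κ → κ →₀ C) (f : ι → κ →₀ C) : κ ⊕ ι → κ ⊕ ι →₀ C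
  | .inl k => mapDomain .inl (D' k)
  | .inr i => mapDomain .inl (f i) - mapDomain .inr (eM (D i))

theorem dM_sub {D : ι → ι →₀ C} {D' : κ → κ →₀ C} {e : ι → κ}
    (h : ∀ i, D' (e i) = mapDomain e (D i)) (x : ι →₀ C) :
    dM D' (mapDomain e x) = mapDomain e (dM D x) := by
  induction x using Finsupp.induction_linear with
  | zero => simp
  | add x y hx hy => simp only [mapDomain_add, map_add, hx, hy]
  | single i c => simp only [mapDomain_single, dM_single, h, mapDomain_add, mapDomain_smul]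

theorem dM_cone_inl (D : ι → ι →₀ C) (D' : κ → κ →₀ C) (f : ι → κ →₀ C) (x : κ →₀ C) :
    dM (coneD D D' f) (mapDomain .inl x) = mapDomain .inl (dM D' x) :=
  dM_sub (D := D') (D' := coneD D D' f) (e := Sum.inl) (fun _ => rfl) x

theorem dM_cone_inr (D : ι → ι →₀ C) (D' : κ → κ →₀ C) (f : ι → κ →₀ C) (x : ι →₀ C) :
    dM (coneD D D' f) (mapDomain .inr (eM x)) =
      mapDomain .inl (lc f x) - mapDomain .inr (eM (dM D x)) := by
  induction x using Finsupp.induction_linear with
  | zero => simp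
  | add x y hx hy => simp only [mapDomain_add, map_add, hx, hy]; abel
  | single i c =>
    simp only [mapDomain_single, dM_single, eM_single, coneD, eC_eC, dC_eC, map_add, eM_smul,
      linearCombination_single, mapDomain_add, mapDomain_smul, smul_sub, single_neg]
    abel

theorem cone_sq (D : ι → ι →₀ C) (D' : κ → κ →₀ C) (f : ι → κ →₀ C) (i : ι) :
    dM (coneD D D' f) (coneD D D' f (.inr i)) =
      mapDomain .inl (dM D' (f i) - lc f (D i)) + mapDomain .inr (eM (dM D (D i))) := by
  rw [coneD, map_sub, dM_cone_inr, dM_cone_inl, mapDomain_sub]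
  abel

theorem coneD_ll (D : ι → ι →₀ C) (D' : κ → κ →₀ C) (f : ι → κ →₀ C) (k l : κ) :
    coneD D D' f (.inl k) (.inl l) = D' k l := mapDomain_apply Sum.inl_injective _ _

theorem coneD_lr (D : ι → ι →₀ C) (D' : κ → κ →₀ C) (f : ι → κ →₀ C) (k : κ) (j : ι) :
    coneD D D' f (.inl k) (.inr j) = 0 := mapDomain_of_notMem_range _ _ (by simp)

theorem coneD_rl (D : ι → ι →₀ C) (D' : κ → κ →₀ C) (f : ι → κ →₀ C) (i : ι) (l : κ) :
    coneD D D' f (.inr i) (.inl l) = f i l := by
  rw [coneD, Finsupp.sub_apply, mapDomain_apply Sum.inl_injective,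
    mapDomain_of_notMem_range _ _ (by simp), sub_zero]

theorem coneD_rr (D : ι → ι →₀ C) (D' : κ → κ →₀ C) (f : ι → κ →₀ C) (i j : ι) :
    coneD D D' f (.inr i) (.inr j) = - eC (D i j) := by
  rw [coneD, Finsupp.sub_apply, mapDomain_apply Sum.inr_injective,
    mapDomain_of_notMem_range _ _ (by simp), zero_sub, eM_apply]

theorem cone_wf {D : ι → ι →₀ C} {D' : κ → κ →₀ C} (f : ι → κ →₀ C)
    (h : WellFounded fun j i => D i j ≠ 0) (h' : WellFounded fun j i => D' i j ≠ 0) :
    WellFounded fun j i => coneD D D' f i j ≠ 0 := by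
  refine Subrelation.wf (fun {a b} hab => ?_) (Sum.lex_wf h' h)
  rcases a with a | a <;> rcases b with b | b
  · exact .inl (by rwa [coneD_ll] at hab)
  · exact .sep _ _
  · exact absurd (coneD_lr _ _ _ _ _) hab
  · exact .inr fun e => hab (by rw [coneD_rr, e, map_zero, neg_zero])

theorem cone_hom {D : ι → ι →₀ C} {D' : κ → κ →₀ C} {f : ι → κ →₀ C} {g : ι → ℤ × ℤ}
    {g' : κ → ℤ × ℤ} (h : ∀ i j, D i j ∈ Hom (g i - g j - (1, 0)))
    (h' : ∀ i j, D' i j ∈ Hom (g' i - g' j - (1, 0))) (hf : ∀ i j, f i j ∈ Hom (g i - g' j))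
    (a b : κ ⊕ ι) : coneD D D' f a b ∈ Hom (Sum.elim g' (fun i => g i + (1, 0)) a -
      Sum.elim g' (fun i => g i + (1, 0)) b - (1, 0)) := by
  rcases a with a | a <;> rcases b with b | b
  · rw [coneD_ll]; exact h' a b
  · rw [coneD_lr]; exact Hom_zero _
  · rw [coneD_rl]; exact Hom_congr (hf a b) (by simp only [Sum.elim_inl, Sum.elim_inr]; abel)
  · rw [coneD_rr]
    exact Hom_congr (Hom_neg (Hom_eC (h a b))) (by simp only [Sum.elim_inr]; abel)

/-- The mapping cone of `f : M → N`: the cells of `N`, and those of `M` shifted by `(1, 0)`. -/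
def Map.cone {M : Cell ι} {N : Cell κ} (f : Map M N) : Cell (κ ⊕ ι) where
  deg := Sum.elim N.deg fun i => M.deg i + (1, 0)
  D := coneD M.D N.D f.f
  hom := cone_hom M.hom N.hom f.hom
  wf := cone_wf _ M.wf N.wf
  sq := by
    rintro (k | i)
    · rw [coneD, dM_cone_inl, N.sq, mapDomain_zero]
    · rw [cone_sq, f.comm, M.sq]; simp

/-- The unit object: the free module on one cell of bidegree `(0, 0)`. -/
def unit : Cell Unit where
  deg _ := (0, 0)
  D _ := 0
  hom _ _ := Hom_zero _
  wf := Subrelation.wf (fun h => absurd rfl h) emptyWf.wf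
  sq _ := map_zero _

/-- The differential of `S ⊗_C M` for `φ : C → S`, where `S` has zero differential. -/
def bd {S : Type} [CommRing S] (φ : C → S) (D : ι → ι →₀ C) (x : ι →₀ S) : ι →₀ S :=
  x.sum fun i s => (D i).sum fun j c => single j (s * φ c)

/-- The homology of `S ⊗_C M` vanishes. -/
def Exact {S : Type} [CommRing S] (φ : C → S) (M : Cell ι) : Prop :=
  ∀ x, bd φ M.D x = 0 → ∃ y, bd φ M.D y = x

/-- The slope `d_ij`, for `i > j ≥ -1`. -/
def slope (i : ℕ) (j : ℤ) : WithTop ℚ :=
  if j < 0 then (if i = 0 then ⊤ else ((1 / (2 ^ (i + 1) - 2) : ℚ) : WithTop ℚ))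
  else ((2 ^ (j + 1) * (2 ^ i - 1) / (2 ^ (j + 2) * (2 ^ i - 1) - 2) : ℚ) : WithTop ℚ)

/-- `K(β_ij)_** M = 0`, where `K(β_(i,-1)) = K(i)`. -/
def KZero (i : ℕ) (j : ℤ) (M : Cell ι) : Prop :=
  if j < 0 then (if i = 0 then Exact kRat M else Exact (kMor i) M) else Exact (kExo i j.toNat) M

/-- `M` is `K(≤ β_mn)`-acyclic. -/
def Acyc (m : ℕ) (n : ℤ) (M : Cell ι) : Prop :=
  ∀ (i : ℕ) (j : ℤ), -1 ≤ j → j < i → slope m n < slope i j → KZero i j M

/-- `Z` is `K(≤ β_mn)`-local: every map to it from an acyclic cell module is null. -/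
def Local (m : ℕ) (n : ℤ) (Z : Cell κ) : Prop :=
  ∀ (ι : Type) (W : Cell ι), Acyc m n W → ∀ f : Map W Z, f.Null

/-- `Z` is finitely local: every map to it from an acyclic finite cell module is null. -/
def FinLocal (m : ℕ) (n : ℤ) (Z : Cell κ) : Prop :=
  ∀ (k : ℕ) (F : Cell (Fin k)), Acyc m n F → ∀ f : Map F Z, f.Null

/-- `V` is finitely acyclic: every map from it to a finitely local cell module is null. -/
def FinAcyc (m : ℕ) (n : ℤ) (V : Cell ι) : Prop :=
  ∀ (κ : Type) (Z : Cell κ), FinLocal m n Z → ∀ f : Map V Z, f.Null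

/-- `η : M → Z` is the finite localisation `M → L^f_mn M`. -/
def IsFinLoc (m : ℕ) (n : ℤ) {M : Cell ι} {Z : Cell κ} (η : Map M Z) : Prop :=
  FinLocal m n Z ∧ FinAcyc m n η.cone

end

end Pool.Agent.Tel
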