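import Mathlib

/-!
The cobar differential graded algebra of the Hopf algebroid `(BP_*, BP_* BP)` at the prime 2,
with 2-adic coefficients.  It is the cochain algebra (Alexander-Whitney product) of the
cosimplicial ring `s ↦ π_* BP^(s+1)`, which is described inside its rationalisation
`ℚ_2[m_n^(j)]`, one family of logarithm coefficients `m_n^(j)` for each smash factor `j`.
-/

namespace Pool.Agent.Tel

open MvPolynomial DirectSum

noncomputable section

/-- The rational polynomial ring; the variable `(j, n)` is `m_(n+1)` of the smash factor `j`. -/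
abbrev Amb := MvPolynomial (ℕ × ℕ) ℚ_[2]

/-- The logarithm coefficients `m_0 = 1, m_1, m_2, ...` of the factor `j`. -/
def mm (j : ℕ) : ℕ → Amb
  | 0 => 1
  | n + 1 => X (j, n)

/-- Hazewinkel generators: `2 m_n = ∑_(i<n) m_i v_(n-i)^(2^i)`, and `v_0 = 2`. -/
def vv {R : Type} [CommRing R] (m : ℕ → R) : ℕ → R
  | 0 => 2
  | n + 1 => 2 * m (n + 1) - ∑ i : Fin n, m (i + 1) * vv m (n - i) ^ 2 ^ ((i : ℕ) + 1)
  decreasing_by omega

/-- The classes `t_n` between two factors: `m'_n = ∑_(i≤n) m_i t_(n-i)^(2^i)`. -/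
def tt {R : Type} [CommRing R] (m m' : ℕ → R) : ℕ → R
  | 0 => 1
  | n + 1 => m' (n + 1) - ∑ i : Fin (n + 1), m (i + 1) * tt m m' (n - i) ^ 2 ^ ((i : ℕ) + 1)
  decreasing_by omega

/-- `A s = π_* BP^(s+1)` (2-adically completed coefficients). -/
def A (s : ℕ) : Subalgebra ℤ_[2] Amb :=
  Algebra.adjoin ℤ_[2] ({x | ∃ j n, j ≤ s ∧ x = vv (mm j) n} ∪
    {x | ∃ j k n, j ≤ k ∧ k ≤ s ∧ x = tt (mm j) (mm k) n})

/-- The ring map induced by a map `f` of smash factors. -/
def ren (f : ℕ → ℕ) : Amb →ₐ[ℚ_[2]] Amb := rename fun p => (f p.1, p.2)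

/-- The `i`-th coface: the factors `j ≥ i` move up by one. -/
def face (i : ℕ) : Amb →ₐ[ℚ_[2]] Amb := ren fun j => if j < i then j else j + 1

theorem map_vv {R S F : Type} [CommRing R] [CommRing S] [FunLike F R S] [RingHomClass F R S]
    (g : F) (m : ℕ → R) (n : ℕ) : g (vv m n) = vv (fun i => g (m i)) n := by
  induction n using Nat.strong_induction_on with
  | _ n ih =>
    cases n with
    | zero => rw [vv, vv]; exact map_ofNat g 2
    | succ n =>
      rw [vv, vv, map_sub, map_mul, map_sum, map_ofNat]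
      congr 1
      refine Finset.sum_congr rfl fun i _ => ?_
      rw [map_mul, map_pow, ih _ (by omega)]

theorem map_tt {R S F : Type} [CommRing R] [CommRing S] [FunLike F R S] [RingHomClass F R S]
    (g : F) (m m' : ℕ → R) (n : ℕ) :
    g (tt m m' n) = tt (fun i => g (m i)) (fun i => g (m' i)) n := by
  induction n using Nat.strong_induction_on with
  | _ n ih =>
    cases n with
    | zero => rw [tt, tt]; exact map_one g
    | succ n =>
      rw [tt, tt, map_sub, map_sum]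
      congr 1
      refine Finset.sum_congr rfl fun i _ => ?_
      rw [map_mul, map_pow, ih _ (by omega)]

theorem ren_mm (f : ℕ → ℕ) (j : ℕ) : (fun i => ren f (mm j i)) = mm (f j) := by
  funext i
  cases i with
  | zero => simp [mm]
  | succ n => simp [mm, ren]

theorem ren_mem {f : ℕ → ℕ} (hf : Monotone f) {s s' : ℕ} (h : f s ≤ s') {x : Amb}
    (hx : x ∈ A s) : ren f x ∈ A s' := by
  induction hx using Algebra.adjoin_induction with
  | mem x hx =>
    apply Algebra.subset_adjoin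
    rcases hx with ⟨j, n, hj, rfl⟩ | ⟨j, k, n, hj, hk, rfl⟩
    · exact Or.inl ⟨f j, n, (hf hj).trans h, by rw [map_vv, ren_mm]⟩
    · exact Or.inr ⟨f j, f k, n, hf hj, (hf hk).trans h, by rw [map_tt, ren_mm, ren_mm]⟩
  | algebraMap r =>
    rw [IsScalarTower.algebraMap_apply ℤ_[2] ℚ_[2] Amb, AlgHom.commutes,
      ← IsScalarTower.algebraMap_apply]
    exact Subalgebra.algebraMap_mem _ r
  | add x y _ _ hx hy => rw [map_add]; exact add_mem hx hy
  | mul x y _ _ hx hy => rw [map_mul]; exact mul_mem hx hy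

theorem ren_ren (f g : ℕ → ℕ) (x : Amb) : ren f (ren g x) = ren (fun j => f (g j)) x := by
  simp only [ren, rename_rename]; rfl

theorem ren_id (x : Amb) : ren (fun j => j) x = x := by
  simp only [ren]; exact rename_id_apply x

theorem A_mono {s s' : ℕ} (h : s ≤ s') {x : Amb} (hx : x ∈ A s) : x ∈ A s' := by
  rw [← ren_id x]; exact ren_mem monotone_id h hx

theorem face_mem (i : ℕ) {s : ℕ} {x : Amb} (hx : x ∈ A s) : face i x ∈ A (s + 1) := by
  refine ren_mem (fun a b h => ?_) ?_ hx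
  · split_ifs <;> omega
  · split_ifs <;> omega

/-- The `s`-cochains. -/
@[ext] structure Cs (s : ℕ) : Type where
  val : Amb
  property : val ∈ A s

instance (s : ℕ) : Zero (Cs s) := ⟨⟨0, (A s).zero_mem⟩⟩
instance (s : ℕ) : Add (Cs s) := ⟨fun a b => ⟨a.1 + b.1, (A s).add_mem a.2 b.2⟩⟩
instance (s : ℕ) : Neg (Cs s) := ⟨fun a => ⟨-a.1, (A s).neg_mem a.2⟩⟩
instance (s : ℕ) : Sub (Cs s) := ⟨fun a b => ⟨a.1 - b.1, (A s).sub_mem a.2 b.2⟩⟩
instance (s : ℕ) : SMul ℕ (Cs s) := ⟨fun n a => ⟨n • a.1, (A s).nsmul_mem a.2 n⟩⟩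
instance (s : ℕ) : SMul ℤ (Cs s) := ⟨fun n a => ⟨n • a.1, (A s).zsmul_mem a.2 n⟩⟩

instance instAddCommGroupCs (s : ℕ) : AddCommGroup (Cs s) :=
  Function.Injective.addCommGroup Cs.val (fun _ _ h => Cs.ext h) rfl (fun _ _ => rfl)
    (fun _ => rfl) (fun _ _ => rfl) (fun _ _ => rfl) fun _ _ => rfl

@[simp] theorem Cs.val_zero (s : ℕ) : (0 : Cs s).1 = 0 := rfl
@[simp] theorem Cs.val_add {s : ℕ} (a b : Cs s) : (a + b).1 = a.1 + b.1 := rfl
@[simp] theorem Cs.val_neg {s : ℕ} (a : Cs s) : (-a).1 = -a.1 := rfl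
@[simp] theorem Cs.val_sub {s : ℕ} (a b : Cs s) : (a - b).1 = a.1 - b.1 := rfl
@[simp] theorem Cs.val_zsmul {s : ℕ} (n : ℤ) (a : Cs s) : (n • a).1 = n • a.1 := rfl

/-- The Alexander-Whitney product of cochains: front face times back face. -/
def cup {s s' : ℕ} (a : Cs s) (b : Cs s') : Cs (s + s') :=
  ⟨a.1 * ren (· + s) b.1, (A (s + s')).mul_mem (A_mono (Nat.le_add_right _ _) a.2)
    (ren_mem (fun _ _ h => Nat.add_le_add_right h s) (by omega) b.2)⟩

theorem mk_eq {s s' : ℕ} {a : Cs s} {b : Cs s'} (h : s = s') (h' : a.1 = b.1) :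
    GradedMonoid.mk (A := Cs) s a = GradedMonoid.mk s' b := by
  subst h; rw [Cs.ext h']

instance instGOneCs : GradedMonoid.GOne Cs := ⟨⟨1, (A 0).one_mem⟩⟩

instance instGMulCs : GradedMonoid.GMul Cs := ⟨cup⟩

instance instGRingCs : GRing Cs where
  mul_zero a := Cs.ext (by simp [GradedMonoid.GMul.mul, cup])
  zero_mul b := Cs.ext (by simp [GradedMonoid.GMul.mul, cup])
  mul_add a b c := Cs.ext (by simp [GradedMonoid.GMul.mul, cup, mul_add])
  add_mul a b c := Cs.ext (by simp [GradedMonoid.GMul.mul, cup, add_mul])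
  one_mul a := mk_eq (zero_add _) (by
    change 1 * ren (· + 0) a.2.1 = a.2.1
    rw [one_mul]; exact ren_id _)
  mul_one a := mk_eq (add_zero _) (by
    change a.2.1 * ren _ 1 = a.2.1
    rw [map_one, mul_one])
  mul_assoc a b c := mk_eq (add_assoc _ _ _) (by
    change a.2.1 * ren (· + a.1) b.2.1 * ren (· + (a.1 + b.1)) c.2.1 =
      a.2.1 * ren (· + a.1) (b.2.1 * ren (· + b.1) c.2.1)
    have e : (fun j => j + b.1 + a.1) = fun j => j + (a.1 + b.1) := by funext j; omega
    rw [map_mul, ren_ren, mul_assoc, e])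
  natCast n := ⟨n, natCast_mem (A 0) n⟩
  natCast_zero := Cs.ext Nat.cast_zero
  natCast_succ n := Cs.ext (Nat.cast_succ n)
  intCast n := ⟨n, intCast_mem (A 0) n⟩
  intCast_ofNat n := Cs.ext (Int.cast_natCast n)
  intCast_negSucc_ofNat n := Cs.ext (Int.cast_negSucc n)

/-- The cobar algebra `C = ⨁_s A s`. -/
def C : Type := ⨁ s, Cs s

set_option warn.classDefReducibility false in
/-- The ring structure of the direct sum of the graded ring `Cs`. -/
def ringC : Ring C := DirectSum.ring Cs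

instance instRingC : Ring C := ringC

/-- The inclusion of the `s`-cochains. -/
def ofC (s : ℕ) : Cs s →+ C := of Cs s

/-- The component of cohomological degree `s`. -/
def cmp (s : ℕ) : C →+ Cs s := DFinsupp.evalAddMonoidHom s

theorem of_mul {s s' : ℕ} (a : Cs s) (b : Cs s') :
    ofC s a * ofC s' b = ofC (s + s') (cup a b) := of_mul_of a b

/-- The coboundary `∑ (-1)^i δ^i` on `s`-cochains. -/
def cob (s : ℕ) : Cs s →+ Cs (s + 1) where
  toFun a := ⟨∑ i ∈ Finset.range (s + 2), (-1) ^ i * face i a.1,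
    (A (s + 1)).sum_mem fun i _ => (A (s + 1)).mul_mem
      ((A (s + 1)).pow_mem ((A (s + 1)).neg_mem (A (s + 1)).one_mem) i) (face_mem i a.2)⟩
  map_zero' := Cs.ext (by simp)
  map_add' a b := Cs.ext (by simp [mul_add, Finset.sum_add_distrib])

/-- The differential of the cobar algebra. -/
def dC : C →+ C := toAddMonoid fun s => (ofC (s + 1)).comp (cob s)

/-- The sign automorphism, `(-1)^s` on `s`-cochains. -/
def eC : C →+* C :=
  toSemiring (fun s => ((-1 : ℤ) ^ s) • ofC s) (by simp; rfl) fun {i j} a b => by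
    simp only [AddMonoidHom.smul_apply, smul_mul_smul_comm, of_mul, pow_add]; rfl

/-- The weight of `m_(n+1)` is `2^(n+1) - 1`. -/
def wt (p : ℕ × ℕ) : ℤ := 2 ^ (p.2 + 1) - 1

/-- Elements of `C` of motivic bidegree `p = (stem, weight)`: cochains of degree
`2 * weight - stem` that are homogeneous of the given weight. -/
def Hom (p : ℤ × ℤ) : Set C :=
  {x | ∀ s, (cmp s x).1.IsWeightedHomogeneous wt p.2 ∧ (cmp s x ≠ 0 → (s : ℤ) = 2 * p.2 - p.1)}

/-- Substitution of the integral generators: `(0, n) ↦ v_(n+1)` and `(l+1, n) ↦ t_(n+1)` between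
the factors `l` and `l + 1`. -/
def ev : MvPolynomial (ℕ × ℕ) ℤ_[2] →ₐ[ℤ_[2]] Amb :=
  aeval fun p => match p.1 with
    | 0 => vv (mm 0) (p.2 + 1)
    | l + 1 => tt (mm l) (mm (l + 1)) (p.2 + 1)

/-- A cochain written as an integral polynomial in the `v_n` and the `t_n` of each tensor slot. -/
def crd (x : Amb) : MvPolynomial (ℕ × ℕ) ℤ_[2] := Function.invFun ev x

/-- `F_2[α, α⁻¹]`. -/
abbrev K : Type := LaurentPolynomial (ZMod 2)

/-- The exponent vector of `[t_i^(2^j) | ... | t_i^(2^j)]` with `s` tensor slots. -/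
def mono (i j s : ℕ) : (ℕ × ℕ) →₀ ℕ := ∑ l ∈ Finset.range s, Finsupp.single (l + 1, i - 1) (2 ^ j)

/-- The map `C → K(β_ij)_* = F_2[α^±]` induced by the coalgebra quotient dual to `t_i^(2^j)`. -/
def kExo (i j : ℕ) (x : C) : K :=
  ∑ᶠ s, LaurentPolynomial.C (PadicInt.toZMod (coeff (mono i j s) (crd (cmp s x).1))) *
    LaurentPolynomial.T s

/-- The map `C → BP_* → F_2[v_i^±]` of the Morava K-theory `K(i)` modulo `τ`, for `i ≥ 1`. -/
def kMor (i : ℕ) (x : C) : K :=
  eval₂ (LaurentPolynomial.C.comp PadicInt.toZMod)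
    (fun p => if p = (0, i - 1) then LaurentPolynomial.T 1 else 0) (crd (cmp 0 x).1)

/-- The map `C → BP_* → ℚ_2` of `K(0)` modulo `τ`. -/
def kRat (x : C) : ℚ_[2] := (constantCoeff (crd (cmp 0 x).1) : ℤ_[2])

end

end Pool.Agent.Tel
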