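import Pool.Agent.Lib.MP_3a30fb_gt.Cobar

/-!
The cobar algebra is a bigraded differential graded algebra.
-/

namespace Pool.Agent.Tel

open MvPolynomial DirectSum

noncomputable section

@[elab_as_elim] theorem C.induction_on {motive : C → Prop} (x : C) (zero : motive 0)
    (of : ∀ s (a : Cs s), motive (ofC s a)) (add : ∀ x y, motive x → motive y → motive (x + y)) :
    motive x := DirectSum.induction_on x zero of add

theorem cmp_same {s : ℕ} (a : Cs s) : cmp s (ofC s a) = a := of_eq_same s a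

theorem cmp_ne {s t : ℕ} (a : Cs s) (h : t ≠ s) : cmp t (ofC s a) = 0 := of_eq_of_ne _ _ _ h

theorem C.ext {x y : C} (h : ∀ s, cmp s x = cmp s y) : x = y := DirectSum.ext h

theorem exists_sum (x : C) :
    ∃ t : Finset ℕ, (∀ s ∉ t, cmp s x = 0) ∧ ∑ s ∈ t, ofC s (cmp s x) = x := by
  classical
  exact ⟨DFinsupp.support x, fun s hs => DFinsupp.notMem_support_iff.mp hs,
    DirectSum.sum_support_of x⟩

def liftC {R : Type} [Semiring R] (f : ∀ s, Cs s →+ R) (h1 : f 0 ⟨1, (A 0).one_mem⟩ = 1)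
    (hm : ∀ s s' a b, f (s + s') (cup a b) = f s a * f s' b) : C →+* R :=
  toSemiring f h1 fun a b => hm _ _ a b

theorem liftC_of {R : Type} [Semiring R] (f : ∀ s, Cs s →+ R) (h1 hm) {s : ℕ} (a : Cs s) :
    liftC f h1 hm (ofC s a) = f s a := toSemiring_of f h1 _ s a

theorem of_congr {s s' : ℕ} {a : Cs s} {b : Cs s'} (h : s = s') (h' : a.1 = b.1) :
    ofC s a = ofC s' b := by
  subst h; rw [Cs.ext h']

theorem ren_congr {f g : ℕ → ℕ} {s : ℕ} (h : ∀ j ≤ s, f j = g j) {x : Amb} (hx : x ∈ A s) :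
    ren f x = ren g x := by
  induction hx using Algebra.adjoin_induction with
  | mem x hx =>
    rcases hx with ⟨j, n, hj, rfl⟩ | ⟨j, k, n, hj, hk, rfl⟩
    · rw [map_vv, map_vv, ren_mm, ren_mm, h j hj]
    · rw [map_tt, map_tt, ren_mm, ren_mm, ren_mm, ren_mm, h j (hj.trans hk), h k hk]
  | algebraMap r =>
    rw [IsScalarTower.algebraMap_apply ℤ_[2] ℚ_[2] Amb, AlgHom.commutes, AlgHom.commutes]
  | add x y _ _ hx hy => rw [map_add, map_add, hx, hy]
  | mul x y _ _ hx hy => rw [map_mul, map_mul, hx, hy]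

theorem face_of_lt {i s : ℕ} (h : s < i) {x : Amb} (hx : x ∈ A s) : face i x = x := by
  conv_rhs => rw [← ren_id x]
  exact ren_congr (fun j hj => if_pos (by omega)) hx

theorem face_shift {i s : ℕ} (h : i ≤ s) (x : Amb) :
    face i (ren (· + s) x) = ren (· + (s + 1)) x := by
  have e : (fun j => if j + s < i then j + s else j + s + 1) = fun j => j + (s + 1) := by
    funext j; rw [if_neg (by omega)]; omega
  rw [face, ren_ren, e]

theorem face_shift' (k s : ℕ) (x : Amb) :
    face (s + k) (ren (· + s) x) = ren (· + s) (face k x) := by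
  have e : (fun j => if j + s < s + k then j + s else j + s + 1) =
      fun j => (if j < k then j else j + 1) + s := by
    funext j; split_ifs <;> omega
  rw [face, face, ren_ren, ren_ren, e]

theorem face_face {i n : ℕ} (h : i ≤ n) (x : Amb) :
    face (n + 1) (face i x) = face i (face n x) := by
  have e : (fun j => if (if j < i then j else j + 1) < n + 1 then (if j < i then j else j + 1)
      else (if j < i then j else j + 1) + 1) = fun j => if (if j < n then j else j + 1) < i
      then (if j < n then j else j + 1) else (if j < n then j else j + 1) + 1 := by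
    funext j; split_ifs <;> omega
  rw [face, face, face, ren_ren, ren_ren, e]

/-- The alternating sum of the first `n` cofaces. -/
def alt (n : ℕ) (x : Amb) : Amb := ∑ i ∈ Finset.range n, (-1) ^ i * face i x

theorem alt_succ (n : ℕ) (x : Amb) : alt (n + 1) x = alt n x + (-1) ^ n * face n x :=
  Finset.sum_range_succ _ _

theorem alt_add (n : ℕ) (x y : Amb) : alt n (x + y) = alt n x + alt n y := by
  simp [alt, mul_add, Finset.sum_add_distrib]

theorem alt_sign (n k : ℕ) (x : Amb) : alt n ((-1) ^ k * x) = (-1) ^ k * alt n x := by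
  simp only [alt, map_mul, map_pow, map_neg, map_one, Finset.mul_sum]
  exact Finset.sum_congr rfl fun i _ => by ring

theorem alt_alt (n : ℕ) (x : Amb) : alt (n + 1) (alt n x) = 0 := by
  induction n with
  | zero => simp [alt]
  | succ n ih =>
    have e : face (n + 1) (alt n x) = alt n (face n x) := by
      simp only [alt, map_sum, map_mul, map_pow, map_neg, map_one]
      exact Finset.sum_congr rfl fun i hi => by
        rw [face_face (by simp at hi; omega)]
    rw [alt_succ n x, alt_add, alt_sign, alt_succ (n + 1) (alt n x), ih, e,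
      alt_succ (n + 1) (face n x), alt_succ n (face n x), face_face le_rfl]
    ring

theorem alt_cup {s s' : ℕ} {a : Amb} (ha : a ∈ A s) (b : Amb) :
    alt (s + s' + 2) (a * ren (· + s) b) = alt (s + 2) a * ren (· + (s + 1)) b +
      (-1) ^ s * (a * ren (· + s) (alt (s' + 2) b)) := by
  have e1 : alt (s + s' + 2) (a * ren (· + s) b) = alt (s + 1) a * ren (· + (s + 1)) b +
      ∑ k ∈ Finset.range (s' + 1), (-1) ^ (s + 1 + k) * (a * ren (· + s) (face (k + 1) b)) := by
    rw [alt, show s + s' + 2 = (s + 1) + (s' + 1) by omega, Finset.sum_range_add, alt,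
      Finset.sum_mul]
    congr 1
    · exact Finset.sum_congr rfl fun i hi => by
        rw [map_mul, face_shift (by simp at hi; omega), mul_assoc]
    · exact Finset.sum_congr rfl fun k _ => by
        rw [map_mul, face_of_lt (by omega) ha, show s + 1 + k = s + (k + 1) by omega,
          face_shift']
  have e2 : ren (· + s) (face 0 b) = ren (· + (s + 1)) b := by
    have e : (fun j => (if j < 0 then j else j + 1) + s) = fun j => j + (s + 1) := by
      funext j; rw [if_neg (by omega)]; omega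
    rw [face, ren_ren, e]
  rw [e1, alt_succ (s + 1) a, face_of_lt (by omega) ha, alt, alt, Finset.sum_range_succ' _ (s' + 1),
    map_add, map_sum, map_mul, e2, mul_add, mul_add, Finset.mul_sum, Finset.mul_sum]
  simp only [map_mul, map_pow, map_neg, map_one]
  have e3 : ∑ k ∈ Finset.range (s' + 1), (-1) ^ (s + 1 + k) * (a * ren (· + s) (face (k + 1) b)) =
      ∑ k ∈ Finset.range (s' + 1), (-1) ^ s * (a * ((-1) ^ (k + 1) * ren (· + s) (face (k + 1) b))) :=
    Finset.sum_congr rfl fun k _ => by ring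
  rw [e3]; ring

theorem dC_of {s : ℕ} (a : Cs s) : dC (ofC s a) = ofC (s + 1) (cob s a) :=
  toAddMonoid_of (fun s => (ofC (s + 1)).comp (cob s)) s a

theorem eC_of {s : ℕ} (a : Cs s) : eC (ofC s a) = (-1 : ℤ) ^ s • ofC s a :=
  toSemiring_of (fun s => ((-1 : ℤ) ^ s) • ofC s) _ _ s a

theorem cob_val {s : ℕ} (a : Cs s) : (cob s a).1 = alt (s + 2) a.1 := rfl

theorem cup_val {s s' : ℕ} (a : Cs s) (b : Cs s') : (cup a b).1 = a.1 * ren (· + s) b.1 := rfl

theorem dC_dC (x : C) : dC (dC x) = 0 := by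
  induction x using C.induction_on with
  | zero => simp
  | of s a =>
    rw [dC_of, dC_of, ← map_zero (ofC (s + 1 + 1))]
    exact of_congr rfl (alt_alt _ _)
  | add x y hx hy => rw [map_add, map_add, hx, hy, add_zero]

theorem dC_eC (x : C) : dC (eC x) = - eC (dC x) := by
  induction x using C.induction_on with
  | zero => simp
  | of s a => rw [eC_of, map_zsmul, dC_of, eC_of, pow_succ, mul_neg_one, neg_smul, neg_neg]
  | add x y hx hy => rw [map_add, map_add, hx, hy, map_add, map_add, neg_add]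

theorem eC_eC (x : C) : eC (eC x) = x := by
  induction x using C.induction_on with
  | zero => simp
  | of s a => rw [eC_of, map_zsmul, eC_of, smul_smul, ← mul_pow]; simp
  | add x y hx hy => rw [map_add, map_add, hx, hy]

theorem dC_mul (x y : C) : dC (x * y) = dC x * y + eC x * dC y := by
  induction x using C.induction_on with
  | zero => simp
  | add x x' hx hx' => simp only [add_mul, map_add, hx, hx']; abel
  | of s a =>
    induction y using C.induction_on with
    | zero => simp
    | add y y' hy hy' => simp only [mul_add, map_add, hy, hy']; abel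
    | of s' b =>
      have e : ofC (s + 1 + s') (cup (cob s a) b) = ofC (s + s' + 1)
          ⟨(cup (cob s a) b).1, A_mono (s := s + 1 + s') (by omega) (cup (cob s a) b).2⟩ :=
        of_congr (by omega) rfl
      rw [of_mul, dC_of, dC_of, dC_of, eC_of, smul_mul_assoc, of_mul, of_mul, e, ← map_zsmul]
      change _ = _ + ofC (s + s' + 1) _
      rw [← map_add]
      refine of_congr rfl ?_
      have := alt_cup (s' := s') a.2 b.1
      simp only [cob_val, cup_val, Cs.val_add, Cs.val_zsmul, zsmul_eq_mul]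
      push_cast
      exact this

theorem dC_one : dC 1 = 0 := by
  have := dC_mul 1 1
  simpa using this

theorem dC_intCast (n : ℤ) : dC n = 0 := by
  rw [← zsmul_one, map_zsmul, dC_one, smul_zero]

theorem ren_hom (f : ℕ → ℕ) {x : Amb} {w : ℤ} (hx : x.IsWeightedHomogeneous wt w) :
    (ren f x).IsWeightedHomogeneous wt w := by
  rw [x.as_sum, map_sum]
  refine IsWeightedHomogeneous.sum _ _ _ fun d hd => ?_
  rw [ren, rename_monomial]
  refine isWeightedHomogeneous_monomial _ _ _ ?_
  rw [← hx (mem_support_iff.mp hd), Finsupp.weight_apply, Finsupp.weight_apply,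
    Finsupp.sum_mapDomain_index (by simp) (by intros; rw [add_smul])]
  rfl

theorem of_mem_Hom {s : ℕ} {a : Cs s} {p : ℤ × ℤ} (h : a.1.IsWeightedHomogeneous wt p.2)
    (hs : (s : ℤ) = 2 * p.2 - p.1) : ofC s a ∈ Hom p := by
  intro t
  by_cases e : t = s
  · subst e; rw [cmp_same]; exact ⟨h, fun _ => hs⟩
  · rw [cmp_ne _ e]; exact ⟨isWeightedHomogeneous_zero _ _ _, fun h => absurd rfl h⟩

theorem Hom_cases {x : C} {p : ℤ × ℤ} (h : x ∈ Hom p) : x = 0 ∨ ∃ s, ∃ a : Cs s,
    x = ofC s a ∧ a.1.IsWeightedHomogeneous wt p.2 ∧ (s : ℤ) = 2 * p.2 - p.1 := by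
  by_cases h0 : x = 0
  · exact Or.inl h0
  obtain ⟨s, hs⟩ : ∃ s, cmp s x ≠ 0 := by
    by_contra hc
    push Not at hc
    exact h0 (C.ext hc)
  refine Or.inr ⟨s, cmp s x, C.ext fun t => ?_, (h s).1, (h s).2 hs⟩
  by_cases e : t = s
  · subst e; rw [cmp_same]
  · rw [cmp_ne _ e]
    by_contra hc
    have h1 := (h t).2 hc
    have h2 := (h s).2 hs
    omega

theorem Hom_zero (p : ℤ × ℤ) : (0 : C) ∈ Hom p :=
  fun _ => ⟨isWeightedHomogeneous_zero _ _ _, fun h => absurd rfl h⟩

theorem Hom_add {p : ℤ × ℤ} {x y : C} (hx : x ∈ Hom p) (hy : y ∈ Hom p) : x + y ∈ Hom p := by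
  intro s
  refine ⟨(hx s).1.add (hy s).1, fun h => ?_⟩
  by_cases e : cmp s x = 0
  · refine (hy s).2 fun e' => h ?_
    rw [map_add, e, e', add_zero]
  · exact (hx s).2 e

theorem Hom_neg {p : ℤ × ℤ} {x : C} (hx : x ∈ Hom p) : -x ∈ Hom p := by
  intro s
  refine ⟨(weightedHomogeneousSubmodule ℚ_[2] wt p.2).neg_mem (hx s).1, fun h => ?_⟩
  refine (hx s).2 fun e' => h ?_
  rw [map_neg, e', neg_zero]

/-- The elements of a given bidegree form an additive subgroup. -/
def HomG (p : ℤ × ℤ) : AddSubgroup C where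
  carrier := Hom p
  zero_mem' := Hom_zero p
  add_mem' := Hom_add
  neg_mem' := Hom_neg

theorem Hom_sub {p : ℤ × ℤ} {x y : C} (hx : x ∈ Hom p) (hy : y ∈ Hom p) : x - y ∈ Hom p :=
  (HomG p).sub_mem hx hy

theorem Hom_sum {α : Type} {p : ℤ × ℤ} {t : Finset α} {f : α → C} (h : ∀ a ∈ t, f a ∈ Hom p) :
    ∑ a ∈ t, f a ∈ Hom p := (HomG p).sum_mem h

theorem Hom_zsmul {p : ℤ × ℤ} {x : C} (n : ℤ) (hx : x ∈ Hom p) : n • x ∈ Hom p :=
  (HomG p).zsmul_mem hx n

theorem Hom_mul {p q : ℤ × ℤ} {x y : C} (hx : x ∈ Hom p) (hy : y ∈ Hom q) :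
    x * y ∈ Hom (p + q) := by
  rcases Hom_cases hx with rfl | ⟨s, a, rfl, ha, hs⟩
  · rw [zero_mul]; exact Hom_zero _
  rcases Hom_cases hy with rfl | ⟨t, b, rfl, hb, ht⟩
  · rw [mul_zero]; exact Hom_zero _
  rw [of_mul]
  refine of_mem_Hom (ha.mul (ren_hom _ hb)) ?_
  simp only [Nat.cast_add, Prod.snd_add, Prod.fst_add]; omega

theorem Hom_dC {p : ℤ × ℤ} {x : C} (hx : x ∈ Hom p) : dC x ∈ Hom (p - (1, 0)) := by
  rcases Hom_cases hx with rfl | ⟨s, a, rfl, ha, hs⟩
  · rw [map_zero]; exact Hom_zero _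
  rw [dC_of]
  refine of_mem_Hom ?_ ?_
  · simp only [Prod.snd_sub, sub_zero, cob_val, alt]
    refine IsWeightedHomogeneous.sum _ _ _ fun i _ => ?_
    rcases neg_one_pow_eq_or Amb i with e | e
    · rw [e, one_mul]; exact ren_hom _ ha
    · rw [e, neg_one_mul]
      exact (weightedHomogeneousSubmodule ℚ_[2] wt p.2).neg_mem (ren_hom _ ha)
  · simp only [Nat.cast_add, Prod.snd_sub, Prod.fst_sub]; omega

theorem Hom_eC {p : ℤ × ℤ} {x : C} (hx : x ∈ Hom p) : eC x ∈ Hom p := by
  rcases Hom_cases hx with rfl | ⟨s, a, rfl, ha, hs⟩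
  · rw [map_zero]; exact Hom_zero _
  rw [eC_of]; exact Hom_zsmul _ hx

theorem Hom_one : (1 : C) ∈ Hom (0, 0) :=
  of_mem_Hom (s := 0) (a := ⟨1, (A 0).one_mem⟩) (isWeightedHomogeneous_one _ _) (by simp)

theorem Hom_intCast (n : ℤ) : (n : C) ∈ Hom (0, 0) := by
  rw [← zsmul_one]; exact Hom_zsmul n Hom_one

theorem Hom_congr {p q : ℤ × ℤ} {x : C} (hx : x ∈ Hom p) (h : p = q) : x ∈ Hom q := h ▸ hx

theorem eC_sub (x : C) : ∃ y, eC x = x + 2 * y := by
  induction x using C.induction_on with
  | zero => exact ⟨0, by simp⟩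
  | of s a =>
    rw [eC_of]
    rcases neg_one_pow_eq_or ℤ s with e | e
    · exact ⟨0, by rw [e]; simp⟩
    · exact ⟨-ofC s a, by rw [e, two_mul]; simp⟩
  | add x y hx hy =>
    obtain ⟨a, ha⟩ := hx
    obtain ⟨b, hb⟩ := hy
    exact ⟨a + b, by rw [map_add, ha, hb, mul_add]; abel⟩

theorem eC_eq_zero {x : C} : eC x = 0 ↔ x = 0 :=
  ⟨fun h => by rw [← eC_eC x, h, map_zero], fun h => by rw [h, map_zero]⟩

end

end Pool.Agent.Tel
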