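import Pool.Agent.Lib.MP_3a30fb_gt.Integral
import Pool.Agent.Lib.MP_3a30fb_gt.DGA

/-!
Every cochain is an integral polynomial in the generators `v_n` and `t_n` of each slot.
-/

namespace Pool.Agent.Tel

open MvPolynomial Finset

noncomputable section

/-- Integral polynomials in the generators. -/
abbrev PZ := MvPolynomial (ℕ × ℕ) ℤ_[2]

def mq : PZ →+* Amb := MvPolynomial.map (algebraMap ℤ_[2] ℚ_[2])

theorem mq_inj : Function.Injective mq :=
  map_injective _ (IsFractionRing.injective ℤ_[2] ℚ_[2])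

theorem mq_X (p : ℕ × ℕ) : mq (X p) = X p := map_X _ _

/-- The generators of slot `l + 1`. -/
def yt {R : Type} [CommRing R] (l : ℕ) : ℕ → MvPolynomial (ℕ × ℕ) R
  | 0 => 1
  | k + 1 => X (l + 1, k)

def yv : ℕ → Amb
  | 0 => 0
  | k + 1 => X (0, k)

def mu0 : ℕ → Amb
  | 0 => 1
  | n + 1 => MvPolynomial.C (1 / 2) *
      (X (0, n) + ∑ i : Fin n, mu0 (i + 1) * yv (n - i) ^ 2 ^ ((i : ℕ) + 1))
  decreasing_by omega

def mu : ℕ → ℕ → Amb
  | 0 => mu0
  | l + 1 => pw (mu l) (yt l)

theorem two_half : (2 : Amb) * MvPolynomial.C (1 / 2) = 1 := by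
  rw [← map_ofNat (MvPolynomial.C : ℚ_[2] →+* Amb) 2, ← map_mul]; norm_num

theorem mu_zero (l : ℕ) : mu l 0 = 1 := by
  induction l with
  | zero => rw [mu, mu0]
  | succ l ih => rw [mu, pw_zero, ih, yt, one_mul]

theorem ww_mu0 (n : ℕ) : ww mu0 n = yv n := by
  induction n using Nat.strong_induction_on with
  | _ n ih =>
    cases n with
    | zero => rfl
    | succ n =>
      have : ∑ i : Fin n, mu0 (i + 1) * vv mu0 (n - i) ^ 2 ^ ((i : ℕ) + 1) =
          ∑ i : Fin n, mu0 (i + 1) * yv (n - i) ^ 2 ^ ((i : ℕ) + 1) :=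
        Finset.sum_congr rfl fun i _ => by rw [← ih _ (by omega), ww, if_neg (by omega)]
      rw [ww, if_neg (by omega), vv, this, mu0, ← mul_assoc, two_half, yv]
      ring

theorem tt_pw {R : Type} [CommRing R] {m t : ℕ → R} (h : m 0 = 1) (h' : t 0 = 1) (n : ℕ) :
    tt m (pw m t) n = t n :=
  pw_cancel h (tt_spec h (by rw [pw_zero, h, h', one_mul])) n

theorem tt_self {R : Type} [CommRing R] {m : ℕ → R} (h : m 0 = 1) (n : ℕ) :
    tt m m (n + 1) = 0 := by
  have e : pw m (fun k => if k = 0 then 1 else 0) = m := by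
    funext n
    rw [pw, Finset.sum_eq_single (n, 0)]
    · simp
    · intro p hp h
      have hp := mem_antidiagonal.mp hp
      rw [if_neg (fun h0 => h (Prod.ext (by simp; omega) h0)), zero_pow (by positivity), mul_zero]
    · simp
  have := tt_pw (t := fun k => if k = 0 then 1 else 0) h rfl (n + 1)
  rwa [e] at this

theorem map_pw {R S F : Type} [CommRing R] [CommRing S] [FunLike F R S] [RingHomClass F R S]
    (g : F) (a b : ℕ → R) (n : ℕ) : g (pw a b n) = pw (fun i => g (a i)) (fun i => g (b i)) n := by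
  simp [pw]

def lam : Amb →ₐ[ℚ_[2]] Amb := aeval fun p => mu p.1 (p.2 + 1)

theorem lam_mm (j : ℕ) : (fun i => lam (mm j i)) = mu j := by
  funext i
  cases i with
  | zero => rw [mm, map_one, mu_zero]
  | succ n => simp [mm, lam]

def evq : Amb →ₐ[ℚ_[2]] Amb :=
  aeval fun p => match p.1 with
    | 0 => vv (mm 0) (p.2 + 1)
    | l + 1 => tt (mm l) (mm (l + 1)) (p.2 + 1)

theorem evq_mu0 (n : ℕ) : evq (mu0 n) = mm 0 n := by
  induction n using Nat.strong_induction_on with
  | _ n ih =>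
    cases n with
    | zero => rw [mu0, map_one, mm]
    | succ n =>
      have : ∑ i : Fin n, evq (mu0 (i + 1) * yv (n - i) ^ 2 ^ ((i : ℕ) + 1)) =
          ∑ i : Fin n, mm 0 (i + 1) * vv (mm 0) (n - i) ^ 2 ^ ((i : ℕ) + 1) :=
        Finset.sum_congr rfl fun i _ => by
          obtain ⟨k, hk⟩ : ∃ k, n - i = k + 1 := ⟨n - i - 1, by omega⟩
          rw [map_mul, ih _ (by omega), map_pow, hk, yv, evq, aeval_X]
      rw [mu0, map_mul, map_add, map_sum, this, algHom_C, evq, aeval_X]
      dsimp only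
      rw [vv, sub_add_cancel, ← mul_assoc, algebraMap_eq, mul_comm _ 2, two_half, one_mul]

theorem evq_mu (l n : ℕ) : evq (mu l n) = mm l n := by
  induction l generalizing n with
  | zero => exact evq_mu0 n
  | succ l ih =>
    have e : (fun i => evq (yt l i)) = tt (mm l) (mm (l + 1)) := by
      funext i
      cases i with
      | zero => rw [yt, map_one, tt]
      | succ i => rw [yt, evq, aeval_X]
    rw [mu, map_pw, funext ih, e, tt_spec rfl rfl]

theorem lam_inj : Function.Injective lam := by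
  have : evq.comp lam = AlgHom.id _ _ := algHom_ext fun p => by
    simp only [AlgHom.comp_apply, lam, aeval_X, evq_mu, mm, AlgHom.id_apply]
  exact Function.LeftInverse.injective (g := evq) fun x => AlgHom.congr_fun this x

theorem lam_ev (y : PZ) : lam (ev y) = mq y := by
  induction y using MvPolynomial.induction_on with
  | C r =>
    rw [algHom_C, IsScalarTower.algebraMap_apply ℤ_[2] ℚ_[2] Amb, AlgHom.commutes, mq, map_C]
    rfl
  | add x y hx hy => simp only [map_add, hx, hy]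
  | mul_X x p hx =>
    rw [map_mul, map_mul, map_mul, hx, mq_X, ev, aeval_X]
    congr 1
    rcases p with ⟨_ | l, n⟩
    · have := ww_mu0 (n + 1)
      rw [ww, if_neg (by omega)] at this
      dsimp only
      rw [map_vv, lam_mm]; exact this
    · dsimp only
      rw [map_tt, lam_mm, lam_mm, mu, tt_pw (mu_zero l) rfl, yt]

theorem ev_inj : Function.Injective ev := fun x y h =>
  mq_inj (by rw [← lam_ev, h, lam_ev])

theorem crd_ev (y : PZ) : crd (ev y) = y := Function.leftInverse_invFun ev_inj y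

theorem two_dvd_iff (y : PZ) :
    MvPolynomial.map (PadicInt.toZMod (p := 2)) y = 0 ↔ ∃ z, y = 2 * z := by
  rw [← C_dvd_iff_map_hom_eq_zero _ (2 : ℤ_[2]), map_ofNat]
  · rfl
  · intro r
    rw [← RingHom.mem_ker, PadicInt.ker_toZMod, PadicInt.maximalIdeal_eq_span_p,
      Ideal.mem_span_singleton]
    rfl

/-- The functional equation data in the integral coordinates. -/
def stp {T : Type} [CommRing T] (π : PZ →+* T) (h2 : π 2 = 0) (hv : ∀ n, π (X (0, n)) = 0) :
    Setup Amb where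
  O := mq.range
  Φ := (expand 2 : Amb →ₐ[ℚ_[2]] Amb)
  I := (RingHom.ker π).toAddSubgroup.map mq.toAddMonoidHom
  w := yv
  μ := mu0
  reg x hx := by rw [← one_mul x, ← two_half, mul_right_comm, hx, zero_mul]
  Φ_mem := by
    rintro _ ⟨y, rfl⟩
    obtain ⟨z, hz⟩ := (two_dvd_iff (expand 2 y - y ^ 2)).mp (by
      rw [map_sub, map_expand, expand_zmod, map_pow, sub_self])
    refine ⟨mq z, ⟨z, rfl⟩, ?_⟩
    have := congrArg mq hz
    rw [map_sub, map_mul, map_ofNat, map_pow, mq, map_expand] at this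
    exact eq_add_of_sub_eq' this
  I_le := by rintro _ ⟨y, _, rfl⟩; exact ⟨y, rfl⟩
  I_mul := by
    rintro _ ⟨x, rfl⟩ _ ⟨y, hy, rfl⟩
    exact ⟨x * y, Ideal.mul_mem_left _ x hy, map_mul mq x y⟩
  two := ⟨2, h2, map_ofNat mq 2⟩
  w0 := rfl
  wI k := by
    cases k with
    | zero => exact zero_mem _
    | succ k => exact ⟨X (0, k), hv k, mq_X _⟩
  Φw k := by
    cases k with
    | zero => simp [yv]
    | succ k => exact expand_X 2 _
  μ0 := by rw [mu0]
  formA n := by rw [← funext ww_mu0]; exact vv_spec (by rw [mu0]) n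

theorem yt_mem (l n : ℕ) : (yt l n : Amb) ∈ mq.range := by
  cases n with
  | zero => exact one_mem _
  | succ n => exact ⟨X _, mq_X _⟩

theorem pw_t0 (j : ℕ) : pw mu0 (tt mu0 (mu j)) = mu j :=
  funext (tt_spec (mu_zero 0) (mu_zero j))

def triv : PZ →+* PUnit.{1} := ⟨⟨⟨0, rfl⟩, fun _ _ => rfl⟩, rfl, fun _ _ => rfl⟩

def stp0 : Setup Amb := stp triv rfl fun _ => rfl

theorem t0_mem (j n : ℕ) : tt mu0 (mu j) n ∈ mq.range := by
  induction j generalizing n with
  | zero =>
    cases n with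
    | zero => rw [tt]; exact one_mem _
    | succ n => rw [mu, tt_self (m := mu0) (mu_zero 0)]; exact zero_mem _
  | succ j ih =>
    induction n using Nat.strong_induction_on with
    | _ n ih' =>
      have := stp0.I_le _ (stp0.coprod (tt mu0 (mu j)) (yt j) (tt mu0 (mu (j + 1)))
        (fun n => congrFun (show pw (pw mu0 _) _ = pw mu0 _ by rw [pw_t0, pw_t0, mu]) n) n
        (fun k _ => ih k) (fun k _ => yt_mem j k) ih')
      have h2 : pw (tt mu0 (mu j)) (yt j) n ∈ mq.range :=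
        sum_mem fun p _ => mul_mem (ih _) (pow_mem (yt_mem _ _) _)
      simpa using sub_mem h2 this

theorem tt_mem (j k n : ℕ) : tt (mu j) (mu k) n ∈ mq.range := by
  induction n using Nat.strong_induction_on with
  | _ n ih =>
    have := stp0.I_le _ (stp0.coprod (tt mu0 (mu j)) (tt (mu j) (mu k)) (tt mu0 (mu k))
      (fun n => by
        change pw (pw mu0 _) _ n = pw mu0 _ n
        rw [pw_t0, pw_t0, tt_spec (mu_zero j) (mu_zero k)]) n
      (fun l _ => t0_mem j l) ih (fun l _ => t0_mem k l))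
    cases n with
    | zero => rw [tt]; exact one_mem _
    | succ n =>
      rw [pw_succ, tt, one_mul] at this
      have h2 : ∑ i ∈ range (n + 1), tt mu0 (mu j) (i + 1) * tt (mu j) (mu k) (n - i) ^ 2 ^ (i + 1)
          ∈ mq.range := sum_mem fun i _ => mul_mem (t0_mem _ _) (pow_mem (ih _ (by omega)) _)
      have h3 := sub_mem (add_mem this (t0_mem k (n + 1))) h2
      rwa [sub_add_cancel, add_sub_cancel_right] at h3

theorem vv_mem {T : Type} [CommRing T] (π : PZ →+* T) (h2 : π 2 = 0)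
    (hv : ∀ n, π (X (0, n)) = 0) (j n : ℕ) : ∃ y, π y = 0 ∧ ev y = vv (mm j) n := by
  cases n with
  | zero => exact ⟨2, h2, by rw [vv, map_ofNat]⟩
  | succ n =>
    obtain ⟨y, hy, e⟩ := (stp π h2 hv).rightUnit (tt mu0 (mu j)) (by rw [tt]) (t0_mem j) (n + 1)
    refine ⟨y, hy, lam_inj ?_⟩
    change mq y = ww (pw mu0 _) _ at e
    rw [lam_ev, e, pw_t0, ww, if_neg (by omega), map_vv, lam_mm]

theorem tt02 {T : Type} [CommRing T] (π : PZ →+* T) (h2 : π 2 = 0)
    (hv : ∀ n, π (X (0, n)) = 0) (n : ℕ) :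
    ∃ y, π y = π (pw (yt 0) (yt 1) n) ∧ ev y = tt (mm 0) (mm 2) n := by
  obtain ⟨y, hy, e⟩ := (stp π h2 hv).coprod (yt 0) (yt 1) (tt mu0 (mu 2))
    (fun n => by
      change _ = pw mu0 _ n
      rw [pw_t0]; rfl) n (fun l _ => yt_mem 0 l) (fun l _ => yt_mem 1 l) fun l _ => t0_mem 2 l
  refine ⟨pw (yt 0) (yt 1) n - y, by rw [map_sub, show π y = 0 from hy, sub_zero], lam_inj ?_⟩
  have e' : ∀ l, (fun i => mq (yt l i)) = yt l := fun l => funext fun i => by
    cases i with
    | zero => exact map_one mq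
    | succ i => exact mq_X _
  change mq y = _ at e
  rw [lam_ev, map_sub, e, map_pw, e', e', map_tt, lam_mm, lam_mm, sub_sub_cancel, mu]

theorem exists_ev {s : ℕ} {x : Amb} (hx : x ∈ A s) : ∃ y, ev y = x := by
  have : A s ≤ ev.range := by
    refine Algebra.adjoin_le ?_
    rintro x (⟨j, n, -, rfl⟩ | ⟨j, k, n, -, -, rfl⟩)
    · obtain ⟨y, -, e⟩ := vv_mem triv rfl (fun _ => rfl) j n
      exact ⟨y, e⟩
    · obtain ⟨y, e⟩ := tt_mem j k n
      exact ⟨y, lam_inj (by rw [AlgHom.toRingHom_eq_coe, RingHom.coe_coe, lam_ev, e, map_tt,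
        lam_mm, lam_mm])⟩
  exact this hx

theorem ev_X_zero (n : ℕ) : ev (X (0, n)) = vv (mm 0) (n + 1) := aeval_X _ _

theorem ev_X_succ (l n : ℕ) : ev (X (l + 1, n)) = tt (mm l) (mm (l + 1)) (n + 1) := aeval_X _ _

theorem vv_mem_A {j s : ℕ} (h : j ≤ s) (n : ℕ) : vv (mm j) n ∈ A s :=
  Algebra.subset_adjoin (Or.inl ⟨j, n, h, rfl⟩)

theorem tt_mem_A {j k s : ℕ} (h : j ≤ k) (h' : k ≤ s) (n : ℕ) : tt (mm j) (mm k) n ∈ A s :=
  Algebra.subset_adjoin (Or.inr ⟨j, k, n, h, h', rfl⟩)

theorem ev_mem (y : PZ) : ∃ s, ev y ∈ A s := by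
  induction y using MvPolynomial.induction_on with
  | C r => exact ⟨0, by rw [algHom_C]; exact Subalgebra.algebraMap_mem _ r⟩
  | add x y hx hy =>
    obtain ⟨s, hs⟩ := hx
    obtain ⟨t, ht⟩ := hy
    exact ⟨s + t, by
      rw [map_add]; exact add_mem (A_mono (by omega) hs) (A_mono (by omega) ht)⟩
  | mul_X x p hx =>
    obtain ⟨s, hs⟩ := hx
    refine ⟨s + p.1, ?_⟩
    rw [map_mul]
    refine mul_mem (A_mono (by omega) hs) ?_
    rcases p with ⟨_ | l, n⟩
    · rw [ev_X_zero]; exact vv_mem_A (by omega) _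
    · rw [ev_X_succ]; exact tt_mem_A (by omega) (by omega) _

/-- The map of integral polynomial rings induced by a monotone map of smash factors. -/
def renY (f : ℕ → ℕ) : PZ →ₐ[ℤ_[2]] PZ := aeval fun p => crd (ren f (ev (X p)))

theorem ev_crd {s : ℕ} {x : Amb} (hx : x ∈ A s) : ev (crd x) = x := by
  obtain ⟨y, rfl⟩ := exists_ev hx
  rw [crd_ev]

theorem ev_renY {f : ℕ → ℕ} (hf : Monotone f) (y : PZ) : ev (renY f y) = ren f (ev y) := by
  induction y using MvPolynomial.induction_on with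
  | C r =>
    rw [algHom_C, AlgHom.commutes, algHom_C, IsScalarTower.algebraMap_apply ℤ_[2] ℚ_[2] Amb,
      AlgHom.commutes]
  | add x y hx hy => simp only [map_add, hx, hy]
  | mul_X x p hx =>
    obtain ⟨s, hs⟩ := ev_mem (X p)
    rw [map_mul, map_mul, map_mul, map_mul, hx, renY, aeval_X, ev_crd (ren_mem hf le_rfl hs)]

theorem crd_ren {f : ℕ → ℕ} (hf : Monotone f) (y : PZ) : crd (ren f (ev y)) = renY f y := by
  rw [← ev_renY hf, crd_ev]

end

end Pool.Agent.Tel
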