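import Pool.Agent.Lib.MP_3a30fb_gt.Pre

/-!
Composition, homotopy, homotopy equivalence and the Bousfield localisation of cell modules.
-/

namespace Pool.Agent.Tel

open Finsupp

noncomputable section

variable {ι κ μ : Type}

theorem dM_map {D : ι → ι →₀ C} {D' : κ → κ →₀ C} {f : ι → κ →₀ C}
    (e : ∀ i, dM D' (f i) = lc f (D i)) (x : ι →₀ C) : dM D' (lc f x) = lc f (dM D x) := by
  induction x using Finsupp.induction_linear with
  | zero => simp
  | add x y hx hy => simp only [map_add, hx, hy]
  | single i c => simp only [linearCombination_single, dM_smul, dM_single, map_add, map_smul, e]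

theorem lc_lc (g : κ → μ →₀ C) (f : ι → κ →₀ C) (x : ι →₀ C) :
    lc g (lc f x) = lc (fun i => lc g (f i)) x := by
  induction x using Finsupp.induction_linear with
  | zero => simp
  | add x y hx hy => simp only [map_add, hx, hy]
  | single i c => simp only [linearCombination_single, map_smul]

theorem lc_id (x : ι →₀ C) : lc (fun i => single i 1) x = x := by
  induction x using Finsupp.induction_linear with
  | zero => simp
  | add x y hx hy => simp only [map_add, hx, hy]
  | single i c => simp

/-- The identity map. -/
def Map.id (M : Cell ι) : Map M M where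
  f i := single i 1
  hom i j := by
    by_cases e : j = i
    · rw [e, single_eq_same, sub_self]; exact Hom_one
    · rw [single_eq_of_ne e]; exact Hom_zero _
  comm i := by rw [dM_single, dC_one, single_zero, zero_add, map_one, one_smul, lc_id]

/-- The composite `g ∘ f`. -/
def Map.comp {M : Cell ι} {N : Cell κ} {P : Cell μ} (g : Map N P) (f : Map M N) : Map M P where
  f i := lc g.f (f.f i)
  hom i j := Hom_congr (lc_hom (q := 0) (f.hom i)
    (fun a b => Hom_congr (g.hom a b) (add_zero _).symm) j) (add_zero _)
  comm i := by rw [dM_map g.comm, f.comm, lc_lc]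

/-- The maps are homotopic: `f - g = d h + h d` with `h` of bidegree `(1, 0)`. -/
def Map.Htp {M : Cell ι} {N : Cell κ} (f g : Map M N) : Prop :=
  ∃ h : ι → κ →₀ C, (∀ i j, h i j ∈ Hom (M.deg i - N.deg j + (1, 0))) ∧
    ∀ i, f.f i - g.f i = dM N.D (h i) + lc h (eM (M.D i))

/-- The map is an isomorphism in the homotopy category. -/
def Map.IsEquiv {M : Cell ι} {N : Cell κ} (f : Map M N) : Prop :=
  ∃ g : Map N M, (g.comp f).Htp (Map.id M) ∧ (f.comp g).Htp (Map.id N)

/-- `η : M → Z` is the Bousfield localisation `M → L_mn M`. -/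
def IsLoc (m : ℕ) (n : ℤ) {M : Cell ι} {Z : Cell κ} (η : Map M Z) : Prop :=
  Local m n Z ∧ Acyc m n η.cone

end

end Pool.Agent.Tel
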