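import Pool.Agent.Lib.MP_3a30fb_gt.Bous

/-!
The natural map from the finite localisation to the Bousfield localisation.
-/

namespace Pool.Agent.Tel

open Finsupp

noncomputable section

variable {ι κ μ : Type} {S S' : Type} [CommRing S] [CommRing S']

theorem exOn_prod (ψ : C →+* S) (ψ' : C →+* S') (D : ι → ι →₀ C) :
    ExOn (ψ.prod ψ') D Set.univ ↔ ExOn ψ D Set.univ ∧ ExOn ψ' D Set.univ := by
  have ext : ∀ x y : ι →₀ S × S', rm (RingHom.fst S S') x = rm (RingHom.fst S S') y →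
      rm (RingHom.snd S S') x = rm (RingHom.snd S S') y → x = y := fun x y h h' =>
    Finsupp.ext fun i => Prod.ext (DFunLike.congr_fun h i) (DFunLike.congr_fun h' i)
  have sur : ∀ (x : ι →₀ S) (y : ι →₀ S'), ∃ z, rm (RingHom.fst S S') z = x ∧
      rm (RingHom.snd S S') z = y := fun x y =>
    ⟨zipWith Prod.mk rfl x y, Finsupp.ext fun _ => rfl, Finsupp.ext fun _ => rfl⟩
  have b1 : ∀ x, rm (RingHom.fst S S') (bl (ψ.prod ψ') D x) = bl ψ D (rm (RingHom.fst S S') x) :=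
    fun x => rm_bl _ _ _ _
  have b2 : ∀ x, rm (RingHom.snd S S') (bl (ψ.prod ψ') D x) = bl ψ' D (rm (RingHom.snd S S') x) :=
    fun x => rm_bl _ _ _ _
  refine ⟨fun h => ⟨fun x _ hx => ?_, fun x _ hx => ?_⟩, fun h x _ hx => ?_⟩
  · obtain ⟨z, e, e'⟩ := sur x 0
    obtain ⟨y, -, hy⟩ := h z (by simp)
      (ext _ _ (by rw [b1, e, hx, map_zero]) (by rw [b2, e', map_zero, map_zero]))
    exact ⟨rm (RingHom.fst S S') y, by simp, by rw [← b1, hy, e]⟩
  · obtain ⟨z, e, e'⟩ := sur 0 x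
    obtain ⟨y, -, hy⟩ := h z (by simp)
      (ext _ _ (by rw [b1, e, map_zero, map_zero]) (by rw [b2, e', hx, map_zero]))
    exact ⟨rm (RingHom.snd S S') y, by simp, by rw [← b2, hy, e']⟩
  · obtain ⟨y, -, hy⟩ := h.1 (rm (RingHom.fst S S') x) (by simp) (by rw [← b1, hx, map_zero])
    obtain ⟨y', -, hy'⟩ := h.2 (rm (RingHom.snd S S') x) (by simp) (by rw [← b2, hx, map_zero])
    obtain ⟨z, e, e'⟩ := sur y y'
    exact ⟨z, by simp, ext _ _ (by rw [b1, e, hy]) (by rw [b2, e', hy'])⟩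

theorem IsAug.prod {ψ : C →+* S} {ψ' : C →+* S'} (h : IsAug ψ) (h' : IsAug ψ') :
    IsAug (ψ.prod ψ') :=
  ⟨fun x => Prod.ext (h.d x) (h'.d x), fun x => Prod.ext (h.e x) (h'.e x)⟩

theorem exists_isLoc [Nonempty ι] (V : Cell ι) :
    ∃ (κ : Type) (Z : Cell κ) (η : Map V Z), IsLoc 3 0 η := by
  have e : ∀ {μ : Type} (M : Cell μ), Acyc 3 0 M ↔ ExOn (psi0.prod (ψh.prod
      (((rr 0).comp ψR).prod ((rr 1).comp ψR)))) M.D Set.univ := fun M => by
    rw [acyc_iff, exOn_prod, exOn_prod, exOn_prod, Fin.forall_fin_two]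
  obtain ⟨κ, Z, η, h1, h2⟩ := exists_bous
    (psi0_aug.prod (ψh_aug.prod ((ψR_aug.comp (rr 0)).prod (ψR_aug.comp (rr 1))))) V
  exact ⟨κ, Z, η, fun μ W hW => h1 μ W ((e W).mp hW), (e _).mpr h2⟩

theorem local_of_equiv {m : ℕ} {n : ℤ} {Z : Cell ι} {Z' : Cell κ} {φ : Map Z Z'} (h : φ.IsEquiv)
    (hZ : Local m n Z') : Local m n Z := by
  intro μ W hW f
  obtain ⟨g, ⟨H, hH, eH⟩, -⟩ := h
  obtain ⟨k, hk, ek⟩ := hZ μ W hW (φ.comp f)
  refine ⟨fun i => lc g.f (k i) - lc H (eM (f.f i)), fun i j => Hom_sub ?_ ?_, fun i => ?_⟩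
  · exact Hom_congr (lc_hom (p := W.deg i + (1, 0)) (q := 0) (g := Z'.deg) (g' := Z.deg)
      (fun a => Hom_congr (hk i a) (by abel))
      (fun a b => Hom_congr (g.hom a b) (add_zero _).symm) j) (by abel)
  · exact lc_hom (g := Z.deg) (fun a => Hom_eC (f.hom i a)) hH j
  · have e1 : lc φ.f (f.f i) = dM Z'.D (k i) + lc k (eM (W.D i)) := ek i
    have e2 : ∀ x, lc (fun i => (g.comp φ).f i - (Map.id Z).f i) x = lc g.f (lc φ.f x) - x :=
      fun x => by rw [lc_sub, lc_lc]; exact congrArg _ (lc_id x)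
    rw [map_sub, dM_lc eH, e2, e1, dM_map g.comm, lc_sub, ← lc_lc, f.comm, eM_lc, ← lc_lc,
      map_add]
    abel

theorem dM_susp (M : Cell ι) (x : ι →₀ C) : dM M.susp.D (eM x) = - eM (dM M.D x) := by
  induction x using Finsupp.induction_linear with
  | zero => simp
  | add x y hx hy => simp only [map_add, hx, hy, neg_add]
  | single i c =>
    simp only [dM_single, eM_single, dC_eC, eC_eC, map_add, eM_smul, single_neg, smul_neg,
      neg_add, susp_D]

theorem eM_inj {x y : ι →₀ C} (h : eM x = eM y) : x = y := by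
  rw [← eM_eM x, h, eM_eM]

theorem lc_neg (f : ι → κ →₀ C) (x : ι →₀ C) : lc (fun i => - f i) x = - lc f x := by
  induction x using Finsupp.induction_linear with
  | zero => simp
  | add x y hx hy => simp only [map_add, hx, hy, neg_add]
  | single i c => simp only [linearCombination_single, smul_neg]

theorem susp_finLocal {Z : Cell κ} (hZ : Local 3 0 Z) : FinLocal 3 0 Z.susp := by
  intro k F hF f
  let F' : Cell (Fin k) := ⟨fun i => F.deg i - (1, 0), F.susp.D,
    fun i j => Hom_congr (F.susp.hom i j) (by simp only [Cell.susp]; abel), F.susp.wf, F.susp.sq⟩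
  obtain ⟨h, hh, e⟩ := hZ _ F' ((acyc_iff F').mpr ((acyc_iff F.susp).mp (susp_acyc hF)))
    ⟨fun a => eM (f.f a), fun a j => Hom_congr (Hom_eC (f.hom a j))
      (by simp only [Cell.susp, F']; abel), fun a => by
      have := dM_susp Z (eM (f.f a))
      rw [eM_eM, f.comm] at this
      refine eM_inj (neg_injective (this.symm.trans ?_))
      change _ = - eM (lc _ (- eM (F.D a)))
      rw [map_neg, ← eM_lc, map_neg, eM_eM, neg_neg]⟩
  refine ⟨fun a => - eM (h a), fun a j => Hom_congr (Hom_neg (Hom_eC (hh a j)))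
    (by simp only [Cell.susp, F']; abel), fun a => ?_⟩
  have e1 : eM (f.f a) = dM Z.D (h a) + lc h (eM (- eM (F.D a))) := e a
  rw [map_neg, dM_susp, neg_neg, lc_neg, ← eM_lc, ← map_neg, ← map_add, ← eM_eM (f.f a), e1,
    map_neg, eM_eM, map_neg]

theorem exists_nat {V : Cell μ} {Z : Cell ι} {Z' : Cell κ} {η : Map V Z} (η' : Map V Z')
    (h : FinAcyc 3 0 η.cone) (h' : Local 3 0 Z') : ∃ φ : Map Z Z', (φ.comp η).Htp η' := by
  have z : ∀ x : ι →₀ C, lc (fun _ : ι => (0 : κ →₀ C)) x = 0 := fun x =>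
    DFunLike.congr_fun (linearCombination_zero _ _ _) x
  obtain ⟨k, hk, e⟩ := h _ _ (susp_finLocal h') ⟨Sum.elim 0 fun i => eM (η'.f i), by
      rintro (a | a) j
      · exact Hom_zero _
      · exact Hom_congr (Hom_eC (η'.hom a j))
          (by simp only [Cell.susp, Map.cone, Sum.elim_inr]; abel), by
      rintro (a | a)
      · rw [cone_D, coneD, lc_mapDomain]
        exact (map_zero _).trans (z _).symm
      · rw [cone_D, coneD, map_sub, lc_mapDomain, lc_mapDomain]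
        simp only [Sum.elim_inl, Sum.elim_inr, Pi.zero_apply]
        rw [z, dM_susp, η'.comm, eM_lc, zero_sub]⟩
  refine ⟨⟨fun a => eM (k (.inl a)), fun a j => Hom_congr (Hom_eC (hk (.inl a) j))
    (by simp only [Cell.susp, Map.cone, Sum.elim_inl]; abel), fun a => ?_⟩,
    fun a => eM (k (.inr a)), fun a j => Hom_congr (Hom_eC (hk (.inr a) j))
    (by simp only [Cell.susp, Map.cone, Sum.elim_inr]; abel), fun a => ?_⟩
  · have e1 : (0 : κ →₀ C) = _ := e (.inl a)
    rw [cone_D, coneD, eM_mapDomain, lc_mapDomain, ← eM_eM (k _), dM_susp] at e1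
    refine eM_inj ((neg_add_eq_zero.mp e1.symm).trans ?_)
    rw [eM_lc]
    simp only [eM_eM]
  · have e1 : eM (η'.f a) = _ := e (.inr a)
    rw [cone_D, coneD, map_sub, eM_mapDomain, eM_mapDomain, eM_eM, map_sub, lc_mapDomain,
      lc_mapDomain, ← eM_eM (k (.inr a)), dM_susp] at e1
    change lc (fun a => eM (k (.inl a))) (η.f a) - _ = _
    refine eM_inj ?_
    rw [map_sub, map_add, e1, eM_lc, eM_lc]
    simp only [eM_eM]
    abel

theorem final : (∃ (κ κ' : Type) (Z : Cell κ) (Z' : Cell κ') (η : Map unit Z) (η' : Map unit Z')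
      (φ : Map Z Z'), IsFinLoc 3 0 η ∧ IsLoc 3 0 η' ∧ (φ.comp η).Htp η') ∧
    ∀ (κ κ' : Type) (Z : Cell κ) (Z' : Cell κ') (η : Map unit Z) (η' : Map unit Z')
      (φ : Map Z Z'), IsFinLoc 3 0 η → IsLoc 3 0 η' → (φ.comp η).Htp η' → ¬ φ.IsEquiv := by
  constructor
  · obtain ⟨κ, Z, η, h⟩ := main.1
    obtain ⟨κ', Z', η', h'⟩ := exists_isLoc unit
    obtain ⟨φ, e⟩ := exists_nat η' h.2 h'.1
    exact ⟨κ, κ', Z, Z', η, η', φ, h, h', e⟩
  · intro κ κ' Z Z' η η' φ h h' _ e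
    exact main.2 κ Z η h (local_of_equiv e h'.1)

end

end Pool.Agent.Tel
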