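import Pool.Agent.Lib.MP_3a30fb_gt.Psi

/-!
The differential ideals `(2)` and `(2, v_1)` of the cobar algebra.
-/

namespace Pool.Agent.Tel

open MvPolynomial DirectSum

noncomputable section

/-- Two-sided ideals closed under the differential and the sign. -/
structure DId where
  J : AddSubgroup C
  mul_left : ∀ c x, x ∈ J → c * x ∈ J
  mul_right : ∀ c x, x ∈ J → x * c ∈ J
  d : ∀ x ∈ J, dC x ∈ J
  e : ∀ x ∈ J, eC x ∈ J

/-- `J = J' + (v)` with `v` a central regular cycle modulo `J'`. -/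
structure Reg (J' J : DId) (v : C) (q : ℤ × ℤ) : Prop where
  hom : v ∈ Hom q
  ev : eC v = v
  dv : dC v ∈ J'.J
  comm : ∀ x, v * x - x * v ∈ J'.J
  reg : ∀ x, v * x ∈ J'.J → x ∈ J'.J
  div : ∀ p x, x ∈ J.J → x ∈ Hom p → ∃ y ∈ Hom (p - q), x - v * y ∈ J'.J

theorem mm_hom (j n : ℕ) : (mm j n).IsWeightedHomogeneous wt (2 ^ n - 1) := by
  cases n with
  | zero => simpa [mm] using isWeightedHomogeneous_one _ _
  | succ n => exact isWeightedHomogeneous_X _ wt (j, n)

theorem two_hom : (2 : Amb).IsWeightedHomogeneous wt 0 := by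
  rw [← map_ofNat (MvPolynomial.C : ℚ_[2] →+* Amb) 2]; exact isWeightedHomogeneous_C _ _

theorem term_hom {j n i : ℕ} (h : i ≤ n) {x : Amb}
    (hx : x.IsWeightedHomogeneous wt (2 ^ (n - i) - 1)) :
    (mm j (i + 1) * x ^ 2 ^ (i + 1)).IsWeightedHomogeneous wt (2 ^ (n + 1) - 1) := by
  convert (mm_hom j (i + 1)).mul (hx.pow (2 ^ (i + 1))) using 1
  obtain ⟨k, rfl⟩ := Nat.exists_eq_add_of_le h
  simp only [Nat.add_sub_cancel_left, nsmul_eq_mul]
  push_cast
  ring

theorem vv_hom (j n : ℕ) : (vv (mm j) n).IsWeightedHomogeneous wt (2 ^ n - 1) := by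
  induction n using Nat.strong_induction_on with
  | _ n ih =>
    cases n with
    | zero => rw [vv]; simpa using two_hom
    | succ n =>
      rw [vv]
      refine IsWeightedHomogeneous.sub (by simpa using two_hom.mul (mm_hom j (n + 1))) ?_
      exact IsWeightedHomogeneous.sum _ _ _ fun i _ => term_hom i.2.le (ih _ (by omega))

theorem tt_hom (j k n : ℕ) : (tt (mm j) (mm k) n).IsWeightedHomogeneous wt (2 ^ n - 1) := by
  induction n using Nat.strong_induction_on with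
  | _ n ih =>
    cases n with
    | zero => rw [tt]; simpa using isWeightedHomogeneous_one _ _
    | succ n =>
      rw [tt]
      refine IsWeightedHomogeneous.sub (mm_hom k (n + 1)) ?_
      exact IsWeightedHomogeneous.sum _ _ _ fun i _ => term_hom (by omega) (ih _ (by omega))

theorem comp_mem {s : ℕ} {x : Amb} (hx : x ∈ A s) (w : ℤ) :
    weightedHomogeneousComponent wt w x ∈ A s := by
  have hx' : x ∈ Subalgebra.toSubmodule (A s) := hx
  rw [A, Algebra.adjoin_eq_span] at hx'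
  clear hx
  induction hx' using Submodule.span_induction with
  | zero => simp
  | add x y _ _ hx hy => rw [map_add]; exact add_mem hx hy
  | smul c x _ hx => rw [LinearMap.map_smul_of_tower]; exact Subalgebra.smul_mem _ hx c
  | mem x hx =>
    have : x ∈ A s ∧ ∃ u, x.IsWeightedHomogeneous wt u := by
      induction hx using Submonoid.closure_induction with
      | mem x hx =>
        refine ⟨Algebra.subset_adjoin hx, ?_⟩
        rcases hx with ⟨j, n, -, rfl⟩ | ⟨j, k, n, -, -, rfl⟩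
        · exact ⟨_, vv_hom j n⟩
        · exact ⟨_, tt_hom j k n⟩
      | one => exact ⟨one_mem _, _, isWeightedHomogeneous_one _ _⟩
      | mul x y _ _ hx hy =>
        obtain ⟨hx, u, hu⟩ := hx
        obtain ⟨hy, u', hu'⟩ := hy
        exact ⟨mul_mem hx hy, _, hu.mul hu'⟩
    obtain ⟨h, u, hu⟩ := this
    rw [weightedHomogeneousComponent_of_mem hu]
    split_ifs
    exacts [h, zero_mem _]

theorem comp_mul {h : Amb} {u : ℤ} (hh : h.IsWeightedHomogeneous wt u) (w : ℤ) (z : Amb) :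
    weightedHomogeneousComponent wt w (h * z) =
      h * weightedHomogeneousComponent wt (w - u) z := by
  induction z using MvPolynomial.induction_on' with
  | add p q hp hq => simp only [mul_add, map_add, hp, hq]
  | monomial d c =>
    have hm := isWeightedHomogeneous_monomial wt d c rfl
    rw [weightedHomogeneousComponent_of_mem (hh.mul hm), weightedHomogeneousComponent_of_mem hm]
    split_ifs <;> first | rfl | omega | simp

theorem amb_reg {x : Amb} (hx : 2 * x = 0) : x = 0 := stp0.reg x hx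

theorem half_mem {s : ℕ} {y : PZ} (h : 2 * ev y ∈ A s) : ev y ∈ A s := by
  obtain ⟨t, ht⟩ := ev_mem y
  have e : ren (min · s) (ev y) = ev y := by
    rw [← sub_eq_zero]; apply amb_reg
    rw [mul_sub, ← map_ofNat (ren (min · s)) 2, ← map_mul, ren_min h, map_ofNat, sub_self]
  rw [← e]
  exact ren_mem (mono_min s) (min_le_right _ _) ht

/-- The class `v_1`. -/
def v1 : C := ofC 0 ⟨vv (mm 0) 1, vv_mem_A le_rfl 1⟩

theorem v1_mul_of {s : ℕ} (a : Cs s) : v1 * ofC s a =
    ofC s ⟨vv (mm 0) 1 * a.1, (A s).mul_mem (vv_mem_A (Nat.zero_le s) 1) a.2⟩ := by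
  rw [v1, of_mul]
  exact of_congr (zero_add s) (by rw [cup_val]; exact congrArg _ (ren_id _))

theorem v1_mul_apply (x : C) (s : ℕ) : (cmp s (v1 * x)).1 = vv (mm 0) 1 * (cmp s x).1 := by
  induction x using C.induction_on with
  | zero => simp
  | add x y hx hy => simp only [mul_add, map_add, Cs.val_add, hx, hy]
  | of t a =>
    rw [v1_mul_of]
    by_cases h : s = t
    · subst h; rw [cmp_same, cmp_same]
    · rw [cmp_ne _ h, cmp_ne _ h]; simp

theorem two_mul_apply (x : C) (s : ℕ) : (cmp s (2 * x)).1 = 2 * (cmp s x).1 := by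
  rw [two_mul, two_mul, map_add]; rfl

theorem two_comm (x : C) : 2 * x = x * 2 := by rw [two_mul, mul_two]

def J0 : DId where
  J := ⊥
  mul_left c x h := by rw [AddSubgroup.mem_bot.mp h, mul_zero]; exact zero_mem _
  mul_right c x h := by rw [AddSubgroup.mem_bot.mp h, zero_mul]; exact zero_mem _
  d x h := by rw [AddSubgroup.mem_bot.mp h, map_zero]; exact zero_mem _
  e x h := by rw [AddSubgroup.mem_bot.mp h, map_zero]; exact zero_mem _

def J1 : DId where
  J := (AddMonoidHom.mulLeft (2 : C)).range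
  mul_left := by rintro c _ ⟨y, rfl⟩; exact ⟨c * y, by simp [two_mul, mul_add]⟩
  mul_right := by rintro c _ ⟨y, rfl⟩; exact ⟨y * c, by simp [mul_assoc]⟩
  d := by rintro _ ⟨y, rfl⟩; exact ⟨dC y, by simp [two_mul]⟩
  e := by rintro _ ⟨y, rfl⟩; exact ⟨eC y, by simp [two_mul]⟩

theorem mem_J1 {x : C} : x ∈ J1.J ↔ ∃ y, 2 * y = x := Iff.rfl

theorem of_mem_J1 {s : ℕ} {a : Cs s} {b : Amb} (hb : b ∈ A s) (h : a.1 = 2 * b) :
    ofC s a ∈ J1.J :=
  mem_J1.mpr ⟨ofC s ⟨b, hb⟩, by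
    rw [two_mul, ← map_add]; exact of_congr rfl (by rw [h, two_mul]; rfl)⟩

theorem reg1 : Reg J0 J1 2 (0, 0) where
  hom := by simpa using Hom_intCast 2
  ev := map_ofNat eC 2
  dv := AddSubgroup.mem_bot.mpr (by simpa using dC_intCast 2)
  comm x := by rw [two_comm, sub_self]; exact zero_mem _
  reg x h := C.ext fun s => Cs.ext <| amb_reg <| by
    rw [← two_mul_apply, AddSubgroup.mem_bot.mp h]; rfl
  div p x hx hp := by
    obtain ⟨y, rfl⟩ := mem_J1.mp hx
    refine ⟨y, fun s => ⟨?_, fun h => ?_⟩, by rw [sub_self]; exact zero_mem _⟩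
    · have := (hp s).1.C_mul (1 / 2)
      rw [two_mul_apply, ← mul_assoc, mul_comm _ 2, two_half, one_mul] at this
      simpa using this
    · have := (hp s).2 fun h' => h <| Cs.ext <| amb_reg <| by
        rw [← two_mul_apply, h']; rfl
      simpa using this

theorem vv_one {R : Type} [CommRing R] (m : ℕ → R) : vv m 1 = 2 * m 1 := by rw [vv]; simp

theorem tt_one {R : Type} [CommRing R] (m m' : ℕ → R) : tt m m' 1 = m' 1 - m 1 := by
  rw [tt]; simp [tt]

theorem tt_two {R : Type} [CommRing R] (m m' : ℕ → R) :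
    tt m m' 2 = m' 2 - m 2 - m 1 * (m' 1 - m 1) ^ 2 := by
  rw [tt]; simp [tt_one, tt]; ring

theorem v1_comm (x : C) : v1 * x - x * v1 ∈ J1.J := by
  induction x using C.induction_on with
  | zero => simp
  | add x y hx hy => convert add_mem hx hy using 1; noncomm_ring
  | of s a =>
    rw [v1_mul_of, v1, of_mul]
    change _ - ofC s _ ∈ _
    rw [← map_sub]
    refine of_mem_J1 (b := -(a.1 * tt (mm 0) (mm s) 1))
      ((A s).neg_mem ((A s).mul_mem a.2 (tt_mem_A (Nat.zero_le s) le_rfl 1))) ?_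
    simp only [Cs.val_sub, cup_val, map_vv, ren_mm]
    simp only [vv_one, tt_one, zero_add]
    ring

theorem eC_v1 : eC v1 = v1 := by rw [v1, eC_of]; simp

theorem dC_v1 : dC v1 ∈ J1.J := by
  rw [v1, dC_of]
  refine of_mem_J1 (b := tt (mm 0) (mm 1) 1) (tt_mem_A (by omega) le_rfl 1) ?_
  simp only [cob_val, alt, Finset.sum_range_succ, face, map_vv, ren_mm]
  simp [vv_one, tt_one]; ring

def J2 : DId where
  J := J1.J ⊔ (AddMonoidHom.mulLeft v1).range
  mul_left c x h := by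
    obtain ⟨y, hy, _, ⟨z, rfl⟩, rfl⟩ := AddSubgroup.mem_sup.mp h
    refine AddSubgroup.mem_sup.mpr ⟨c * y - (v1 * c - c * v1) * z,
      sub_mem (J1.mul_left _ _ hy) (J1.mul_right _ _ (v1_comm c)), _, ⟨c * z, rfl⟩, ?_⟩
    simp only [AddMonoidHom.coe_mulLeft]; noncomm_ring
  mul_right c x h := by
    obtain ⟨y, hy, _, ⟨z, rfl⟩, rfl⟩ := AddSubgroup.mem_sup.mp h
    refine AddSubgroup.mem_sup.mpr ⟨y * c, J1.mul_right _ _ hy, _, ⟨z * c, rfl⟩, ?_⟩
    simp only [AddMonoidHom.coe_mulLeft]; noncomm_ring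
  d x h := by
    obtain ⟨y, hy, _, ⟨z, rfl⟩, rfl⟩ := AddSubgroup.mem_sup.mp h
    refine AddSubgroup.mem_sup.mpr ⟨dC y + dC v1 * z,
      add_mem (J1.d _ hy) (J1.mul_right _ _ dC_v1), _, ⟨dC z, rfl⟩, ?_⟩
    simp only [AddMonoidHom.coe_mulLeft, map_add, dC_mul, eC_v1, add_assoc]
  e x h := by
    obtain ⟨y, hy, _, ⟨z, rfl⟩, rfl⟩ := AddSubgroup.mem_sup.mp h
    refine AddSubgroup.mem_sup.mpr ⟨eC y, J1.e _ hy, _, ⟨eC z, rfl⟩, ?_⟩
    simp only [AddMonoidHom.coe_mulLeft, map_add, map_mul, eC_v1]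

theorem mem_J2 {x : C} : x ∈ J2.J ↔ ∃ y z, 2 * y + v1 * z = x := by
  constructor
  · intro h
    obtain ⟨_, ⟨y, rfl⟩, _, ⟨z, rfl⟩, rfl⟩ := AddSubgroup.mem_sup.mp h
    exact ⟨y, z, rfl⟩
  · rintro ⟨y, z, rfl⟩
    exact AddSubgroup.mem_sup.mpr ⟨_, ⟨y, rfl⟩, _, ⟨z, rfl⟩, rfl⟩

theorem of_mem_J2 {s : ℕ} {a : Cs s} {b c : Amb} (hb : b ∈ A s) (hc : c ∈ A s)
    (h : a.1 = 2 * b + vv (mm 0) 1 * c) : ofC s a ∈ J2.J :=
  mem_J2.mpr ⟨ofC s ⟨b, hb⟩, ofC s ⟨c, hc⟩, by
    rw [v1_mul_of, two_mul, ← map_add, ← map_add]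
    exact of_congr rfl (by rw [h, two_mul]; rfl)⟩

theorem reg2 : Reg J1 J2 v1 (2, 1) where
  hom := of_mem_Hom (by simpa using vv_hom 0 1) (by simp)
  ev := eC_v1
  dv := dC_v1
  comm := v1_comm
  reg x h := by
    classical
    obtain ⟨y, hy⟩ := mem_J1.mp h
    obtain ⟨t, -, ht⟩ := exists_sum x
    rw [← ht]
    refine sum_mem fun s _ => ?_
    obtain ⟨a, ha⟩ := exists_ev (cmp s x).2
    obtain ⟨b, hb⟩ := exists_ev (cmp s y).2
    have e : X (0, 0) * a = 2 * b := ev_inj (by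
      rw [map_mul, map_mul, map_ofNat, ev_X_zero, ha, hb, ← two_mul_apply, hy, v1_mul_apply])
    have e' := (two_dvd_iff _).mpr ⟨b, e⟩
    rw [map_mul, map_X, mul_eq_zero, or_iff_right (X_ne_zero _)] at e'
    obtain ⟨z, rfl⟩ := (two_dvd_iff _).mp e'
    rw [map_mul, map_ofNat] at ha
    exact of_mem_J1 (half_mem (ha ▸ (cmp s x).2)) ha.symm
  div p x hx hp := by
    rcases Hom_cases hp with rfl | ⟨s, a, rfl, ha, hs⟩
    · exact ⟨0, Hom_zero _, by simp⟩
    obtain ⟨y, z, e⟩ := mem_J2.mp hx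
    have e1 : a.1 = 2 * (cmp s y).1 + vv (mm 0) 1 * (cmp s z).1 := by
      rw [← two_mul_apply, ← v1_mul_apply, ← Cs.val_add, ← map_add, e,
        cmp_same]
    have e2 := congrArg (weightedHomogeneousComponent wt p.2) e1
    rw [ha.weightedHomogeneousComponent_same, map_add, comp_mul two_hom,
      comp_mul (vv_hom 0 1)] at e2
    refine ⟨ofC s ⟨_, comp_mem (cmp s z).2 (p.2 - (2 ^ 1 - 1))⟩, of_mem_Hom ?_ ?_, ?_⟩
    · simpa using weightedHomogeneousComponent_isWeightedHomogeneous _ _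
    · simp only [Prod.snd_sub, Prod.fst_sub]; omega
    · rw [v1_mul_of, ← map_sub]
      exact of_mem_J1 (comp_mem (cmp s y).2 (p.2 - 0)) (by
        simp only [Cs.val_sub]; rw [e2]; ring)

variable {S : Type} [CommRing S] [Algebra (ZMod 2) S]

theorem psi_v1 (i : ℕ) (θ : ℕ → S) : psi i θ v1 = 0 := by
  rw [v1, psi_of, red_vv, map_zero]

theorem psi_two (i : ℕ) (θ : ℕ → S) : psi i θ 2 = 0 := by
  rw [map_ofNat, two_eq_zero']

theorem psi_J2 (i : ℕ) (θ : ℕ → S) {x : C} (hx : x ∈ J2.J) : psi i θ x = 0 := by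
  obtain ⟨y, z, rfl⟩ := mem_J2.mp hx
  rw [map_add, map_mul, map_mul, psi_v1, psi_two, zero_mul, zero_mul, add_zero]

theorem psi_J1 (i : ℕ) (θ : ℕ → S) {x : C} (hx : x ∈ J1.J) : psi i θ x = 0 :=
  psi_J2 i θ (AddSubgroup.mem_sup_left hx)

end

end Pool.Agent.Tel
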