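import Pool.Agent.Lib.MP_3a30fb_gt.Cobar

/-!
Integrality of the right unit and of the coproduct, by a functional equation argument.
-/

namespace Pool.Agent.Tel

open Finset

variable {R : Type} [CommRing R]

/-- The convolution `∑ a_i b_j^(2^i)`. -/
def pw (a b : ℕ → R) (n : ℕ) : R := ∑ p ∈ antidiagonal n, a p.1 * b p.2 ^ 2 ^ p.1

theorem sum_assoc (f : ℕ → ℕ → ℕ → R) (n : ℕ) :
    ∑ p ∈ antidiagonal n, ∑ q ∈ antidiagonal p.1, f q.1 q.2 p.2 =
      ∑ p ∈ antidiagonal n, ∑ q ∈ antidiagonal p.2, f p.1 q.1 q.2 := by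
  simp only [Finset.sum_sigma']
  apply Finset.sum_nbij' (fun ⟨⟨_, j⟩, ⟨k, l⟩⟩ ↦ ⟨(k, l + j), (l, j)⟩)
    (fun ⟨⟨i, _⟩, ⟨k, l⟩⟩ ↦ ⟨(i + k, l), (i, k)⟩) <;> aesop (add simp [add_assoc])

theorem pw_succ (a b : ℕ → R) (n : ℕ) : pw a b (n + 1) =
    a 0 * b (n + 1) + ∑ i ∈ range (n + 1), a (i + 1) * b (n - i) ^ 2 ^ (i + 1) := by
  rw [pw, Nat.sum_antidiagonal_succ, Nat.sum_antidiagonal_eq_sum_range_succ_mk]
  simp

theorem pw_zero (a b : ℕ → R) : pw a b 0 = a 0 * b 0 := by simp [pw]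

theorem tt_spec {m m' : ℕ → R} (h : m 0 = 1) (h' : m' 0 = 1) (n : ℕ) :
    pw m (tt m m') n = m' n := by
  cases n with
  | zero => rw [pw_zero, h, h', tt, one_mul]
  | succ n => rw [pw_succ, h, one_mul, tt, Finset.sum_range]; ring

/-- The Hazewinkel generators with `v_0` replaced by zero. -/
noncomputable def ww (m : ℕ → R) (k : ℕ) : R := if k = 0 then 0 else vv m k

theorem vv_spec {m : ℕ → R} (h : m 0 = 1) (n : ℕ) : pw m (ww m) (n + 1) = 2 * m (n + 1) := by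
  rw [pw_succ, h, one_mul, Finset.sum_range_succ, Nat.sub_self, ww, ww, if_neg (by omega),
    if_pos rfl, zero_pow (by positivity), vv, Finset.sum_range]
  have : ∑ i : Fin n, m (i + 1) * ww m (n - i) ^ 2 ^ ((i : ℕ) + 1) =
      ∑ i : Fin n, m (i + 1) * vv m (n - i) ^ 2 ^ ((i : ℕ) + 1) :=
    Finset.sum_congr rfl fun i _ => by rw [ww, if_neg (by omega)]
  rw [this]; ring

theorem pw_cancel {m a b : ℕ → R} (h : m 0 = 1) (e : ∀ n, pw m a n = pw m b n) (n : ℕ) :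
    a n = b n := by
  induction n using Nat.strong_induction_on with
  | _ n ih =>
    cases n with
    | zero => simpa [pw_zero, h] using e 0
    | succ n =>
      have := e (n + 1)
      rw [pw_succ, pw_succ, h, one_mul, one_mul, Finset.sum_congr rfl fun i _ => by
        rw [ih (n - i) (by omega)]] at this
      exact add_right_cancel this

/-- The data of the functional equation argument. -/
structure Setup (R : Type) [CommRing R] where
  O : Subring R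
  Φ : R →+* R
  I : AddSubgroup R
  w : ℕ → R
  μ : ℕ → R
  reg : ∀ x : R, 2 * x = 0 → x = 0
  Φ_mem : ∀ x ∈ O, ∃ y ∈ O, Φ x = x ^ 2 + 2 * y
  I_le : ∀ x ∈ I, x ∈ O
  I_mul : ∀ x ∈ O, ∀ y ∈ I, x * y ∈ I
  two : (2 : R) ∈ I
  w0 : w 0 = 0
  wI : ∀ k, w k ∈ I
  Φw : ∀ k, Φ (w k) = w k ^ 2
  μ0 : μ 0 = 1
  formA : ∀ n, pw μ w (n + 1) = 2 * μ (n + 1)

namespace Setup

variable (S : Setup R)

theorem two_mem : (2 : R) ∈ S.O := S.I_le _ S.two

theorem Φ_O {x : R} (hx : x ∈ S.O) : S.Φ x ∈ S.O := by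
  obtain ⟨y, hy, e⟩ := S.Φ_mem x hx
  rw [e]; exact add_mem (pow_mem hx 2) (mul_mem S.two_mem hy)

theorem Φk_O (k : ℕ) {x : R} (hx : x ∈ S.O) : (S.Φ ^ k) x ∈ S.O := by
  induction k with
  | zero => exact hx
  | succ k ih => rw [pow_succ']; exact S.Φ_O ih

theorem Φk_w (k j : ℕ) : (S.Φ ^ k) (S.w j) = S.w j ^ 2 ^ k := by
  induction k with
  | zero => simp
  | succ k ih =>
    rw [pow_succ', RingHom.coe_mul, Function.comp, ih, map_pow, S.Φw, ← pow_mul, pow_succ']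

theorem Φk_sub (k : ℕ) {x : R} (hx : x ∈ S.O) :
    ∃ y ∈ S.O, (S.Φ ^ k) x = x ^ 2 ^ k + 2 * y := by
  induction k with
  | zero => exact ⟨0, zero_mem _, by simp⟩
  | succ k ih =>
    obtain ⟨y, hy, e⟩ := ih
    obtain ⟨z, hz, e'⟩ := S.Φ_mem _ (pow_mem hx (2 ^ k))
    refine ⟨z + S.Φ y, add_mem hz (S.Φ_O hy), ?_⟩
    rw [pow_succ', RingHom.coe_mul, Function.comp, e, map_add, map_mul, e', map_ofNat, pow_succ 2 k,
      pow_mul]
    ring

theorem Φk_pow (k c : ℕ) {x : R} (hx : x ∈ S.O) :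
    ∃ y ∈ S.O, (S.Φ ^ k) (x ^ 2 ^ c) - x ^ 2 ^ (c + k) = 2 ^ (c + 1) * y := by
  obtain ⟨y, hy, e⟩ := S.Φk_sub k hx
  have h : ((2 : ℕ) : S.O) ∣ ⟨_, S.Φk_O k hx⟩ - (⟨x, hx⟩ : S.O) ^ 2 ^ k :=
    ⟨⟨y, hy⟩, Subtype.ext (by
      change (S.Φ ^ k) x - x ^ 2 ^ k = ((2 : ℕ) : R) * y
      rw [e]; push_cast; ring)⟩
  obtain ⟨z, hz⟩ := dvd_sub_pow_of_dvd_sub h c
  refine ⟨z, z.2, ?_⟩
  have : ((S.Φ ^ k) x) ^ 2 ^ c - (x ^ 2 ^ k) ^ 2 ^ c = ((2 : ℕ) : R) ^ (c + 1) * z :=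
    congrArg Subtype.val hz
  rw [map_pow, add_comm c k, pow_add 2 k c, pow_mul, this, Nat.cast_ofNat]

theorem μ_int (c : ℕ) : 2 ^ c * S.μ c ∈ S.O := by
  induction c using Nat.strong_induction_on with
  | _ c ih =>
    cases c with
    | zero => rw [S.μ0]; simp
    | succ c =>
      rw [pow_succ, mul_assoc, ← S.formA, pw, Nat.sum_antidiagonal_succ', S.w0,
        zero_pow (by positivity), mul_zero, zero_add, Finset.mul_sum]
      refine sum_mem fun p hp => ?_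
      have hp := mem_antidiagonal.mp hp
      rw [← hp, pow_add, mul_comm (2 ^ p.1), mul_assoc, ← mul_assoc (2 ^ p.1)]
      exact mul_mem (pow_mem S.two_mem _) (mul_mem (ih _ (by omega))
        (pow_mem (S.I_le _ (S.wI _)) _))

theorem formA' (n : ℕ) : ∑ p ∈ antidiagonal n, S.μ p.1 * (S.Φ ^ p.1) (S.w p.2) =
    2 * S.μ n - if n = 0 then 2 else 0 := by
  simp only [S.Φk_w]
  cases n with
  | zero => simp [S.w0, S.μ0]
  | succ n => rw [if_neg (by omega), sub_zero]; exact S.formA n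

theorem formB (n : ℕ) : ∑ p ∈ antidiagonal n, S.w p.1 * (S.Φ ^ p.1) (S.μ p.2) =
    2 * S.μ n - if n = 0 then 2 else 0 := by
  induction n using Nat.strong_induction_on with
  | _ n ih =>
    rw [← sub_eq_zero]
    apply S.reg
    have e1 : ∑ p ∈ antidiagonal n, (2 * S.μ p.1 - if p.1 = 0 then 2 else 0) *
        (S.Φ ^ p.1) (S.w p.2) = ∑ p ∈ antidiagonal n, ∑ q ∈ antidiagonal p.1,
          S.w q.1 * (S.Φ ^ q.1) (S.μ q.2) * (S.Φ ^ (q.1 + q.2)) (S.w p.2) := by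
      refine Finset.sum_congr rfl fun p hp => ?_
      have hp := mem_antidiagonal.mp hp
      rcases Nat.eq_zero_or_pos p.2 with h | h
      · simp [h, S.w0]
      · rw [← ih p.1 (by omega), Finset.sum_mul]
        exact Finset.sum_congr rfl fun q hq => by rw [mem_antidiagonal.mp hq]
    rw [sum_assoc fun a b c => S.w a * (S.Φ ^ a) (S.μ b) * (S.Φ ^ (a + b)) (S.w c)] at e1
    have e2 : ∀ p : ℕ × ℕ, ∑ q ∈ antidiagonal p.2, S.w p.1 * (S.Φ ^ p.1) (S.μ q.1) *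
        (S.Φ ^ (p.1 + q.1)) (S.w q.2) = 2 * (S.w p.1 * (S.Φ ^ p.1) (S.μ p.2)) -
          if p.2 = 0 then 2 * S.w p.1 else 0 := by
      intro p
      have := congrArg (fun x => S.w p.1 * (S.Φ ^ p.1) x) (S.formA' p.2)
      simp only [map_sum, map_mul, Finset.mul_sum, map_sub, map_ofNat] at this
      simp only [pow_add, RingHom.coe_mul, Function.comp, mul_assoc]
      rw [this]
      split_ifs
      · rw [map_ofNat]; ring
      · rw [map_zero]; ring
    simp only [e2] at e1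
    simp only [sub_mul, mul_assoc, Finset.sum_sub_distrib, ← Finset.mul_sum, S.formA'] at e1
    have e3 : ∑ p ∈ antidiagonal n, (if p.1 = 0 then 2 else 0) * (S.Φ ^ p.1) (S.w p.2) =
        2 * S.w n := by
      rw [Finset.sum_eq_single (0, n)]
      · simp
      · intro p hp h
        have hp := mem_antidiagonal.mp hp
        rw [if_neg (fun h0 => h (Prod.ext h0 (by simp; omega))), zero_mul]
      · simp
    have e4 : ∑ p ∈ antidiagonal n, (if p.2 = 0 then 2 * S.w p.1 else 0) = 2 * S.w n := by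
      rw [Finset.sum_eq_single (n, 0)]
      · simp
      · intro p hp h
        have hp := mem_antidiagonal.mp hp
        rw [if_neg (fun h0 => h (Prod.ext (by simp; omega) h0))]
      · simp
    rw [e3, e4] at e1
    linear_combination -e1

/-- The formal sum lemma. -/
theorem formal (P : ℕ → ℕ → R) (n : ℕ)
    (hP : ∀ j < n, ∀ c k, ∃ y ∈ S.O, (S.Φ ^ k) (P j c) - P j (c + k) = 2 ^ (c + 1) * y)
    (hE : ∀ r < n, ∃ y ∈ S.O, ∑ q ∈ antidiagonal r, S.μ q.1 * P q.2 q.1 = 2 * y) :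
    ∑ q ∈ antidiagonal n, S.μ q.1 * P q.2 q.1 - P n 0 ∈ S.I := by
  have e1 : ∑ p ∈ antidiagonal n, (2 * S.μ p.1 - if p.1 = 0 then 2 else 0) * P p.2 p.1 =
      ∑ p ∈ antidiagonal n, ∑ q ∈ antidiagonal p.1,
        S.w q.1 * (S.Φ ^ q.1) (S.μ q.2) * P p.2 (q.2 + q.1) := by
    refine Finset.sum_congr rfl fun p _ => ?_
    rw [← S.formB, Finset.sum_mul]
    exact Finset.sum_congr rfl fun q hq => by rw [add_comm q.2, mem_antidiagonal.mp hq]
  rw [sum_assoc fun a b c => S.w a * (S.Φ ^ a) (S.μ b) * P c (b + a)] at e1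
  have e2 : ∀ p ∈ antidiagonal n, ∃ z ∈ S.I, ∑ q ∈ antidiagonal p.2,
      S.w p.1 * (S.Φ ^ p.1) (S.μ q.1) * P q.2 (q.1 + p.1) = 2 * z := by
    intro p hp
    have hp := mem_antidiagonal.mp hp
    rcases Nat.eq_zero_or_pos p.1 with h | h
    · exact ⟨0, zero_mem _, by simp [h, S.w0]⟩
    obtain ⟨y, hy, e⟩ := hE p.2 (by omega)
    have : ∀ q ∈ antidiagonal p.2, ∃ u ∈ S.O, (S.Φ ^ p.1) (S.μ q.1) * P q.2 (q.1 + p.1) =
        (S.Φ ^ p.1) (S.μ q.1 * P q.2 q.1) - 2 * u := by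
      intro q hq
      have hq := mem_antidiagonal.mp hq
      obtain ⟨u, hu, e⟩ := hP q.2 (by omega) q.1 p.1
      refine ⟨(S.Φ ^ p.1) (2 ^ q.1 * S.μ q.1) * u, mul_mem (S.Φk_O _ (S.μ_int _)) hu, ?_⟩
      rw [map_mul, map_mul, map_pow, map_ofNat]
      linear_combination (-(S.Φ ^ p.1) (S.μ q.1)) * e
    choose! u hu hu' using this
    refine ⟨((S.Φ ^ p.1) y - ∑ q ∈ antidiagonal p.2, u q) * S.w p.1,
      S.I_mul _ (sub_mem (S.Φk_O _ hy) (sum_mem hu)) _ (S.wI _), ?_⟩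
    simp only [mul_assoc, ← Finset.mul_sum]
    rw [Finset.sum_congr rfl hu', Finset.sum_sub_distrib, ← map_sum, e, ← Finset.mul_sum, map_mul,
      map_ofNat]
    ring
  choose! z hz hz' using e2
  have e3 : ∑ p ∈ antidiagonal n, (if p.1 = 0 then 2 else 0) * P p.2 p.1 = 2 * P n 0 := by
    rw [Finset.sum_eq_single (0, n)]
    · simp
    · intro p hp h
      have hp := mem_antidiagonal.mp hp
      rw [if_neg (fun h0 => h (Prod.ext h0 (by simp; omega))), zero_mul]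
    · simp
  rw [Finset.sum_congr rfl hz'] at e1
  simp only [sub_mul, mul_assoc, Finset.sum_sub_distrib, ← Finset.mul_sum, e3] at e1
  have : ∑ q ∈ antidiagonal n, S.μ q.1 * P q.2 q.1 - P n 0 = ∑ p ∈ antidiagonal n, z p := by
    rw [← sub_eq_zero]; apply S.reg; linear_combination e1
  rw [this]; exact sum_mem hz

theorem Φk_sum {α : Type} (t : Finset α) (x : α → R) (hx : ∀ a ∈ t, x a ∈ S.O) (c k : ℕ) :
    ∃ y ∈ S.O, (S.Φ ^ k) (∑ a ∈ t, x a ^ 2 ^ c) - ∑ a ∈ t, x a ^ 2 ^ (c + k) =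
      2 ^ (c + 1) * y := by
  choose! y hy hy' using fun a ha => S.Φk_pow k c (hx a ha)
  refine ⟨∑ a ∈ t, y a, sum_mem hy, ?_⟩
  rw [map_sum, ← Finset.sum_sub_distrib, Finset.mul_sum]
  exact Finset.sum_congr rfl hy'

theorem pw_pw (a t s : ℕ → R) (n : ℕ) : pw (pw a t) s n =
    ∑ p ∈ antidiagonal n, a p.1 * ∑ q ∈ antidiagonal p.2, (t q.1 * s q.2 ^ 2 ^ q.1) ^ 2 ^ p.1 := by
  simp only [pw, Finset.sum_mul, Finset.mul_sum]
  rw [← sum_assoc fun i j k => a i * (t j * s k ^ 2 ^ j) ^ 2 ^ i]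
  refine Finset.sum_congr rfl fun p _ => Finset.sum_congr rfl fun q hq => ?_
  rw [← mem_antidiagonal.mp hq, mul_pow, ← pow_mul, ← pow_add, add_comm q.2, mul_assoc]

/-- The coproduct formula modulo `I`. -/
theorem coprod (t s u : ℕ → R) (h : ∀ n, pw (pw S.μ t) s n = pw S.μ u n) (n : ℕ)
    (ht : ∀ j < n, t j ∈ S.O) (hs : ∀ j < n, s j ∈ S.O) (hu : ∀ j < n, u j ∈ S.O) :
    pw t s n - u n ∈ S.I := by
  have hE : ∀ r, ∑ q ∈ antidiagonal r, S.μ q.1 * (∑ p ∈ antidiagonal q.2,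
      (t p.1 * s p.2 ^ 2 ^ p.1) ^ 2 ^ q.1 - u q.2 ^ 2 ^ q.1) = 0 := by
    intro r
    simp only [mul_sub, Finset.sum_sub_distrib]
    rw [← pw_pw, h, pw, sub_self]
  have := S.formal (fun j c => ∑ p ∈ antidiagonal j, (t p.1 * s p.2 ^ 2 ^ p.1) ^ 2 ^ c -
    u j ^ 2 ^ c) n ?_ fun r _ => ⟨0, zero_mem _, by rw [hE, mul_zero]⟩
  · rw [hE, zero_sub] at this
    simpa [pw] using neg_mem this
  · intro j hj c k
    obtain ⟨y, hy, e⟩ := S.Φk_sum (antidiagonal j) (fun p => t p.1 * s p.2 ^ 2 ^ p.1)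
      (fun p hp => by
        have hp := mem_antidiagonal.mp hp
        exact mul_mem (ht _ (by omega)) (pow_mem (hs _ (by omega)) _)) c k
    obtain ⟨z, hz, e'⟩ := S.Φk_pow k c (hu j hj)
    exact ⟨y - z, sub_mem hy hz, by rw [map_sub]; linear_combination e - e'⟩

/-- The right unit on the Hazewinkel generators. -/
theorem rightUnit (t : ℕ → R) (h0 : t 0 = 1) (ht : ∀ j, t j ∈ S.O) (n : ℕ) :
    ww (pw S.μ t) n ∈ S.I := by
  have m0 : pw S.μ t 0 = 1 := by rw [pw_zero, S.μ0, h0, one_mul]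
  set v := ww (pw S.μ t) with hv
  have v0 : v 0 = 0 := if_pos rfl
  have hE : ∀ r, ∑ q ∈ antidiagonal r, S.μ q.1 * (∑ p ∈ antidiagonal q.2,
      (S.w p.1 * t p.2 ^ 2 ^ p.1) ^ 2 ^ q.1 - ∑ p ∈ antidiagonal q.2,
      (t p.1 * v p.2 ^ 2 ^ p.1) ^ 2 ^ q.1) = 2 * if r = 0 then 0 else -t r := by
    intro r
    simp only [mul_sub, Finset.sum_sub_distrib]
    rw [← pw_pw, ← pw_pw]
    cases r with
    | zero => simp [pw_zero, S.w0, v0]
    | succ r =>
      rw [vv_spec m0, pw_succ, pw_succ, pw_zero, S.w0, S.μ0, if_neg (by omega)]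
      simp only [S.formA, mul_assoc, ← Finset.mul_sum]
      ring
  induction n using Nat.strong_induction_on with
  | _ n ih =>
    have := S.formal (fun j c => ∑ p ∈ antidiagonal j, (S.w p.1 * t p.2 ^ 2 ^ p.1) ^ 2 ^ c -
      ∑ p ∈ antidiagonal j, (t p.1 * v p.2 ^ 2 ^ p.1) ^ 2 ^ c) n ?_ fun r _ =>
        ⟨_, by split_ifs; exacts [zero_mem _, neg_mem (ht r)], hE r⟩
    · rw [hE] at this
      simp only [pow_zero, pow_one] at this
      cases n with
      | zero => rw [v0]; exact zero_mem _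
      | succ n =>
        rw [if_neg (by omega), Nat.sum_antidiagonal_succ (f := fun p => t p.1 * v p.2 ^ 2 ^ p.1),
          h0, one_mul, pow_zero, pow_one] at this
        have h1 : ∑ p ∈ antidiagonal (n + 1), S.w p.1 * t p.2 ^ 2 ^ p.1 ∈ S.I :=
          sum_mem fun p _ => by
            rw [mul_comm]; exact S.I_mul _ (pow_mem (ht _) _) _ (S.wI _)
        have h2 : ∑ p ∈ antidiagonal n, t (p.1 + 1) * v p.2 ^ 2 ^ (p.1 + 1) ∈ S.I :=
          sum_mem fun p hp => by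
            have hp := mem_antidiagonal.mp hp
            have hv := ih p.2 (by omega)
            refine S.I_mul _ (ht _) _ ?_
            rw [pow_succ, pow_mul, pow_two]
            refine S.I_mul _ (pow_mem (S.I_le _ hv) _) _ ?_
            obtain ⟨k, hk⟩ : ∃ k, 2 ^ p.1 = k + 1 := ⟨2 ^ p.1 - 1, by
              have := Nat.one_le_two_pow (n := p.1); omega⟩
            rw [hk, pow_succ]
            exact S.I_mul _ (pow_mem (S.I_le _ hv) _) _ hv
        have h3 := S.I_mul _ (ht (n + 1)) _ S.two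
        have := sub_mem (add_mem (add_mem this h1) h3) h2
        convert this using 1
        ring
    · intro j hj c k
      obtain ⟨y, hy, e⟩ := S.Φk_sum (antidiagonal j) (fun p => S.w p.1 * t p.2 ^ 2 ^ p.1)
        (fun p _ => mul_mem (S.I_le _ (S.wI _)) (pow_mem (ht _) _)) c k
      obtain ⟨z, hz, e'⟩ := S.Φk_sum (antidiagonal j) (fun p => t p.1 * v p.2 ^ 2 ^ p.1)
        (fun p hp => by
          have hp := mem_antidiagonal.mp hp
          exact mul_mem (ht _) (pow_mem (S.I_le _ (ih _ (by omega))) _)) c k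
      exact ⟨y - z, sub_mem hy hz, by rw [map_sub]; linear_combination e - e'⟩

end Setup

end Pool.Agent.Tel
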