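import Mathlib

/-!
The functionals `θ ⊗ ... ⊗ θ` on polynomials in the tensor slots.
-/

namespace Pool.Agent.Tel

open MvPolynomial Finset

noncomputable section

abbrev PT := MvPolynomial ℕ (ZMod 2)

variable {S : Type} [CommRing S] [Algebra (ZMod 2) S]

open Classical in
def Lam (θ : ℕ → S) (s : ℕ) : PT →ₗ[ZMod 2] S :=
  (basisMonomials ℕ (ZMod 2)).constr (ZMod 2) fun m =>
    if ∀ l, s ≤ l → m l = 0 then ∏ l ∈ range s, θ (m l) else 0

open Classical in
theorem Lam_monomial (θ : ℕ → S) (s : ℕ) (m : ℕ →₀ ℕ) (c : ZMod 2) :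
    Lam θ s (monomial m c) =
      c • if ∀ l, s ≤ l → m l = 0 then ∏ l ∈ range s, θ (m l) else 0 := by
  have : (monomial m c : PT) = c • basisMonomials ℕ (ZMod 2) m := by
    simp [smul_monomial]
  rw [this, map_smul, Lam, Module.Basis.constr_basis]

def mon (s : ℕ) (m : ℕ → ℕ) : PT := ∏ l ∈ range s, X l ^ m l

theorem mon_eq (s : ℕ) (m : ℕ → ℕ) :
    mon s m = monomial (∑ l ∈ range s, Finsupp.single l (m l)) 1 := by
  rw [monomial_sum_one, mon]
  exact Finset.prod_congr rfl fun l _ => X_pow_eq_monomial

theorem sum_single_apply (s : ℕ) (m : ℕ → ℕ) (k : ℕ) :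
    (∑ l ∈ range s, Finsupp.single l (m l)) k = if k < s then m k else 0 := by
  simp [Finsupp.finsetSum_apply, Finsupp.single_apply]

theorem Lam_mon (θ : ℕ → S) (s : ℕ) (m : ℕ → ℕ) :
    Lam θ s (mon s m) = ∏ l ∈ range s, θ (m l) := by
  rw [mon_eq, Lam_monomial, one_smul, if_pos fun l hl => by
    rw [sum_single_apply, if_neg (by omega)]]
  exact Finset.prod_congr rfl fun l hl => by rw [sum_single_apply, if_pos (mem_range.mp hl)]

/-- Polynomials in the first `s` slots. -/
def VV (s : ℕ) : Submodule (ZMod 2) PT := Submodule.span _ (Set.range (mon s))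

theorem mon_mem (s : ℕ) (m : ℕ → ℕ) : mon s m ∈ VV s := Submodule.subset_span ⟨m, rfl⟩

def tr (s : ℕ) : PT →ₐ[ZMod 2] PT := aeval fun l => if l < s then X l else 0

theorem tr_mem (s : ℕ) (x : PT) : tr s x ∈ VV s := by
  induction x using MvPolynomial.induction_on with
  | C r =>
    have : tr s (C r) = r • mon s 0 := by simp [mon, tr, smul_eq_C_mul]
    rw [this]; exact Submodule.smul_mem _ _ (mon_mem _ _)
  | add x y hx hy => rw [map_add]; exact add_mem hx hy
  | mul_X x l hx =>
    rw [map_mul]
    generalize tr s x = y at hx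
    rw [tr, aeval_X]
    split_ifs with h
    · induction hx using Submodule.span_induction with
      | mem y hy =>
        obtain ⟨m, rfl⟩ := hy
        have : mon s m * X l = mon s (m + Pi.single l 1) := by
          simp only [mon, Pi.add_apply, pow_add, Finset.prod_mul_distrib]
          congr 1
          rw [Finset.prod_eq_single l]
          · simp
          · intro b _ hb; simp [hb]
          · intro hl; exact absurd (mem_range.mpr h) hl
        rw [this]; exact mon_mem _ _
      | zero => simp
      | add y z _ _ hy hz => rw [add_mul]; exact add_mem hy hz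
      | smul c y _ hy => rw [smul_mul_assoc]; exact Submodule.smul_mem _ _ hy
    · simp

theorem mon_mul (s s' : ℕ) (m m' : ℕ → ℕ) : mon s m * rename (· + s) (mon s' m') =
    mon (s + s') fun l => if l < s then m l else m' (l - s) := by
  simp only [mon, Finset.prod_range_add, map_prod, map_pow, rename_X]
  congr 1
  · exact Finset.prod_congr rfl fun l hl => by rw [if_pos (mem_range.mp hl)]
  · exact Finset.prod_congr rfl fun l _ => by
      rw [if_neg (by omega), add_comm l s, Nat.add_sub_cancel_left]

theorem Lam_mul (θ : ℕ → S) {s s' : ℕ} {x y : PT} (hx : x ∈ VV s) (hy : y ∈ VV s') :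
    x * rename (· + s) y ∈ VV (s + s') ∧
      Lam θ (s + s') (x * rename (· + s) y) = Lam θ s x * Lam θ s' y := by
  induction hx using Submodule.span_induction with
  | zero => simp
  | add x z _ _ hx hz =>
    rw [add_mul, map_add, map_add, hx.2, hz.2, add_mul]; exact ⟨add_mem hx.1 hz.1, rfl⟩
  | smul c x _ hx =>
    rw [smul_mul_assoc, map_smul, map_smul, hx.2, smul_mul_assoc]
    exact ⟨Submodule.smul_mem _ _ hx.1, rfl⟩
  | mem x hx =>
    obtain ⟨m, rfl⟩ := hx
    induction hy using Submodule.span_induction with
    | zero => simp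
    | add y z _ _ hy hz =>
      rw [map_add, mul_add, map_add, map_add, hy.2, hz.2, mul_add]; exact ⟨add_mem hy.1 hz.1, rfl⟩
    | smul c y _ hy =>
      rw [map_smul, mul_smul_comm, map_smul, map_smul, hy.2, mul_smul_comm]
      exact ⟨Submodule.smul_mem _ _ hy.1, rfl⟩
    | mem y hy =>
      obtain ⟨m', rfl⟩ := hy
      rw [mon_mul, Lam_mon, Lam_mon, Lam_mon, Finset.prod_range_add]
      refine ⟨mon_mem _ _, ?_⟩
      congr 1
      · exact Finset.prod_congr rfl fun l hl => by rw [if_pos (mem_range.mp hl)]
      · exact Finset.prod_congr rfl fun l _ => by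
          rw [if_neg (by omega), Nat.add_sub_cancel_left]

theorem Lam_ideal (θ : ℕ → S) (s N : ℕ) (hN : 0 < N) (h : ∀ e, N ≤ e → θ e = 0) {x : PT}
    (hx : x ∈ Ideal.span (Set.range fun l : ℕ => (X l : PT) ^ N)) : Lam θ s x = 0 := by
  suffices ∀ p, Lam θ s (p * x) = 0 by simpa using this 1
  induction hx using Submodule.span_induction with
  | zero => simp
  | add x z _ _ hx hz => intro p; rw [mul_add, map_add, hx, hz, add_zero]
  | smul c x _ hx => intro p; rw [smul_eq_mul, ← mul_assoc, hx]
  | mem x hx =>
    obtain ⟨l, rfl⟩ := hx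
    intro p
    induction p using MvPolynomial.induction_on' with
    | add p q hp hq => rw [add_mul, map_add, hp, hq, add_zero]
    | monomial m c =>
      dsimp only
      rw [X_pow_eq_monomial, monomial_mul, Lam_monomial]
      split_ifs with hc
      · have hl : l < s := by
          by_contra hl
          have := hc l (by omega)
          simp at this; omega
        rw [Finset.prod_eq_zero (f := fun k => θ ((m + Finsupp.single l N) k)) (mem_range.mpr hl)
          (h _ (by simp)), smul_zero]
      · exact smul_zero _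

/-- The coface on slot polynomials, for a primitive generator. -/
def fc (k : ℕ) : PT →ₐ[ZMod 2] PT :=
  aeval fun l => if l + 1 < k then X l else if l + 1 = k then X l + X (l + 1) else X (l + 1)

theorem fc_mon {k s : ℕ} (h : s < k) (m : ℕ → ℕ) : fc k (mon s m) = mon s m := by
  simp only [mon, map_prod, map_pow, fc, aeval_X]
  exact Finset.prod_congr rfl fun l hl => by rw [if_pos (by have := mem_range.mp hl; omega)]

theorem fc_shift {k s : ℕ} (h : k ≤ s) (x : PT) :
    fc k (rename (· + s) x) = rename (· + (s + 1)) x := by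
  have : (fc k).comp (rename (· + s)) = rename (· + (s + 1)) := algHom_ext fun l => by
    simp only [AlgHom.comp_apply, rename_X, fc, aeval_X]
    rw [if_neg (by omega), if_neg (by omega), add_assoc]
  exact AlgHom.congr_fun this x

theorem one_mem_VV (s : ℕ) : (1 : PT) ∈ VV s := by simpa using tr_mem s 1

theorem Lam_fc (θ : ℕ → S) (h0 : θ 0 = 0)
    (h2 : ∀ e, ∑ j ∈ range (e + 1), θ j * θ (e - j) * (e.choose j : S) = 0)
    {s k : ℕ} (hk : k ≤ s + 1) {x : PT} (hx : x ∈ VV s) : Lam θ (s + 1) (fc k x) = 0 := by
  have h1 : Lam θ 1 1 = 0 := by simpa [mon, h0] using Lam_mon θ 1 0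
  induction hx using Submodule.span_induction with
  | zero => simp
  | add x z _ _ hx hz => rw [map_add, map_add, hx, hz, add_zero]
  | smul c x _ hx => rw [map_smul, map_smul, hx, smul_zero]
  | mem x hx =>
    obtain ⟨m, rfl⟩ := hx
    rcases Nat.eq_zero_or_pos k with rfl | hk0
    · have := (Lam_mul θ (one_mem_VV 1) (mon_mem s m)).2
      rw [one_mul, h1, zero_mul, add_comm] at this
      rw [← this, ← fc_shift (s := 0) le_rfl]
      simp [mon]
    rcases hk.eq_or_lt with rfl | hk
    · have := (Lam_mul θ (mon_mem s m) (one_mem_VV 1)).2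
      rwa [map_one, mul_one, h1, mul_zero, ← fc_mon (k := s + 1) (by omega)] at this
    obtain ⟨a, rfl⟩ : ∃ a, k = a + 1 := ⟨k - 1, by omega⟩
    obtain ⟨b, rfl⟩ : ∃ b, s = a + 1 + b := ⟨s - (a + 1), by omega⟩
    have e1 : mon (a + 1 + b) m = mon a m * X a ^ m a *
        rename (· + (a + 1)) (mon b fun l => m (a + 1 + l)) := by
      rw [mon, Finset.prod_range_add, Finset.prod_range_succ]
      simp only [mon, map_prod, map_pow, rename_X, add_comm (a + 1)]
    have e2 : ((X 0 + X 1 : PT)) ^ m a =
        ∑ j ∈ range (m a + 1), ((m a).choose j : ZMod 2) •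
          mon 2 fun l => if l = 0 then j else m a - j := by
      rw [add_pow]
      exact Finset.sum_congr rfl fun j _ => by
        simp [mon, Finset.prod_range_succ, smul_eq_C_mul, mul_comm]
    have e3 : ((X 0 + X 1 : PT)) ^ m a ∈ VV 2 := by
      rw [e2]; exact sum_mem fun j _ => Submodule.smul_mem _ _ (mon_mem _ _)
    have e4 : Lam θ 2 ((X 0 + X 1 : PT) ^ m a) = 0 := by
      rw [e2, map_sum, ← h2 (m a)]
      exact Finset.sum_congr rfl fun j _ => by
        rw [map_smul, Lam_mon, Algebra.smul_def, map_natCast]
        simp [Finset.prod_range_succ, mul_comm]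
    have e5 := Lam_mul θ (mon_mem a m) e3
    have e6 := (Lam_mul θ e5.1 (mon_mem b fun l => m (a + 1 + l))).2
    rw [e5.2, e4, mul_zero, zero_mul] at e6
    rw [e1, map_mul (fc _), map_mul (fc _), fc_mon (by omega), fc_shift le_rfl, map_pow, fc, aeval_X,
      if_neg (by omega), if_pos rfl, show a + 1 + b + 1 = a + 2 + b by omega, ← e6]
    simp [add_comm 1 a]

theorem map_Lam {S' : Type} [CommRing S'] [Algebra (ZMod 2) S'] (r : S →ₐ[ZMod 2] S')
    (θ : ℕ → S) (s : ℕ) (x : PT) : r (Lam θ s x) = Lam (fun e => r (θ e)) s x := by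
  induction x using MvPolynomial.induction_on' with
  | add p q hp hq => simp only [map_add, hp, hq]
  | monomial m c =>
    rw [Lam_monomial, Lam_monomial, map_smul]
    split_ifs <;> simp

/-- The twisting cochain with values `a` on `T` and `b` on `T^2`. -/
def th (a b : S) (e : ℕ) : S := if e = 1 then a else if e = 2 then b else 0

theorem th_conv (a b : S) (e : ℕ) :
    ∑ j ∈ range (e + 1), th a b j * th a b (e - j) * (e.choose j : S) = 0 := by
  have h2 : (2 : S) = 0 := by
    rw [← map_ofNat (algebraMap (ZMod 2) S) 2]; exact (congrArg _ rfl).trans (map_zero _)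
  by_cases he : e < 5
  · interval_cases e <;> simp [Finset.sum_range_succ, th, Nat.choose]
    · linear_combination (a * a) * h2
    · linear_combination (3 * a * b) * h2
    · linear_combination (3 * b * b) * h2
  · refine Finset.sum_eq_zero fun j hj => ?_
    unfold th
    split_ifs <;> first | omega | simp

theorem Lam_one (a b : S) (q : Polynomial (ZMod 2)) :
    Lam (th a b) 1 (Polynomial.aeval (X 0 : PT) q) = q.coeff 1 • a + q.coeff 2 • b := by
  induction q using Polynomial.induction_on' with
  | add p q hp hq => simp only [map_add, hp, hq, Polynomial.coeff_add, add_smul]; abel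
  | monomial n c =>
    have : Polynomial.aeval (X 0 : PT) (Polynomial.monomial n c) = c • mon 1 fun _ => n := by
      simp [mon, smul_eq_C_mul]
    rw [this, map_smul, Lam_mon]
    simp only [Finset.prod_range_one, th, Polynomial.coeff_monomial]
    split_ifs <;> first | omega | simp

theorem Lam_single (j s : ℕ) (a : S) (x : PT) :
    Lam (fun e => if e = j then a else 0) s x =
      coeff (∑ l ∈ range s, Finsupp.single l j) x • a ^ s := by
  induction x using MvPolynomial.induction_on' with
  | add p q hp hq => simp only [map_add, hp, hq, coeff_add, add_smul]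
  | monomial m c =>
    rw [Lam_monomial, coeff_monomial]
    by_cases h : m = ∑ l ∈ range s, Finsupp.single l j
    · have hm : ∀ l, m l = if l < s then j else 0 := fun l => by
        rw [h]; exact sum_single_apply s (fun _ => j) l
      rw [if_pos h, if_pos fun l hl => by rw [hm, if_neg (by omega)],
        Finset.prod_congr rfl fun l hl => by rw [hm, if_pos (mem_range.mp hl), if_pos rfl]]
      simp
    · rw [if_neg h, zero_smul]
      split_ifs with hc
      · obtain ⟨l, hl⟩ : ∃ l, m l ≠ (∑ l ∈ range s, Finsupp.single l j) l := by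
          by_contra hc'
          push Not at hc'
          exact h (Finsupp.ext hc')
        rw [sum_single_apply s (fun _ => j) l] at hl
        split_ifs at hl with h'
        · rw [Finset.prod_eq_zero (mem_range.mpr h') (if_neg hl), smul_zero]
        · exact absurd (hc l (by omega)) hl
      · exact smul_zero _

end

end Pool.Agent.Tel
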