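import Pool.Agent.Lib.MP_3a30fb_gt.Pre

/-!
Commutative algebra: residue fields at two primes, Nakayama's lemma and the Krull intersection.
-/

namespace Pool.Agent.Tel

open Finsupp

noncomputable section

variable {ι κ : Type} {S K' : Type} [CommRing S] [CommRing K']

/-- `r : S → K'` is the map to (a localisation of) `S / π`. -/
structure Res (r : S →+* K') (π : S) : Prop where
  ne : π ≠ 0
  zero : r π = 0
  ker : ∀ x, r x = 0 → π ∣ x
  surj : ∀ k, ∃ τ x, r τ ≠ 0 ∧ r τ * k = r x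

/-- Exactness on the cells in `s`. -/
def ExOn (ψ : C →+* S) (D : ι → ι →₀ C) (s : Set ι) : Prop :=
  ∀ x ∈ supported S S s, bl ψ D x = 0 → ∃ y ∈ supported S S s, bl ψ D y = x

/-- The cells in `s` form a subcomplex. -/
def Closed (D : ι → ι →₀ C) (s : Set ι) : Prop := ∀ i ∈ s, ∀ j, D i j ≠ 0 → j ∈ s

theorem bl_supported (ψ : C →+* S) {f : ι → κ →₀ C} {s : Set ι} {t : Set κ}
    (h : ∀ i ∈ s, ∀ j, f i j ≠ 0 → j ∈ t) {x : ι →₀ S} (hx : x ∈ supported S S s) :
    bl ψ f x ∈ supported S S t := by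
  rw [supported_eq_span_single] at hx
  induction hx using Submodule.span_induction with
  | zero => simp
  | add x y _ _ hx hy => rw [map_add]; exact add_mem hx hy
  | smul c x _ hx => rw [map_smul]; exact Submodule.smul_mem _ _ hx
  | mem x hx =>
    obtain ⟨i, hi, rfl⟩ := hx
    rw [bl_single, one_smul, mem_supported']
    intro j hj
    rw [bm_apply, show f i j = 0 from by_contra fun e => hj (h i hi j e), map_zero]

def rm (r : S →+* K') : (ι →₀ S) →+ (ι →₀ K') := mapRange.addMonoidHom r.toAddMonoidHom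

theorem rm_apply (r : S →+* K') (x : ι →₀ S) (i : ι) : rm r x i = r (x i) := rfl

theorem rm_smul (r : S →+* K') (c : S) (x : ι →₀ S) : rm r (c • x) = r c • rm r x := by
  ext1 i; simp [rm_apply]

theorem rm_bl (r : S →+* K') (ψ : C →+* S) (f : ι → κ →₀ C) (x : ι →₀ S) :
    rm r (bl ψ f x) = bl (r.comp ψ) f (rm r x) := by
  induction x using Finsupp.induction_linear with
  | zero => simp
  | add x y hx hy => simp only [map_add, hx, hy]
  | single i c =>
    rw [show rm r (single i c) = single i (r c) from mapRange_single (hf := map_zero _),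
      bl_single, bl_single, rm_smul]
    congr 1
    ext1 j; rfl

variable [IsDomain S] [IsDomain K'] {r : S →+* K'} {π : S}

omit [IsDomain S] in
theorem Res.clear (h : Res r π) {s : Set ι} {y : ι →₀ K'} (hy : y ∈ supported K' K' s) :
    ∃ τ, r τ ≠ 0 ∧ ∃ y' ∈ supported S S s, r τ • y = rm r y' := by
  rw [supported_eq_span_single] at hy
  induction hy using Submodule.span_induction with
  | zero => exact ⟨1, by simp, 0, zero_mem _, by simp⟩
  | add x y _ _ hx hy =>
    obtain ⟨τ, hτ, x', hx', e⟩ := hx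
    obtain ⟨σ, hσ, y', hy', e'⟩ := hy
    refine ⟨τ * σ, by rw [map_mul]; exact mul_ne_zero hτ hσ, σ • x' + τ • y',
      add_mem (Submodule.smul_mem _ _ hx') (Submodule.smul_mem _ _ hy'), ?_⟩
    rw [map_add, rm_smul, rm_smul, ← e, ← e', map_mul, smul_add, smul_smul, smul_smul, mul_comm]
  | smul c x _ hx =>
    obtain ⟨τ, hτ, x', hx', e⟩ := hx
    obtain ⟨σ, z, hσ, e'⟩ := h.surj c
    refine ⟨τ * σ, by rw [map_mul]; exact mul_ne_zero hτ hσ, z • x',
      Submodule.smul_mem _ _ hx', ?_⟩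
    rw [rm_smul, ← e, ← e', map_mul, smul_smul, smul_smul]
    congr 1; ring
  | mem x hx =>
    obtain ⟨i, hi, rfl⟩ := hx
    exact ⟨1, by simp, single i 1, single_mem_supported _ _ hi, by
      rw [show rm r (single i 1) = single i (r 1) from mapRange_single (hf := map_zero _)]; simp⟩

theorem Res.divis (h : Res r π) {ψ : C →+* S} {D : ι → ι →₀ C} {s : Set ι} (hs : Closed D s)
    (h2 : ∀ x, bl ψ D (bl ψ D x) = 0) (he : ExOn (r.comp ψ) D s) (x : ι →₀ S)
    (hx : x ∈ supported S S s) (hx0 : bl ψ D x = 0) : ∃ τ, r τ ≠ 0 ∧ ∃ x' ∈ supported S S s,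
      bl ψ D x' = 0 ∧ ∃ y ∈ supported S S s, τ • x = π • x' + bl ψ D y := by
  obtain ⟨y, hy, e⟩ := he (rm r x) (by
    rw [mem_supported'] at hx ⊢
    intro i hi; rw [rm_apply, hx i hi, map_zero]) (by rw [← rm_bl, hx0, map_zero])
  obtain ⟨τ, hτ, y', hy', e'⟩ := h.clear hy
  have e1 : ∀ i, π ∣ (τ • x - bl ψ D y') i := fun i => h.ker _ (by
    rw [← rm_apply, map_sub, rm_smul, rm_bl, ← e', map_smul, e, sub_self]; rfl)
  choose z hz using e1
  have hm : τ • x - bl ψ D y' ∈ supported S S s :=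
    sub_mem (Submodule.smul_mem _ _ hx) (bl_supported ψ hs hy')
  let x' : ι →₀ S := onFinset (τ • x - bl ψ D y').support z fun i hi => by
    rw [mem_support_iff, hz]; exact mul_ne_zero h.ne hi
  have e2 : τ • x - bl ψ D y' = π • x' := Finsupp.ext hz
  refine ⟨τ, hτ, x', ?_, ?_, y', hy', by rw [← e2, sub_add_cancel]⟩
  · rw [mem_supported'] at hm ⊢
    intro i hi
    exact (mul_eq_zero.mp ((hz i).symm.trans (hm i hi))).resolve_left h.ne
  · have := congrArg (bl ψ D) e2
    rw [map_sub, map_smul, hx0, h2, map_smul, smul_zero, sub_zero] at this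
    exact (smul_eq_zero.mp this.symm).resolve_left h.ne

omit [IsDomain S] in
theorem nakayama (hπ : r π = 0) {M : Type} [AddCommGroup M] [Module S M] [Module.Finite S M]
    (h : ∀ m : M, ∃ τ, r τ ≠ 0 ∧ ∃ m', τ • m = π • m') : ∃ τ, r τ ≠ 0 ∧ ∀ m : M, τ • m = 0 := by
  classical
  choose τ hτ m' hm' using h
  obtain ⟨t, ht⟩ := Module.Finite.fg_top (R := S) (M := M)
  have h1 : LinearMap.range (algebraMap S (Module.End S M) (∏ m ∈ t, τ m)) ≤
      Ideal.span {π} • ⊤ := by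
    rw [LinearMap.range_eq_map, ← ht, Submodule.map_span_le]
    intro m hm
    rw [← Finset.prod_erase_mul _ _ hm, Module.algebraMap_end_apply, mul_smul, hm', ht]
    exact Submodule.smul_mem _ _
      (Submodule.smul_mem_smul (Ideal.mem_span_singleton_self π) Submodule.mem_top)
  obtain ⟨p, hp, -, hc, he⟩ :=
    LinearMap.exists_monic_and_natDegree_eq_and_coeff_mem_pow_and_aeval_eq_zero S _ _ h1
  refine ⟨p.eval (∏ m ∈ t, τ m), ?_, fun m => ?_⟩
  · rw [hp.as_sum]
    simp only [Polynomial.eval_add, Polynomial.eval_pow, Polynomial.eval_X,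
      Polynomial.eval_finsetSum, Polynomial.eval_mul, Polynomial.eval_C, map_add, map_sum, map_mul]
    rw [Finset.sum_eq_zero, add_zero, map_pow, map_prod]
    · exact pow_ne_zero _ (Finset.prod_ne_zero_iff.mpr fun m _ => hτ m)
    · intro k hk
      have := Ideal.pow_le_self (by have := Finset.mem_range.mp hk; omega) (hc k)
      obtain ⟨c, hc⟩ := Ideal.mem_span_singleton.mp this
      rw [hc, map_mul, hπ, zero_mul, zero_mul]
  · rw [Polynomial.aeval_algebraMap_apply_eq_algebraMap_eval] at he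
    exact LinearMap.congr_fun he m

/-- The homology is torsion for the complement of the kernel of `r`. -/
def Tor (r : S →+* K') (ψ : C →+* S) (D : ι → ι →₀ C) : Prop :=
  ∀ x, bl ψ D x = 0 → ∃ τ, r τ ≠ 0 ∧ ∃ y, τ • x = bl ψ D y

theorem Res.tor [IsNoetherianRing S] [Finite ι] (h : Res r π) {ψ : C →+* S} {D : ι → ι →₀ C}
    (h2 : ∀ x, bl ψ D (bl ψ D x) = 0) (he : ExOn (r.comp ψ) D Set.univ) : Tor r ψ D := by
  obtain ⟨τ, hτ, h0⟩ := nakayama h.zero
    (M := (LinearMap.ker (bl ψ D)).map (LinearMap.range (bl ψ D)).mkQ) (by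
      rintro ⟨_, x, hx, rfl⟩
      obtain ⟨τ, hτ, x', -, hx', y, -, e⟩ := h.divis (s := Set.univ)
        (fun _ _ _ _ => trivial) h2 he x (by simp) hx
      refine ⟨τ, hτ, ⟨_, x', hx', rfl⟩, Subtype.ext ?_⟩
      change τ • Submodule.mkQ _ x = π • Submodule.mkQ _ x'
      rw [← map_smul, ← map_smul, e, map_add, add_eq_left]
      exact (Submodule.Quotient.mk_eq_zero _).mpr ⟨y, rfl⟩)
  intro x hx
  have := congrArg Subtype.val (h0 ⟨_, x, hx, rfl⟩)
  change τ • Submodule.mkQ _ x = 0 at this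
  rw [← map_smul] at this
  obtain ⟨y, hy⟩ := (Submodule.Quotient.mk_eq_zero _).mp this
  exact ⟨τ, hτ, y, hy.symm⟩

omit [IsDomain S] in
theorem Res.prime (h : Res r π) : Prime π := by
  refine ⟨h.ne, fun hu => ?_, fun a b hab => ?_⟩
  · exact (hu.map r).ne_zero h.zero
  · obtain ⟨c, hc⟩ := hab
    have : r a * r b = 0 := by rw [← map_mul, hc, map_mul, h.zero, zero_mul]
    exact (mul_eq_zero.mp this).imp (h.ker a) (h.ker b)

/-- An infinitely divisible class maps to torsion. -/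
theorem Res.krull [IsNoetherianRing S] (h : Res r π) {V W : Type} [AddCommGroup V] [Module S V]
    [AddCommGroup W] [Module S W] (dV : V →ₗ[S] V) (dW : W →ₗ[S] W) (f : V →ₗ[S] W) (ω : W)
    (U : Submodule S V) (hf : ∀ x ∈ U, dW (f x) + f (dV x) = 0)
    (hd : ∀ x ∈ U, dV x = 0 → ∃ τ, r τ ≠ 0 ∧ ∃ x' ∈ U, dV x' = 0 ∧ ∃ y ∈ U, τ • x = π • x' + dV y)
    (h1 : ∀ w, dW w = 0 → ∃ τ, r τ ≠ 0 ∧ ∃ (ρ : S) (y : W), τ • w = ρ • ω + dW y)
    (h2 : ∀ (ρ : S) (y : W), ρ • ω = dW y → ρ = 0) (x : V) (hx : x ∈ U) (hx0 : dV x = 0) :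
    ∃ τ, r τ ≠ 0 ∧ ∃ y, τ • f x = dW y := by
  have cyc : ∀ x ∈ U, dV x = 0 → dW (f x) = 0 := fun x hx hx0 => by
    simpa [hx0] using hf x hx
  have key : ∀ k : ℕ, ∀ x ∈ U, dV x = 0 → ∀ τ (ρ : S) (y : W), r τ ≠ 0 →
      τ • f x = ρ • ω + dW y → π ^ k ∣ ρ := by
    intro k
    induction k with
    | zero => intros; simp
    | succ k ih =>
      intro x hx hx0 τ ρ y hτ e
      obtain ⟨σ, hσ, x', hx', hx0', y0, hy0, e0⟩ := hd x hx hx0
      obtain ⟨τ', hτ', ρ', y', e'⟩ := h1 _ (cyc x' hx' hx0')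
      obtain ⟨c, hc⟩ := ih x' hx' hx0' τ' ρ' y' hτ' e'
      have e1 := congrArg f e0
      rw [map_smul, map_add, map_smul, eq_neg_of_add_eq_zero_right (hf y0 hy0)] at e1
      have e2 := h2 (τ' * σ * ρ - τ * π * ρ') ((τ * π) • y' - (τ * τ') • f y0 - (τ' * σ) • y) (by
        simp only [map_sub, map_smul]
        linear_combination (norm := module) (-(τ' * σ)) • e + (τ * τ') • e1 + (τ * π) • e')
      refine h.prime.pow_dvd_of_dvd_mul_left (a := τ' * σ) _ ?_ ⟨τ * c, ?_⟩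
      · rintro ⟨d, hd⟩
        apply mul_ne_zero hτ' hσ
        rw [← map_mul, hd, map_mul, h.zero, zero_mul]
      · rw [sub_eq_zero.mp e2, hc]; ring
  obtain ⟨τ, hτ, ρ, y, e⟩ := h1 _ (cyc x hx hx0)
  refine ⟨τ, hτ, y, ?_⟩
  have : ρ = 0 := by
    by_contra hρ
    obtain ⟨n, hn⟩ := FiniteMultiplicity.of_prime_left h.prime hρ
    exact hn (key _ x hx hx0 τ ρ y hτ e)
  rw [e, this, zero_smul, zero_add]

end

end Pool.Agent.Tel
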