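import Pool.Agent.Lib.MP_3a30fb_gt.Tower

/-!
The finite localisation, by the small object argument.
-/

namespace Pool.Agent.Tel

open Finsupp

noncomputable section

variable {ι κ μ : Type}

/-- The suspension. -/
def Cell.susp (M : Cell ι) : Cell ι where
  deg i := M.deg i + (1, 0)
  D i := - eM (M.D i)
  hom i j := Hom_congr (Hom_neg (Hom_eC (M.hom i j))) (by abel)
  wf := Subrelation.wf (fun {a b} h (e : M.D b a = 0) => h (by
    rw [Finsupp.neg_apply, eM_apply, e, map_zero, neg_zero])) M.wf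
  sq i := by
    have : ∀ x, dM (fun i => - eM (M.D i)) (eM x) = - eM (dM M.D x) := fun x => by
      induction x using Finsupp.induction_linear with
      | zero => simp
      | add x y hx hy => simp only [map_add, hx, hy, neg_add]
      | single i c =>
        simp only [dM_single, eM_single, dC_eC, eC_eC, map_add, eM_smul, single_neg, smul_neg,
          neg_add]
    rw [map_neg, this, M.sq, map_zero, neg_zero, neg_zero]

theorem susp_D (M : Cell ι) (i : ι) : M.susp.D i = - eM (M.D i) := rfl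

theorem cone_D {M : Cell ι} {N : Cell κ} (G : Map M N) : G.cone.D = coneD M.D N.D G.f := rfl

theorem susp_exOn {S : Type} [CommRing S] {ψ : C →+* S} (h : IsAug ψ) {M : Cell ι}
    (hM : ExOn ψ M.D Set.univ) : ExOn ψ M.susp.D Set.univ := by
  have : ∀ x, bl ψ M.susp.D x = - bl ψ M.D x := fun x => by
    induction x using Finsupp.induction_linear with
    | zero => simp
    | add x y hx hy => simp only [map_add, hx, hy, neg_add]
    | single i c => simp only [bl_single, Cell.susp, map_neg, bm_eM h, smul_neg]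
  intro x hx h0
  obtain ⟨y, -, e⟩ := hM x hx (neg_eq_zero.mp (by rw [← this, h0]))
  exact ⟨-y, by simp, by rw [this, map_neg, neg_neg, e]⟩

theorem susp_acyc {M : Cell ι} (h : Acyc 3 0 M) : Acyc 3 0 M.susp := by
  rw [acyc_iff] at h ⊢
  exact ⟨susp_exOn psi0_aug h.1, susp_exOn ψh_aug h.2.1,
    fun c => susp_exOn (ψR_aug.comp _) (h.2.2 c)⟩

/-- `h` is a null-homotopy of `f`. -/
def NH (V : Cell ι) (Z : Cell κ) (f h : ι → κ →₀ C) : Prop :=
  (∀ i j, h i j ∈ Hom (V.deg i - Z.deg j + (1, 0))) ∧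
    ∀ i, f i = dM Z.D (h i) + lc h (eM (V.D i))

theorem dM_lc {D : ι → ι →₀ C} {D' : κ → κ →₀ C} {f h : ι → κ →₀ C}
    (e : ∀ i, f i = dM D' (h i) + lc h (eM (D i))) (x : ι →₀ C) :
    dM D' (lc h (eM x)) = lc f x - lc h (eM (dM D x)) := by
  induction x using Finsupp.induction_linear with
  | zero => simp
  | add x y hx hy => simp only [map_add, hx, hy]; abel
  | single i c =>
    simp only [eM_single, linearCombination_single, dM_smul, dM_single, map_add, eM_smul, eC_eC,
      dC_eC, map_smul, e i, smul_add, neg_smul]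
    abel

/-- The obstruction to extending a null-homotopy over a cone. -/
def obs {M : Cell ι} {N : Cell κ} (G : Map M N) {Z : Cell μ} (f : Map G.cone Z)
    (h : κ → μ →₀ C) (hh : NH N Z (fun k => f.f (.inl k)) h) : Map M.susp Z where
  f i := f.f (.inr i) - lc h (eM (G.f i))
  hom i j := Hom_sub (f.hom (.inr i) j) (Hom_congr (lc_hom (p := M.deg i) (g := N.deg)
    (g' := Z.deg) (fun k => Hom_eC (G.hom i k)) hh.1 j) (by simp only [Cell.susp]; abel))
  comm i := by
    have e : ∀ x, lc (fun i => f.f (.inr i) - lc h (eM (G.f i))) (eM x) =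
        lc (fun i => f.f (.inr i)) (eM x) - lc h (eM (lc G.f x)) := fun x => by
      induction x using Finsupp.induction_linear with
      | zero => simp
      | add x y hx hy => simp only [map_add, hx, hy]; abel
      | single i c =>
        simp only [eM_single, linearCombination_single, eM_smul, map_smul, smul_sub]
    rw [map_sub, f.comm, dM_lc hh.2, G.comm, susp_D, map_neg, e, cone_D, coneD, map_sub,
      lc_mapDomain, lc_mapDomain]
    abel

theorem NH.cone {M : Cell ι} {N : Cell κ} (G : Map M N) {Z : Cell μ} (f : Map G.cone Z)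
    {h : κ → μ →₀ C} (hh : NH N Z (fun k => f.f (.inl k)) h) {k : ι → μ →₀ C}
    (hk : NH M.susp Z (obs G f h hh).f k) : NH G.cone Z f.f (Sum.elim h k) := by
  constructor
  · rintro (a | a) j
    exacts [hh.1 a j, hk.1 a j]
  · rintro (a | a)
    · rw [cone_D, coneD, eM_mapDomain, lc_mapDomain]
      exact hh.2 a
    · have : f.f (.inr a) - lc h (eM (G.f a)) = _ := hk.2 a
      simp only [susp_D, map_neg, eM_eM] at this
      rw [cone_D, coneD, map_sub, eM_mapDomain, eM_mapDomain, eM_eM, map_sub, lc_mapDomain,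
        lc_mapDomain, eq_add_of_sub_eq this]
      simp only [Sum.elim_inl, Sum.elim_inr]
      abel

/-- Maps from acyclic finite cell modules to `V`. -/
abbrev Idx (V : Cell ι) : Type := Σ k : ℕ, Σ F : {F : Cell (Fin k) // Acyc 3 0 F}, Map F.1 V

def srcC (V : Cell ι) : Cell (Σ φ : Idx V, Fin φ.1) :=
  (PC.sigma fun φ : Idx V => φ.2.1.1.toPC).toCell

def attach (V : Cell ι) : Map (srcC V) V where
  f p := p.1.2.2.f p.2
  hom p j := p.1.2.2.hom p.2 j
  comm p := by
    rw [p.1.2.2.comm]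
    exact (lc_mapDomain (fun p : Σ φ : Idx V, Fin φ.1 => p.1.2.2.f p.2) (Sigma.mk p.1) _).symm

def towC (V : Cell ι) : ℕ → Σ ι : Type, Cell ι
  | 0 => ⟨ι, V⟩
  | n + 1 => ⟨_, (attach (towC V n).2).cone⟩

theorem srcC_D (V : Cell ι) (φ : Idx V) (a : Fin φ.1) :
    (srcC V).D ⟨φ, a⟩ = mapDomain (Sigma.mk φ) (φ.2.1.1.D a) := rfl

theorem srcC_susp (V : Cell ι) (φ : Idx V) (a : Fin φ.1) :
    (srcC V).susp.D ⟨φ, a⟩ = mapDomain (Sigma.mk φ) (φ.2.1.1.susp.D a) := by
  rw [susp_D, susp_D, srcC_D, eM_mapDomain, ← lmapDomain_apply C C _ (-_), map_neg,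
    lmapDomain_apply]

theorem extend {V : Cell ι} {Z : Cell μ} (hZ : FinLocal 3 0 Z) (f : Map (attach V).cone Z)
    {h : ι → μ →₀ C} (hh : NH V Z (fun k => f.f (.inl k)) h) :
    ∃ k, NH (attach V).cone Z f.f (Sum.elim h k) := by
  have : ∀ φ : Idx V, ∃ k, NH φ.2.1.1.susp Z (fun a => (obs _ f h hh).f ⟨φ, a⟩) k := fun φ =>
    hZ _ _ (susp_acyc φ.2.1.2) ⟨fun a => (obs _ f h hh).f ⟨φ, a⟩,
      fun a j => (obs _ f h hh).hom ⟨φ, a⟩ j, fun a => by
        rw [(obs _ f h hh).comm, srcC_susp, lc_mapDomain]⟩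
  choose k hk using this
  refine ⟨fun p => k p.1 p.2, NH.cone _ f hh ⟨fun p j => (hk p.1).1 p.2 j, ?_⟩⟩
  rintro ⟨φ, a⟩
  rw [srcC_susp, eM_mapDomain, lc_mapDomain]
  exact (hk φ).2 a

theorem sq_bl {S : Type} [CommRing S] {ψ : C →+* S} (h : IsAug ψ) (M : Cell ι) (x : ι →₀ S) :
    bl ψ M.D (bl ψ M.D x) = 0 := bl_sq h (fun i j => by rw [M.sq]; exact map_zero _) x

theorem single_hom {g : κ → ℤ × ℤ} {p : ℤ × ℤ} (k j : κ) (h : p - g k = 0) :
    (single k 1 : κ →₀ C) j ∈ Hom (p - g j) := by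
  by_cases e : j = k
  · rw [e, single_eq_same, h]; exact Hom_one
  · rw [single_eq_of_ne e]; exact Hom_zero _

/-- The inclusion of a subcomplex. -/
def incl {V : Cell ι} {Z : Cell κ} {e : ι → κ} (h : IsSub V.toPC Z.toPC e) : Map V Z where
  f i := single (e i) 1
  hom i j := single_hom _ _ (sub_eq_zero.mpr (h.deg i).symm)
  comm i := by
    rw [dM_single, dC_one, single_zero, zero_add, map_one, one_smul, lc_single_one]
    exact h.D i

theorem incl_f {V : Cell ι} {Z : Cell κ} {e : ι → κ} (h : IsSub V.toPC Z.toPC e) (i : ι) :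
    (incl h).f i = single (e i) 1 := rfl

def Map.res {V : Cell ι} {Z : Cell κ} {e : ι → κ} (h : IsSub V.toPC Z.toPC e) {Z' : Cell μ}
    (f : Map Z Z') : Map V Z' where
  f i := f.f (e i)
  hom i j := Hom_congr (f.hom (e i) j) (congrArg (· - _) (h.deg i))
  comm i := by rw [f.comm, ← lc_mapDomain f.f e]; exact congrArg _ (h.D i)

def inlT (V : Cell ι) (n : ℕ) : (towC V n).1 → (towC V (n + 1)).1 := Sum.inl

def inrT (V : Cell ι) (n : ℕ) : (Σ φ : Idx (towC V n).2, Fin φ.1) → (towC V (n + 1)).1 := Sum.inr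

theorem tow_D (V : Cell ι) (n : ℕ) (φ : Idx (towC V n).2) (a : Fin φ.1) :
    (towC V (n + 1)).2.D (inrT V n ⟨φ, a⟩) = mapDomain (inlT V n) (φ.2.2.f a) -
      mapDomain (inrT V n) (eM (mapDomain (Sigma.mk φ) (φ.2.1.1.D a))) := rfl

theorem tow_deg (V : Cell ι) (n : ℕ) (φ : Idx (towC V n).2) (a : Fin φ.1) :
    (towC V (n + 1)).2.deg (inrT V n ⟨φ, a⟩) = φ.2.1.1.deg a + (1, 0) := rfl

section
variable {V : Cell ι} {E : ∀ n, (towC V n).1 → κ} {Z : Cell κ}
  (hc : Colim (fun n => (towC V n).1) (inlT V) κ E)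
  (hd : ∀ n i, Z.deg (E n i) = (towC V n).2.deg i)
  (hD : ∀ n i, Z.D (E n i) = mapDomain (E n) ((towC V n).2.D i))
include hc hd hD

theorem tow_finLocal : FinLocal 3 0 Z := by
  intro k F hF f
  choose n y hy using fun a => hc.stage (f.f a)
  choose z hz using fun a => hc.up (Finset.le_sup (f := n) (Finset.mem_univ a)) (y a)
  generalize Finset.univ.sup n = m at z hz
  have e : ∀ a, f.f a = mapDomain (E m) (z a) := fun a => (hy a).trans (hz a)
  let g : Map F (towC V m).2 := ⟨z, fun a j => by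
      have := f.hom a (E m j)
      rwa [e, mapDomain_apply (hc.inj m), hd] at this, fun a =>
    mapDomain_injective (hc.inj m) (by
      rw [mapDomain_lc, ← funext e, ← f.comm, e, dM_sub (hD m)])⟩
  let φ : Idx (towC V m).2 := ⟨k, ⟨F, hF⟩, g⟩
  refine ⟨fun a => single (E (m + 1) (inrT V m ⟨φ, a⟩)) 1, fun a j => ?_, fun a => ?_⟩
  · rw [← add_sub_right_comm]
    exact single_hom _ _ (by rw [hd, tow_deg, sub_self])
  · rw [dM_single, dC_one, single_zero, zero_add, map_one, one_smul, lc_single_one, e, hD, tow_D,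
      mapDomain_sub, hc.md, eM_mapDomain, ← mapDomain_comp, ← mapDomain_comp]
    exact (sub_add_cancel _ _).symm

theorem tow_extend {Z' : Cell μ} (hZ : FinLocal 3 0 Z') (f : Map Z Z') (h0 : ι → μ →₀ C)
    (hh : NH V Z' (fun i => f.f (E 0 i)) h0) : ∃ H, NH Z Z' f.f H ∧ ∀ i, H (E 0 i) = h0 i := by
  have st : ∀ n h, NH (towC V n).2 Z' (fun i => f.f (E n i)) h →
      ∃ h', NH (towC V (n + 1)).2 Z' (fun i => f.f (E (n + 1) i)) h' ∧
        ∀ i, h' (inlT V n i) = h i := by
    intro n h hh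
    have hh' : NH (towC V n).2 Z' (fun i => f.f (E (n + 1) (inlT V n i))) h := by
      simp only [hc.comp]; exact hh
    obtain ⟨k, hk⟩ := extend (V := (towC V n).2) hZ
      (f.res (V := (towC V (n + 1)).2) ⟨hd (n + 1), hD (n + 1)⟩) hh'
    exact ⟨Sum.elim h k, hk, fun _ => rfl⟩
  choose nx hnx hnx' using st
  let sq : ∀ n, {h // NH (towC V n).2 Z' (fun i => f.f (E n i)) h} := fun n =>
    Nat.rec ⟨h0, hh⟩ (fun n h => ⟨nx n h.1 h.2, hnx n h.1 h.2⟩) n
  obtain ⟨H, hH⟩ := hc.lift _ (fun n => (sq n).1) fun n i => hnx' n _ (sq n).2 i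
  refine ⟨H, ⟨fun a j => ?_, fun a => ?_⟩, hH 0⟩
  · obtain ⟨n, i, rfl⟩ := hc.surj a
    rw [hH, hd]
    exact (sq n).2.1 i j
  · obtain ⟨n, i, rfl⟩ := hc.surj a
    rw [hH, hD, eM_mapDomain, lc_mapDomain]
    simp only [hH]
    exact (sq n).2.2 i

omit hd in
theorem tow_rel (c : Fin 2) : Rel (fun τ => rr c τ ≠ 0) ψR Z.D (E 0) := by
  have hm : ∀ a b, rr c a ≠ 0 → rr c b ≠ 0 → rr c (a * b) ≠ 0 := fun a b ha hb => by
    rw [map_mul]; exact mul_ne_zero ha hb
  refine hc.rel (by simp) hm hD (sq_bl ψR_aug Z) fun n => ?_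
  refine cone_rel (D := (srcC (towC V n).2).D) ψR_aug (towC V n).2.D (attach (towC V n).2).f
    (sig_tor (D := fun φ : Idx (towC V n).2 => φ.2.1.1.D) (by simp) hm fun φ => ?_)
  exact (res c).tor (sq_bl ψR_aug φ.2.1.1) (((acyc_iff _).mp φ.2.1.2).2.2 c)

end

theorem exists_loc (V : Cell ι) : ∃ (κ : Type) (Z : Cell κ) (e : ι → κ)
    (h : IsSub V.toPC Z.toPC e), Function.Injective e ∧ IsFinLoc 3 0 (incl h) ∧
      ∀ c, Rel (fun τ => rr c τ ≠ 0) ψR Z.D e := by
  obtain ⟨κ, E, N, hc, hs⟩ := PC.exists_colim (ι := fun n => (towC V n).1)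
    (e := inlT V) (fun _ => Sum.inl_injective) (fun n => (towC V n).2.toPC)
    fun n => ⟨fun _ => rfl, fun _ => rfl⟩
  have hd : ∀ n i, N.toCell.deg (E n i) = (towC V n).2.deg i := fun n => (hs n).1
  have hD : ∀ n i, N.toCell.D (E n i) = mapDomain (E n) ((towC V n).2.D i) := fun n => (hs n).2
  generalize N.toCell = Z at hd hD
  refine ⟨κ, Z, E 0, ⟨hd 0, hD 0⟩, hc.inj 0, ⟨tow_finLocal hc hd hD, ?_⟩, tow_rel hc hD⟩
  intro μ Z' hZ f
  obtain ⟨H, hH, hH0⟩ := tow_extend hc hd hD hZ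
    (f.res (V := Z) (e := Sum.inl) ⟨fun _ => rfl, fun _ => rfl⟩) (fun i => f.f (.inr i))
    ⟨fun i j => Hom_congr (f.hom (.inr i) j) (add_sub_right_comm _ _ _), fun i => by
      rw [f.comm, cone_D, coneD, map_sub, lc_mapDomain, lc_mapDomain, sub_add_cancel, incl_f,
        linearCombination_single, one_smul]
      rfl⟩
  refine ⟨Sum.elim H 0, ?_, ?_⟩
  · rintro (a | a) j
    exacts [hH.1 a j, Hom_zero _]
  · rintro (a | a)
    · rw [cone_D, coneD, eM_mapDomain, lc_mapDomain]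
      exact hH.2 a
    · rw [cone_D, coneD, map_sub, eM_mapDomain, eM_mapDomain, map_sub, lc_mapDomain,
        lc_mapDomain, incl_f, eM_single, linearCombination_single]
      simp only [Sum.elim_inl, Sum.elim_inr, hH0, Pi.zero_apply, map_zero, map_one, one_smul,
        zero_add]
      rw [show lc (fun _ : ι => (0 : μ →₀ C)) = 0 from linearCombination_zero _ _ _,
        LinearMap.zero_apply, sub_zero]

/-- A finitely acyclic module is torsion at both primes. -/
theorem finAcyc_tor {V : Cell ι} (hV : FinAcyc 3 0 V) (c : Fin 2) : Tor (rr c) ψR V.D := by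
  obtain ⟨κ, Z, e, h, he, hl, hr⟩ := exists_loc V
  obtain ⟨k, -, hk⟩ := hV κ Z hl.1 (incl h)
  have key : ∀ x, bl ψR Z.D (bl ψR k x) + bl ψR k (bl ψR V.D x) = mapDomain e x := by
    intro x
    induction x using Finsupp.induction_linear with
    | zero => simp
    | add x y hx hy => simp only [map_add, mapDomain_add, ← hx, ← hy]; abel
    | single i c =>
      have := congrArg (bm ψR) (hk i)
      rw [map_add, bm_dM ψR_aug, bm_lc, bm_eM ψR_aug] at this
      rw [bl_single, bl_single, map_smul, map_smul, ← smul_add, ← this]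
      simp [incl, bm_single]
  intro x hx
  have e1 := key x
  rw [hx, map_zero, add_zero] at e1
  obtain ⟨τ, hτ, y, z, e2⟩ := hr c _ _ e1
  have e3 := congrArg (bl ψR Z.D) e2
  rw [map_smul, map_add, sq_bl ψR_aug, zero_add, e1, ← mapDomain_smul,
    bl_sub ψR (D := V.D) (D' := Z.D) h.D] at e3
  exact ⟨τ, hτ, z, mapDomain_injective he e3⟩

end

end Pool.Agent.Tel
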