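import Pool.Agent.Lib.MP_3a30fb_gt.Lin

/-!
The test object and the proof that it detects non-locality.
-/

namespace Pool.Agent.Tel

open Finsupp LaurentPolynomial

noncomputable section

variable {ι κ : Type}

/-- `F_2[a, b]`, the cohomology of `F_2[t_2]/(t_2^4)`. -/
abbrev RR := MvPolynomial (Fin 2) (ZMod 2)

def pr (c : Fin 2) : RR →ₐ[ZMod 2] Polynomial (ZMod 2) :=
  MvPolynomial.aeval (Pi.single c Polynomial.X)

def rr (c : Fin 2) : RR →+* K := Polynomial.toLaurent.comp (pr c).toRingHom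

theorem pr_sub (c : Fin 2) (x : RR) :
    MvPolynomial.X c.rev ∣ x - Polynomial.aeval (MvPolynomial.X c : RR) (pr c x) := by
  induction x using MvPolynomial.induction_on with
  | C r => simp [pr]
  | add x y hx hy => rw [map_add, map_add]; convert dvd_add hx hy using 1; ring
  | mul_X x i hx =>
    rw [map_mul, map_mul]
    by_cases h : i = c
    · subst h
      convert hx.mul_right (MvPolynomial.X i) using 1
      simp [pr]; ring
    · have : i = c.rev := (by decide : ∀ i c : Fin 2, ¬ i = c → i = c.rev) i c h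
      have h' : pr c (MvPolynomial.X i) = 0 := by simp [pr, h]
      rw [h', map_zero, mul_zero, sub_zero, this]
      exact Dvd.intro_left _ rfl

theorem rr_X (c : Fin 2) : rr c (MvPolynomial.X c) = T 1 := by simp [rr, pr]

theorem rr_rev (c : Fin 2) : rr c (MvPolynomial.X c.rev) = 0 := by
  have : c.rev ≠ c := by revert c; decide
  simp [rr, pr, this]

theorem res (c : Fin 2) : Res (rr c) (MvPolynomial.X c.rev) where
  ne := MvPolynomial.X_ne_zero _
  zero := rr_rev c
  ker x hx := by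
    have : pr c x = 0 := Polynomial.toLaurent_injective (by rw [map_zero]; exact hx)
    simpa [this] using pr_sub c x
  surj k := by
    obtain ⟨n, p, e⟩ := exists_T_pow k
    refine ⟨MvPolynomial.X c ^ n, Polynomial.aeval (MvPolynomial.X c : RR) p, ?_, ?_⟩
    · rw [map_pow, rr_X]; exact pow_ne_zero _ (isUnit_T 1).ne_zero
    · rw [map_pow, rr_X, T_pow, mul_one, mul_comm, ← e, rr, RingHom.comp_apply,
        AlgHom.toRingHom_eq_coe, RingHom.coe_coe, ← Polynomial.aeval_algHom_apply]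
      simp [pr]

def ψR : C →+* RR := psi 2 (th (MvPolynomial.X 0) (MvPolynomial.X 1))

def ψh : C →+* K := psi 1 (th (T 1) 0)

theorem ψR_aug : IsAug ψR := psi_aug 2 (by omega) _ _ fun e he => by
  rw [th, if_neg (by omega), if_neg (by omega)]

theorem ψh_aug : IsAug ψh := psi_aug 1 le_rfl _ _ fun e he => by
  rw [th, if_neg (by omega)]; simp

theorem IsAug.comp {S S' : Type} [CommRing S] [CommRing S'] {ψ : C →+* S} (h : IsAug ψ)
    (r : S →+* S') : IsAug (r.comp ψ) :=
  ⟨fun x => by rw [RingHom.comp_apply, h.d, map_zero], fun x => by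
    rw [RingHom.comp_apply, h.e, RingHom.comp_apply]⟩

theorem rr_psi (c : Fin 2) (x : C) : rr c (ψR x) =
    psi 2 (th (rr c (MvPolynomial.X 0)) (rr c (MvPolynomial.X 1))) x := by
  have e : ∀ y, rr c y = (Polynomial.toLaurentAlg.comp (pr c)) y := fun _ => rfl
  have e' : (fun e => rr c (th (MvPolynomial.X 0) (MvPolynomial.X 1) e)) =
      th (rr c (MvPolynomial.X 0)) (rr c (MvPolynomial.X 1)) := by
    funext e
    unfold th
    split_ifs
    exacts [rfl, rfl, map_zero _]
  rw [← e', e, ψR, map_psi]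
  simp only [e]

theorem kExo10 : kExo 1 0 = ψh := funext fun x => by
  rw [kExo_eq, ψh]
  refine congrArg (fun θ => psi 1 θ x) (funext fun e => ?_)
  simp [th]

theorem kExo2 (c : Fin 2) : kExo 2 c = (rr c).comp ψR := funext fun x => by
  rw [kExo_eq, RingHom.comp_apply, rr_psi]
  refine congrArg (fun θ => psi 2 θ x) (funext fun e => ?_)
  fin_cases c
  · have := rr_rev 0
    simp only [th, Fin.zero_eta, rr_X, show rr 0 (MvPolynomial.X 1) = 0 from this]
    simp
  · have := rr_rev 1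
    simp only [th, Fin.mk_one, rr_X, show rr 1 (MvPolynomial.X 0) = 0 from this]
    split_ifs <;> simp_all

theorem exact_iff {S : Type} [CommRing S] (ψ : C →+* S) (M : Cell ι) :
    Exact ψ M ↔ ExOn ψ M.D Set.univ := by
  simp [Exact, ExOn, bd_eq]

theorem slope_30 (i : ℕ) (j : ℤ) (h1 : -1 ≤ j) (h2 : j < i) : slope 3 0 < slope i j ↔
    (i = 0 ∧ j = -1) ∨ (i = 1 ∧ j = 0) ∨ (i = 2 ∧ j = 0) ∨ (i = 2 ∧ j = 1) := by
  have e : slope 3 0 = ((7 / 13 : ℚ) : WithTop ℚ) := by
    rw [slope, if_neg (by omega)]; norm_num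
  rw [e, slope]
  by_cases hj : j < 0
  · rw [if_pos hj]
    by_cases hi : i = 0
    · rw [if_pos hi]; simp; omega
    · rw [if_neg hi, WithTop.coe_lt_coe]
      have : (4 : ℚ) ≤ 2 ^ (i + 1) := by
        calc (4 : ℚ) = 2 ^ 2 := by norm_num
          _ ≤ _ := pow_le_pow_right₀ (by norm_num) (by omega)
      refine iff_of_false (not_lt.mpr ?_) (by omega)
      rw [div_le_iff₀ (by linarith)]; linarith
  · rw [if_neg hj, WithTop.coe_lt_coe]
    obtain ⟨j, rfl⟩ := Int.eq_ofNat_of_zero_le (not_lt.mp hj)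
    have e1 : (2 : ℚ) ^ ((j : ℤ) + 1) = 2 ^ j * 2 := by rw [zpow_add₀ (by norm_num)]; simp
    have e2 : (2 : ℚ) ^ ((j : ℤ) + 2) = 2 ^ j * 4 := by rw [zpow_add₀ (by norm_num)]; norm_num
    have a1 : (1 : ℚ) ≤ 2 ^ j := one_le_pow₀ (by norm_num)
    by_cases hi : i < 3
    · have hj : j < i := by omega
      interval_cases i <;> interval_cases j <;> norm_num
    · have : (8 : ℚ) ≤ 2 ^ i := by
        calc (8 : ℚ) = 2 ^ 3 := by norm_num
          _ ≤ _ := pow_le_pow_right₀ (by norm_num) (by omega)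
      refine iff_of_false (not_lt.mpr ?_) (by omega)
      have a2 : (7 : ℚ) ≤ 2 ^ j * (2 ^ i - 1) := by nlinarith
      rw [e1, e2, div_le_iff₀ (by nlinarith)]
      nlinarith

theorem acyc_iff (M : Cell ι) : Acyc 3 0 M ↔ ExOn psi0 M.D Set.univ ∧ ExOn ψh M.D Set.univ ∧
    ∀ c, ExOn ((rr c).comp ψR) M.D Set.univ := by
  have e0 : KZero 0 (-1) M ↔ ExOn psi0 M.D Set.univ := by
    rw [KZero, if_pos (by omega), if_pos rfl, funext kRat_eq, exact_iff]
  have e1 : KZero 1 0 M ↔ ExOn ψh M.D Set.univ := by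
    rw [KZero, if_neg (by omega), ← exact_iff, ← kExo10]; rfl
  have e2 : KZero 2 0 M ↔ ExOn ((rr 0).comp ψR) M.D Set.univ := by
    rw [KZero, if_neg (by omega), ← exact_iff, ← kExo2]; rfl
  have e3 : KZero 2 1 M ↔ ExOn ((rr 1).comp ψR) M.D Set.univ := by
    rw [KZero, if_neg (by omega), ← exact_iff, ← kExo2]; rfl
  rw [Fin.forall_fin_two, ← e0, ← e1, ← e2, ← e3]
  constructor
  · intro h
    exact ⟨h _ _ (by omega) (by omega) ((slope_30 _ _ (by omega) (by omega)).mpr (by simp)),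
      h _ _ (by omega) (by omega) ((slope_30 _ _ (by omega) (by omega)).mpr (by simp)),
      h _ _ (by omega) (by omega) ((slope_30 _ _ (by omega) (by omega)).mpr (by simp)),
      h _ _ (by omega) (by omega) ((slope_30 _ _ (by omega) (by omega)).mpr (by simp))⟩
  · rintro ⟨h0, h1, h2, h3⟩ i j a b c
    rcases (slope_30 i j a b).mp c with ⟨rfl, rfl⟩ | ⟨rfl, rfl⟩ | ⟨rfl, rfl⟩ | ⟨rfl, rfl⟩
    exacts [h0, h1, h2, h3]

/-- The properties of the test object. -/
structure Pkg (D : ι → ι →₀ C) (top : ι) (s : Fin 2 → Set ι) : Prop where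
  top0 : ∀ i, D i top = 0
  cl : ∀ c, Closed D (s c)
  nt : ∀ c, top ∉ s c
  cyc : ∃ z : Fin 2 → ι →₀ RR, (∀ c, z c ∈ supported RR RR (s c) ∧ bl ψR D (z c) = 0) ∧
    bl ψR D (single top 1) = z 0 + z 1
  exh : ExOn ψh D Set.univ
  exc : ∀ c, ExOn ((rr c).comp ψR) D Set.univ
  exs : ∀ c, ExOn ((rr c).comp ψR) D (s c)

section
variable {S : Type} [CommRing S] {ψ : C →+* S}

theorem split (x : ι ⊕ κ →₀ S) : ∃ x1 x2, x = mapDomain .inl x1 + mapDomain .inr x2 := by
  induction x using Finsupp.induction_linear with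
  | zero => exact ⟨0, 0, by simp⟩
  | add x y hx hy =>
    obtain ⟨a, b, rfl⟩ := hx
    obtain ⟨a', b', rfl⟩ := hy
    exact ⟨a + a', b + b', by simp only [mapDomain_add]; abel⟩
  | single i c =>
    rcases i with i | i
    · exact ⟨single i c, 0, by simp⟩
    · exact ⟨0, single i c, by simp⟩

theorem split_zero {x : ι →₀ S} {y : κ →₀ S}
    (h : mapDomain .inl x + mapDomain .inr y = (0 : ι ⊕ κ →₀ S)) : x = 0 ∧ y = 0 :=
  ⟨Finsupp.ext fun i => by simpa [md_ll, md_rl] using DFunLike.congr_fun h (.inl i),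
    Finsupp.ext fun i => by simpa [md_lr, md_rr] using DFunLike.congr_fun h (.inr i)⟩

theorem split_mem {x : ι →₀ S} {y : κ →₀ S} {s : Set ι} {t : Set κ} :
    (mapDomain .inl x + mapDomain .inr y : ι ⊕ κ →₀ S) ∈
      supported S S {i | Sum.elim s t i} ↔ x ∈ supported S S s ∧ y ∈ supported S S t := by
  simp only [mem_supported', Sum.forall, Finsupp.add_apply, md_ll, md_lr, md_rl, md_rr, add_zero,
    zero_add]
  rfl

theorem bl_dbl_inl (h : IsAug ψ) (D u : ι → ι →₀ C) (v : C) (x : ι →₀ S) :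
    bl ψ (dblD D u v) (mapDomain .inl x) =
      mapDomain .inl (bl ψ D x) + mapDomain .inr (bl ψ u x) := by
  induction x using Finsupp.induction_linear with
  | zero => simp
  | add x y hx hy => simp only [mapDomain_add, map_add, hx, hy]; abel
  | single i c =>
    simp only [mapDomain_single, bl_single, dblD, map_add, bm_mapDomain, bm_eM h, smul_add,
      mapDomain_smul]

theorem bl_dbl_inr (h : IsAug ψ) (D u : ι → ι →₀ C) (v : C) (x : ι →₀ S) :
    bl ψ (dblD D u v) (mapDomain .inr x) =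
      mapDomain .inl (ψ v • x) + mapDomain .inr (- bl ψ D x) := by
  induction x using Finsupp.induction_linear with
  | zero => simp
  | add x y hx hy => simp only [mapDomain_add, map_add, hx, hy, smul_add, neg_add]; abel
  | single i c =>
    simp only [mapDomain_single, bl_single, dblD, mapDomain_smul, smul_single, smul_eq_mul,
      sub_eq_add_neg, ← neg_smul]
    simp [bm_mapDomain, bm_eM h, bm_single, mul_comm c]

theorem u_closed {D u : ι → ι →₀ C} (hu : ∀ i j, u i j ≠ 0 → dM D (D i) j ≠ 0) {s : Set ι}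
    (hs : Closed D s) : ∀ i ∈ s, ∀ j, u i j ≠ 0 → j ∈ s := fun i hi j h => by
  rcases dM_ne (hu i j h) with h | ⟨k, h1, h2⟩
  · exact hs i hi j h
  · exact hs k (hs i hi k h1) j h2

theorem dbl_exOn (h : IsAug ψ) {D u : ι → ι →₀ C} {v : C} (hv : ψ v = 0)
    (hu : ∀ i j, u i j ≠ 0 → dM D (D i) j ≠ 0)
    (h2 : ∀ x, bl ψ (dblD D u v) (bl ψ (dblD D u v) x) = 0) {s : Set ι} (hs : Closed D s)
    (he : ExOn ψ D s) : ExOn ψ (dblD D u v) {i | Sum.elim s s i} := by
  intro x hx hx0
  obtain ⟨x1, x2, rfl⟩ := split x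
  obtain ⟨m1, m2⟩ := split_mem.mp hx
  have e := hx0
  rw [map_add, bl_dbl_inl h, bl_dbl_inr h, hv, zero_smul, mapDomain_zero, zero_add, add_assoc,
    ← mapDomain_add] at e
  obtain ⟨y1, n1, rfl⟩ := he x1 m1 (split_zero e).1
  have e2 : bl ψ (dblD D u v) (mapDomain .inr (x2 - bl ψ u y1)) = 0 := by
    have := h2 (mapDomain .inl y1)
    rw [bl_dbl_inl h] at this
    rw [mapDomain_sub, map_sub, sub_eq_zero]
    rw [map_add] at hx0 this
    exact add_left_cancel (hx0.trans this.symm)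
  rw [bl_dbl_inr h] at e2
  obtain ⟨y2, n2, e3⟩ := he _ (sub_mem m2 (bl_supported ψ (u_closed hu hs) n1))
    (neg_eq_zero.mp (split_zero e2).2)
  refine ⟨mapDomain .inl y1 + mapDomain .inr (-y2), split_mem.mpr ⟨n1, neg_mem n2⟩, ?_⟩
  rw [map_add, bl_dbl_inl h, bl_dbl_inr h, hv, zero_smul, mapDomain_zero, zero_add, map_neg,
    neg_neg, e3, add_assoc, ← mapDomain_add, add_sub_cancel]

theorem dbl_exOn_unit (h : IsAug ψ) {D u : ι → ι →₀ C} {v : C} (hv : IsUnit (ψ v))
    (h2 : ∀ x, bl ψ (dblD D u v) (bl ψ (dblD D u v) x) = 0) :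
    ExOn ψ (dblD D u v) Set.univ := by
  intro x _ hx0
  obtain ⟨x1, x2, rfl⟩ := split x
  obtain ⟨w, hw⟩ := hv.exists_right_inv
  have e1 : bl ψ (dblD D u v) (mapDomain .inr (w • x1)) =
      mapDomain .inl x1 + mapDomain .inr (- bl ψ D (w • x1)) := by
    rw [bl_dbl_inr h, smul_smul, hw, one_smul]
  have e2 : bl ψ (dblD D u v) (mapDomain .inr (x2 + bl ψ D (w • x1))) = 0 := by
    have := h2 (mapDomain .inr (w • x1))
    rw [e1] at this
    rw [← sub_neg_eq_add, mapDomain_sub, map_sub, sub_eq_zero]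
    rw [map_add] at hx0 this
    exact add_left_cancel (hx0.trans this.symm)
  rw [bl_dbl_inr h] at e2
  have e3 := congrArg (w • ·) (split_zero e2).1
  simp only [smul_smul, mul_comm w, hw, one_smul, smul_zero] at e3
  exact ⟨_, by simp, by rw [e1, eq_neg_of_add_eq_zero_left e3]⟩

end

theorem elim_univ : {i | Sum.elim (Set.univ : Set ι) (Set.univ : Set κ) i} = Set.univ := by
  ext (i | i) <;> rfl

theorem Pkg.dbl {D u : ι → ι →₀ C} {v : C} {top : ι} {s : Fin 2 → Set ι} (P : Pkg D top s)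
    (hu : ∀ i j, u i j ≠ 0 → dM D (D i) j ≠ 0) (h1 : ψR v = 0) (h2 : ψh v = 0)
    (h3 : ∀ i j, dM (dblD D u v) (dblD D u v i) j ∈ J2.J) :
    Pkg (dblD D u v) (.inr top) fun c => {i | Sum.elim (s c) (s c) i} where
  top0 := by
    rintro (i | i)
    · rw [dbl_lr, eC_eq_zero]
      by_contra h
      rcases dM_ne (hu i top h) with h | ⟨k, -, h⟩
      · exact h (P.top0 _)
      · exact h (P.top0 _)
    · rw [dbl_rr, P.top0, map_zero, neg_zero]
  cl c := by
    rintro (i | i) hi (j | j) h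
    · exact P.cl c i hi j (by rwa [dbl_ll] at h)
    · exact u_closed hu (P.cl c) i hi j fun e => h (by rw [dbl_lr, e, map_zero])
    · rw [dbl_rl] at h
      obtain rfl : j = i := by_contra fun e => h (single_eq_of_ne e)
      exact hi
    · exact P.cl c i hi j fun e => h (by rw [dbl_rr, e, map_zero, neg_zero])
  nt c := P.nt c
  cyc := by
    obtain ⟨z, hz, e⟩ := P.cyc
    refine ⟨fun c => mapDomain .inr (-z c), fun c => ⟨?_, ?_⟩, ?_⟩
    · simpa using (split_mem (x := 0) (s := s c)).mpr ⟨zero_mem _, neg_mem (hz c).1⟩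
    · rw [bl_dbl_inr ψR_aug, h1, map_neg, (hz c).2]; simp
    · rw [← mapDomain_single (f := Sum.inr), bl_dbl_inr ψR_aug, h1, e, neg_add, mapDomain_add]
      simp
  exh := elim_univ ▸ dbl_exOn ψh_aug h2 hu (bl_sq ψh_aug fun i j => psi_J2 _ _ (h3 i j))
    (fun _ _ _ _ => trivial) P.exh
  exc c := elim_univ ▸ dbl_exOn (ψR_aug.comp _) (by rw [RingHom.comp_apply, h1, map_zero]) hu
    (bl_sq (ψR_aug.comp _) fun i j => by
      rw [RingHom.comp_apply, ψR, psi_J2 _ _ (h3 i j), map_zero])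
    (fun _ _ _ _ => trivial) (P.exc c)
  exs c := dbl_exOn (ψR_aug.comp _) (by rw [RingHom.comp_apply, h1, map_zero]) hu
    (bl_sq (ψR_aug.comp _) fun i j => by
      rw [RingHom.comp_apply, ψR, psi_J2 _ _ (h3 i j), map_zero]) (P.cl c) (P.exs c)

/-- From a test object modulo `(2, v_1)` to an acyclic cell module. -/
theorem exists_test (M : PC J2 ι) {top : ι} {s : Fin 2 → Set ι} (P : Pkg M.D top s)
    (ht : M.deg top = (-4, -1)) : ∃ (κ : Type) (W : Cell κ) (top : κ) (s : Fin 2 → Set κ),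
      Pkg W.D top s ∧ W.deg top = (0, 0) ∧ Acyc 3 0 W := by
  obtain ⟨N, u, e, hd, hu⟩ := exists_dbl reg2 M
  have P1 := P.dbl (v := v1) hu (psi_v1 _ _) (psi_v1 _ _)
    (e ▸ fun i j => AddSubgroup.mem_sup_left (N.sq i j))
  rw [← e] at P1
  obtain ⟨N', u', e', hd', hu'⟩ := exists_dbl reg1 N
  have q : ∀ i j, dM N'.D (N'.D i) j = 0 := fun i j => AddSubgroup.mem_bot.mp (N'.sq i j)
  have P2 := P1.dbl (v := 2) hu' (psi_two _ _) (psi_two _ _)
    (e' ▸ fun i j => by rw [q]; exact zero_mem _)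
  rw [← e'] at P2
  refine ⟨_, N'.toCell, _, _, P2, ?_, (acyc_iff _).mpr ⟨?_, P2.exh, P2.exc⟩⟩
  · change N'.deg _ = _
    rw [hd', hd, ht]; rfl
  · change ExOn psi0 N'.D _
    rw [e'] at q ⊢
    exact dbl_exOn_unit psi0_aug (by rw [map_ofNat]; exact Ne.isUnit two_ne_zero)
      (bl_sq psi0_aug fun i j => by rw [q, map_zero])

theorem bl_cone_inl {S : Type} [CommRing S] (ψ : C →+* S) (D : ι → ι →₀ C) (D' : κ → κ →₀ C)
    (f : ι → κ →₀ C) (x : κ →₀ S) :
    bl ψ (coneD D D' f) (mapDomain .inl x) = mapDomain .inl (bl ψ D' x) :=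
  bl_sub ψ (D := D') (D' := coneD D D' f) (e := Sum.inl) (fun _ => rfl) x

theorem bl_cone_inr {S : Type} [CommRing S] {ψ : C →+* S} (h : IsAug ψ) (D : ι → ι →₀ C)
    (D' : κ → κ →₀ C) (f : ι → κ →₀ C) (x : ι →₀ S) : bl ψ (coneD D D' f) (mapDomain .inr x) =
      mapDomain .inl (bl ψ f x) + mapDomain .inr (- bl ψ D x) := by
  induction x using Finsupp.induction_linear with
  | zero => simp
  | add x y hx hy => simp only [mapDomain_add, map_add, hx, hy, neg_add]; abel
  | single i c =>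
    simp only [mapDomain_single, bl_single, coneD, map_sub, bm_mapDomain, bm_eM h, smul_sub,
      mapDomain_smul, ← neg_smul]
    simp [sub_eq_add_neg]

/-- If the cone of the unit map of `Z` is torsion at both primes, then `Z` is not local. -/
theorem not_local {W : Cell ι} {top : ι} {s : Fin 2 → Set ι} (P : Pkg W.D top s)
    (ht : W.deg top = (0, 0)) (hW : Acyc 3 0 W) {Z : Cell κ} (η : Map unit Z)
    (hT : ∀ c, Tor (rr c) ψR η.cone.D) : ¬ Local 3 0 Z := by
  classical
  intro hZ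
  have c0 : dM Z.D (η.f ()) = 0 := by rw [η.comm]; exact map_zero _
  let g : Map W Z := ⟨fun i => if i = top then η.f () else 0, fun i j => by
      split_ifs with h
      · rw [h, ht]; exact η.hom () j
      · exact Hom_zero _, fun i => by
      rw [show dM Z.D (if i = top then η.f () else 0) = 0 by split_ifs; exacts [c0, map_zero _]]
      ext1 j
      rw [lc_apply]
      refine (Finset.sum_eq_zero fun k _ => ?_).symm
      split_ifs with h
      · rw [h, P.top0, zero_mul]
      · exact mul_zero _⟩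
  obtain ⟨h, -, hh⟩ := hZ ι W hW g
  set ω := bm ψR (η.f ()) with hω
  have hbl : ∀ x : Unit →₀ RR, bl ψR η.f x = x () • ω := fun x => by
    rw [Finsupp.unique_single x, bl_single]; simp [hω]
  have hb0 : ∀ x : Unit →₀ RR, bl ψR unit.D x = 0 := fun x => by
    rw [Finsupp.unique_single x, bl_single]; simp [unit]
  have key : ∀ x, bl ψR Z.D (bl ψR h x) + bl ψR h (bl ψR W.D x) = x top • ω := by
    intro x
    induction x using Finsupp.induction_linear with
    | zero => simp
    | add x y hx hy => simp only [map_add, Finsupp.add_apply, add_smul, ← hx, ← hy]; abel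
    | single i c =>
      have := congrArg (bm ψR) (hh i)
      rw [map_add, bm_dM ψR_aug, bm_lc, bm_eM ψR_aug] at this
      rw [bl_single, bl_single, map_smul, map_smul, ← smul_add, ← this]
      by_cases e : i = top
      · simp [g, e, hω]
      · simp [g, e]
  have h1 : ∀ c w, bl ψR Z.D w = 0 → ∃ τ, rr c τ ≠ 0 ∧ ∃ (ρ : RR) (y : κ →₀ RR),
      τ • w = ρ • ω + bl ψR Z.D y := by
    intro c w hw
    obtain ⟨τ, hτ, y, e⟩ := hT c (mapDomain .inl w) (by
      rw [Map.cone, bl_cone_inl, hw, mapDomain_zero])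
    obtain ⟨y1, y2, rfl⟩ := split y
    rw [Map.cone, map_add, bl_cone_inl, bl_cone_inr ψR_aug, hb0, hbl, neg_zero, mapDomain_zero,
      add_zero, ← mapDomain_add, ← mapDomain_smul] at e
    exact ⟨τ, hτ, y2 (), y1, by rw [mapDomain_injective Sum.inl_injective e, add_comm]⟩
  have h2 : ∀ (ρ : RR) (y : κ →₀ RR), ρ • ω = bl ψR Z.D y → ρ = 0 := by
    intro ρ y e
    obtain ⟨τ, hτ, y', e'⟩ := hT 0 (mapDomain .inl (-y) + mapDomain .inr (single () ρ)) (by
      rw [Map.cone, map_add, bl_cone_inl, bl_cone_inr ψR_aug, hb0, hbl, single_eq_same, e, map_neg,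
        ← add_assoc, ← mapDomain_add]
      simp)
    obtain ⟨y1, y2, rfl⟩ := split y'
    rw [Map.cone, map_add, bl_cone_inl, bl_cone_inr ψR_aug, hb0] at e'
    have := DFunLike.congr_fun e' (.inr ())
    simp only [Finsupp.smul_apply, Finsupp.add_apply, md_lr, md_rr, single_eq_same, zero_add,
      neg_zero, Finsupp.zero_apply, smul_eq_mul, mul_eq_zero] at this
    exact this.resolve_left fun h0 => hτ (by rw [h0, map_zero])
  obtain ⟨z, hz, ez⟩ := P.cyc
  have h3 : ∀ c, ∃ τ, rr c τ ≠ 0 ∧ ∃ y, τ • bl ψR h (z c) = bl ψR Z.D y := fun c =>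
    (res c).krull (bl ψR W.D) (bl ψR Z.D) (bl ψR h) ω (supported RR RR (s c))
      (fun x hx => by rw [key, (mem_supported' _ _).mp hx top (P.nt c), zero_smul])
      ((res c).divis (P.cl c) (bl_sq ψR_aug fun i j => by rw [W.sq]; exact map_zero _) (P.exs c))
      (h1 c) h2 _ (hz c).1 (hz c).2
  obtain ⟨τ, hτ, y, e⟩ := h3 0
  obtain ⟨σ, hσ, y', e'⟩ := h3 1
  have e0 := key (single top 1)
  rw [ez, map_add, single_eq_same, one_smul] at e0
  have := h2 (τ * σ) ((τ * σ) • bl ψR h (single top 1) + σ • y + τ • y') (by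
    simp only [map_add, map_smul]
    linear_combination (norm := module) (-(τ * σ)) • e0 + σ • e + τ • e')
  rcases mul_eq_zero.mp this with h0 | h0
  · exact hτ (by rw [h0, map_zero])
  · exact hσ (by rw [h0, map_zero])

end

end Pool.Agent.Tel
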