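import Pool.Agent.Lib.MP_3a30fb_gt.Cells
import Pool.Agent.Lib.MP_3a30fb_gt.Ideals

/-!
Base change of cell modules, cell modules modulo an ideal, and the doubling construction.
-/

namespace Pool.Agent.Tel

open Finsupp

noncomputable section

variable {ι κ : Type} {S : Type} [CommRing S]

/-- Apply `ψ` to the coefficients. -/
def bm (ψ : C →+* S) : (ι →₀ C) →+ (ι →₀ S) := mapRange.addMonoidHom ψ.toAddMonoidHom

/-- The base change of a matrix. -/
def bl (ψ : C →+* S) (f : ι → κ →₀ C) : (ι →₀ S) →ₗ[S] (κ →₀ S) :=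
  linearCombination S fun i => bm ψ (f i)

theorem bm_apply (ψ : C →+* S) (x : ι →₀ C) (i : ι) : bm ψ x i = ψ (x i) := rfl

theorem bm_single (ψ : C →+* S) (i : ι) (c : C) : bm ψ (single i c) = single i (ψ c) :=
  mapRange_single (hf := map_zero _)

theorem bm_smul (ψ : C →+* S) (c : C) (x : ι →₀ C) : bm ψ (c • x) = ψ c • bm ψ x := by
  ext1 i; simp [bm_apply]

theorem bl_single (ψ : C →+* S) (f : ι → κ →₀ C) (i : ι) (s : S) :
    bl ψ f (single i s) = s • bm ψ (f i) := linearCombination_single _ _ _

theorem bm_mapDomain (ψ : C →+* S) (e : ι → κ) (x : ι →₀ C) :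
    bm ψ (mapDomain e x) = mapDomain e (bm ψ x) := by
  induction x using Finsupp.induction_linear with
  | zero => simp
  | add x y hx hy => simp only [mapDomain_add, map_add, hx, hy]
  | single i c => simp only [mapDomain_single, bm_single]

theorem bd_eq (ψ : C →+* S) (D : ι → ι →₀ C) (x : ι →₀ S) : bd ψ D x = bl ψ D x := by
  rw [bd, bl, linearCombination_apply]
  refine Finsupp.sum_congr fun i _ => ?_
  induction D i using Finsupp.induction_linear with
  | zero => simp
  | add x y hx hy =>
    rw [sum_add_index' (by simp) (by intros; simp [mul_add]), hx, hy, map_add, smul_add]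
  | single j c => rw [sum_single_index (by simp), bm_single, smul_single, smul_eq_mul]

theorem bm_lc (ψ : C →+* S) (f : ι → κ →₀ C) (x : ι →₀ C) :
    bm ψ (lc f x) = bl ψ f (bm ψ x) := by
  induction x using Finsupp.induction_linear with
  | zero => simp
  | add x y hx hy => simp only [map_add, hx, hy]
  | single i c => rw [linearCombination_single, bm_smul, bm_single, bl_single]

theorem bm_eM {ψ : C →+* S} (h : IsAug ψ) (x : ι →₀ C) : bm ψ (eM x) = bm ψ x := by
  ext1 i; exact h.e _

theorem bm_dM {ψ : C →+* S} (h : IsAug ψ) (D : ι → ι →₀ C) (x : ι →₀ C) :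
    bm ψ (dM D x) = bl ψ D (bm ψ x) := by
  induction x using Finsupp.induction_linear with
  | zero => simp
  | add x y hx hy => simp only [map_add, hx, hy]
  | single i c =>
    rw [dM_single, map_add, bm_single, bm_single, bm_smul, bl_single, h.d, h.e, single_zero,
      zero_add]

theorem bl_sq {ψ : C →+* S} (h : IsAug ψ) {D : ι → ι →₀ C} (hD : ∀ i j, ψ (dM D (D i) j) = 0)
    (x : ι →₀ S) : bl ψ D (bl ψ D x) = 0 := by
  induction x using Finsupp.induction_linear with
  | zero => simp
  | add x y hx hy => simp only [map_add, hx, hy, add_zero]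
  | single i c =>
    rw [bl_single, map_smul, ← bm_dM h, show bm ψ (dM D (D i)) = 0 from Finsupp.ext (hD i),
      smul_zero]

theorem bl_sub (ψ : C →+* S) {D : ι → ι →₀ C} {D' : κ → κ →₀ C} {e : ι → κ}
    (h : ∀ i, D' (e i) = mapDomain e (D i)) (x : ι →₀ S) :
    bl ψ D' (mapDomain e x) = mapDomain e (bl ψ D x) := by
  induction x using Finsupp.induction_linear with
  | zero => simp
  | add x y hx hy => simp only [mapDomain_add, map_add, hx, hy]
  | single i c => simp only [mapDomain_single, bl_single, h, bm_mapDomain, mapDomain_smul]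

theorem dM_smul (D : ι → ι →₀ C) (c : C) (x : ι →₀ C) :
    dM D (c • x) = dC c • x + eC c • dM D x := by
  induction x using Finsupp.induction_linear with
  | zero => simp
  | add x y hx hy => simp only [smul_add, map_add, hx, hy]; abel
  | single i a =>
    simp only [smul_single, dM_single, smul_eq_mul, dC_mul, single_add, smul_add, map_mul,
      mul_smul, add_assoc]

theorem dM_dM (D : ι → ι →₀ C) (x : ι →₀ C) : dM D (dM D x) = lc (fun i => dM D (D i)) x := by
  induction x using Finsupp.induction_linear with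
  | zero => simp
  | add x y hx hy => simp only [map_add, hx, hy]
  | single i c =>
    simp only [dM_single, map_add, dM_smul, dC_dC, dC_eC, eC_eC, linearCombination_single,
      single_zero, neg_smul]
    abel

theorem eM_lc (f : ι → κ →₀ C) (x : ι →₀ C) : eM (lc f x) = lc (fun i => eM (f i)) (eM x) := by
  induction x using Finsupp.induction_linear with
  | zero => simp
  | add x y hx hy => simp only [map_add, hx, hy]
  | single i c => simp only [linearCombination_single, eM_smul, eM_single]

theorem lc_apply (f : ι → κ →₀ C) (x : ι →₀ C) (j : κ) :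
    lc f x j = ∑ i ∈ x.support, x i * f i j := by
  rw [linearCombination_apply, Finsupp.sum, Finsupp.finsetSum_apply]; rfl

theorem dM_apply (D : ι → ι →₀ C) (x : ι →₀ C) (j : ι) :
    dM D x j = dC (x j) + lc D (eM x) j := rfl

theorem lc_ne {f : ι → κ →₀ C} {x : ι →₀ C} {j : κ} (h : lc f x j ≠ 0) :
    ∃ i, x i ≠ 0 ∧ f i j ≠ 0 := by
  rw [lc_apply] at h
  obtain ⟨i, -, hi⟩ := Finset.exists_ne_zero_of_sum_ne_zero h
  exact ⟨i, left_ne_zero_of_mul hi, right_ne_zero_of_mul hi⟩

theorem dM_ne {D : ι → ι →₀ C} {x : ι →₀ C} {j : ι} (h : dM D x j ≠ 0) :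
    x j ≠ 0 ∨ ∃ k, x k ≠ 0 ∧ D k j ≠ 0 := by
  by_cases h0 : x j = 0
  · rw [dM_apply, h0, map_zero, zero_add] at h
    obtain ⟨k, hk, hk'⟩ := lc_ne h
    exact Or.inr ⟨k, fun e => hk (by rw [eM_apply, e, map_zero]), hk'⟩
  · exact Or.inl h0

theorem lc_hom {f : ι → κ →₀ C} {x : ι →₀ C} {g : ι → ℤ × ℤ} {g' : κ → ℤ × ℤ} {p q : ℤ × ℤ}
    (hx : ∀ i, x i ∈ Hom (p - g i)) (hf : ∀ i j, f i j ∈ Hom (g i - g' j + q)) (j : κ) :
    lc f x j ∈ Hom (p - g' j + q) := by
  rw [lc_apply]
  exact Hom_sum fun i _ => Hom_congr (Hom_mul (hx i) (hf i j)) (by abel)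

theorem dM_hom {D : ι → ι →₀ C} {x : ι →₀ C} {g : ι → ℤ × ℤ} {p : ℤ × ℤ}
    (hx : ∀ i, x i ∈ Hom (p - g i)) (hD : ∀ i j, D i j ∈ Hom (g i - g j - (1, 0))) (j : ι) :
    dM D x j ∈ Hom (p - g j - (1, 0)) := by
  rw [dM_apply]
  refine Hom_add (Hom_dC (hx j)) (Hom_congr (lc_hom (q := -(1, 0)) (g := g) (g' := g)
    (fun i => Hom_eC (hx i)) (fun i j => Hom_congr (hD i j) (by abel)) j) (by abel))

/-- Vectors with all coefficients in the ideal. -/
def VJ (J : DId) (ι : Type) : AddSubgroup (ι →₀ C) where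
  carrier := {x | ∀ j, x j ∈ J.J}
  zero_mem' _ := zero_mem _
  add_mem' hx hy j := add_mem (hx j) (hy j)
  neg_mem' hx j := neg_mem (hx j)

theorem VJ_mapDomain {J : DId} {e : ι → κ} (he : Function.Injective e) {x : ι →₀ C}
    (hx : x ∈ VJ J ι) : mapDomain e x ∈ VJ J κ := fun j => by
  by_cases h : j ∈ Set.range e
  · obtain ⟨i, rfl⟩ := h
    rw [mapDomain_apply he]; exact hx i
  · rw [mapDomain_of_notMem_range _ _ h]; exact zero_mem _

theorem VJ_lc_left {J : DId} (f : ι → κ →₀ C) {x : ι →₀ C} (hx : x ∈ VJ J ι) :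
    lc f x ∈ VJ J κ := fun j => by
  rw [lc_apply]; exact sum_mem fun i _ => J.mul_right _ _ (hx i)

theorem VJ_lc_right {J : DId} {f : ι → κ →₀ C} (hf : ∀ i, f i ∈ VJ J κ) (x : ι →₀ C) :
    lc f x ∈ VJ J κ := fun j => by
  rw [lc_apply]; exact sum_mem fun i _ => J.mul_left _ _ (hf i j)

theorem VJ_eM {J : DId} {x : ι →₀ C} (hx : x ∈ VJ J ι) : eM x ∈ VJ J ι := fun j => J.e _ (hx j)

theorem VJ_dM {J : DId} (D : ι → ι →₀ C) {x : ι →₀ C} (hx : x ∈ VJ J ι) : dM D x ∈ VJ J ι :=
  fun j => add_mem (J.d _ (hx j)) (VJ_lc_left D (VJ_eM hx) j)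

/-- A cell module modulo the ideal `J`. -/
structure PC (J : DId) (ι : Type) where
  deg : ι → ℤ × ℤ
  D : ι → ι →₀ C
  hom : ∀ i j, D i j ∈ Hom (deg i - deg j - (1, 0))
  wf : WellFounded fun j i => D i j ≠ 0
  sq : ∀ i, dM D (D i) ∈ VJ J ι

def PC.toCell (M : PC J0 ι) : Cell ι where
  deg := M.deg
  D := M.D
  hom := M.hom
  wf := M.wf
  sq i := Finsupp.ext fun j => AddSubgroup.mem_bot.mp (M.sq i j)

def Cell.toPC (M : Cell ι) : PC J0 ι where
  deg := M.deg
  D := M.D
  hom := M.hom
  wf := M.wf
  sq i := by rw [M.sq]; exact zero_mem _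

/-- The matrix of the doubled module. -/
def dblD (D u : ι → ι →₀ C) (v : C) : ι ⊕ ι → ι ⊕ ι →₀ C
  | .inl i => mapDomain .inl (D i) + mapDomain .inr (eM (u i))
  | .inr i => single (.inl i) v - mapDomain .inr (eM (D i))

theorem dM_dbl_inl (D u : ι → ι →₀ C) (v : C) (x : ι →₀ C) :
    dM (dblD D u v) (mapDomain .inl x) =
      mapDomain .inl (dM D x) + mapDomain .inr (eM (lc u x)) := by
  induction x using Finsupp.induction_linear with
  | zero => simp
  | add x y hx hy => simp only [mapDomain_add, map_add, hx, hy]; abel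
  | single i c =>
    simp only [mapDomain_single, dM_single, dblD, eM_smul, linearCombination_single,
      mapDomain_add, mapDomain_smul, smul_add, add_assoc]

theorem dM_dbl_inr (D u : ι → ι →₀ C) (v : C) (x : ι →₀ C) :
    dM (dblD D u v) (mapDomain .inr (eM x)) =
      mapDomain .inl (lc (fun i => single i v) x) - mapDomain .inr (eM (dM D x)) := by
  induction x using Finsupp.induction_linear with
  | zero => simp
  | add x y hx hy => simp only [mapDomain_add, map_add, hx, hy]; abel
  | single i c =>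
    simp only [mapDomain_single, dM_single, eM_single, dblD, eC_eC, dC_eC, map_add, eM_smul,
      linearCombination_single, mapDomain_add, mapDomain_smul, smul_sub, single_neg]
    abel

theorem md_ll {α : Type} [AddCommMonoid α] (x : ι →₀ α) (i : ι) :
    mapDomain (Sum.inl : ι → ι ⊕ κ) x (.inl i) = x i := mapDomain_apply Sum.inl_injective _ _

theorem md_rr {α : Type} [AddCommMonoid α] (x : κ →₀ α) (i : κ) :
    mapDomain (Sum.inr : κ → ι ⊕ κ) x (.inr i) = x i := mapDomain_apply Sum.inr_injective _ _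

theorem md_lr {α : Type} [AddCommMonoid α] (x : ι →₀ α) (i : κ) :
    mapDomain (Sum.inl : ι → ι ⊕ κ) x (.inr i) = 0 := mapDomain_of_notMem_range _ _ (by simp)

theorem md_rl {α : Type} [AddCommMonoid α] (x : κ →₀ α) (i : ι) :
    mapDomain (Sum.inr : κ → ι ⊕ κ) x (.inl i) = 0 := mapDomain_of_notMem_range _ _ (by simp)

theorem dbl_ll (D u : ι → ι →₀ C) (v : C) (i j : ι) : dblD D u v (.inl i) (.inl j) = D i j := by
  simp [dblD, md_ll, md_rl]

theorem dbl_lr (D u : ι → ι →₀ C) (v : C) (i j : ι) :
    dblD D u v (.inl i) (.inr j) = eC (u i j) := by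
  simp [dblD, md_lr, md_rr, eM_apply]

theorem dbl_rl (D u : ι → ι →₀ C) (v : C) (i j : ι) :
    dblD D u v (.inr i) (.inl j) = single i v j := by
  simp [dblD, md_rl, single_apply_left Sum.inl_injective]

theorem dbl_rr (D u : ι → ι →₀ C) (v : C) (i j : ι) :
    dblD D u v (.inr i) (.inr j) = - eC (D i j) := by
  simp [dblD, md_rr, eM_apply]

theorem lc_single_apply (v : C) (x : ι →₀ C) (j : ι) :
    lc (fun i => single i v) x j = x j * v := by
  induction x using Finsupp.induction_linear with
  | zero => simp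
  | add x y hx hy => simp only [map_add, Finsupp.add_apply, hx, hy, add_mul]
  | single i c =>
    rw [linearCombination_single, smul_single, smul_eq_mul]
    by_cases h : j = i
    · simp [h]
    · simp [single_eq_of_ne h]

theorem exists_dbl {J' J : DId} {v : C} {q : ℤ × ℤ} (h : Reg J' J v q) (M : PC J ι) :
    ∃ (N : PC J' (ι ⊕ ι)) (u : ι → ι →₀ C), N.D = dblD M.D u v ∧
      (∀ i, N.deg (.inr i) = M.deg i + q + (1, 0)) ∧
      ∀ i j, u i j ≠ 0 → dM M.D (M.D i) j ≠ 0 := by
  classical
  have hΩ : ∀ i j, dM M.D (M.D i) j ∈ Hom (M.deg i - (1, 0) - M.deg j - (1, 0)) := fun i j =>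
    dM_hom (fun k => Hom_congr (M.hom i k) (by abel)) M.hom j
  choose y hy hy' using fun i j => h.div _ _ (M.sq i j) (hΩ i j)
  let u : ι → ι →₀ C := fun i => onFinset (dM M.D (M.D i)).support
    (fun j => if dM M.D (M.D i) j = 0 then 0 else - y i j) fun j hj => by
      rw [mem_support_iff]; exact fun e => hj (if_pos e)
  have hu : ∀ i j, u i j = if dM M.D (M.D i) j = 0 then 0 else - y i j := fun _ _ => rfl
  have hu0 : ∀ i j, u i j ≠ 0 → dM M.D (M.D i) j ≠ 0 := fun i j hj e => hj (by rw [hu, if_pos e])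
  have hu1 : ∀ i, v • u i + dM M.D (M.D i) ∈ VJ J' ι := fun i j => by
    rw [Finsupp.add_apply, Finsupp.smul_apply, hu]
    split_ifs with e
    · rw [e]; simp
    · convert hy' i j using 1; simp only [smul_eq_mul]; noncomm_ring
  have hv : ∀ x : ι →₀ C, v • x - lc (fun i => single i v) x ∈ VJ J' ι := fun x j => by
    rw [Finsupp.sub_apply, lc_single_apply]; exact h.comm _
  refine ⟨⟨Sum.elim M.deg fun i => M.deg i + q + (1, 0), dblD M.D u v, ?_, ?_, ?_⟩, u, rfl,
    fun _ => rfl, hu0⟩
  · rintro (a | a) (b | b)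
    · rw [dbl_ll]; exact M.hom a b
    · rw [dbl_lr, hu]
      split_ifs
      · rw [map_zero]; exact Hom_zero _
      · exact Hom_congr (Hom_eC (Hom_neg (hy a b)))
          (by simp only [Sum.elim_inl, Sum.elim_inr]; abel)
    · rw [dbl_rl, single_apply]
      split_ifs with e
      · exact Hom_congr h.hom (by simp only [Sum.elim_inl, Sum.elim_inr, e]; abel)
      · exact Hom_zero _
    · rw [dbl_rr]
      exact Hom_congr (Hom_neg (Hom_eC (M.hom a b))) (by simp only [Sum.elim_inr]; abel)
  · refine Subrelation.wf (fun {a b} hab => ?_) (InvImage.wf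
      (Sum.elim (fun i => (i, 0)) fun i => (i, 1)) (M.wf.transGen.prod_lex Nat.lt_wfRel.wf))
    rcases a with a | a <;> rcases b with b | b
    · exact .left _ _ (.single (by rwa [dbl_ll] at hab))
    · rw [dbl_rl] at hab
      obtain rfl : a = b := by_contra fun e => hab (single_eq_of_ne e)
      exact .right _ Nat.zero_lt_one
    · rw [dbl_lr] at hab
      rcases dM_ne (hu0 b a fun e => hab (by rw [e, map_zero])) with h1 | ⟨k, h1, h2⟩
      · exact .left _ _ (.single h1)
      · exact .left _ _ (.tail (.single h2) h1)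
    · exact .left _ _ (.single fun e => hab (by rw [dbl_rr, e, map_zero, neg_zero]))
  · rintro (i | i)
    · have e1 : dM M.D (M.D i) + lc (fun i => single i v) (u i) ∈ VJ J' ι := by
        convert sub_mem (hu1 i) (hv (u i)) using 1; abel
      have e2 : lc u (M.D i) - dM M.D (u i) ∈ VJ J' ι := by
        intro j
        apply h.reg
        have a1 := VJ_lc_left u (hv (M.D i))
        have a2 := VJ_lc_right hu1 (M.D i)
        have a3 := VJ_dM M.D (hu1 i)
        have a4 : dC v • u i ∈ VJ J' ι := fun j => J'.mul_right _ _ h.dv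
        have b1 : lc u (lc (fun i => single i v) (M.D i)) = lc (fun i => v • u i) (M.D i) := by
          induction M.D i using Finsupp.induction_linear with
          | zero => simp
          | add x y hx hy => simp only [map_add, hx, hy]
          | single i c => simp only [linearCombination_single, map_smul]
        have b2 : lc (fun i => v • u i + dM M.D (M.D i)) (M.D i) =
            lc (fun i => v • u i) (M.D i) + dM M.D (dM M.D (M.D i)) := by
          rw [dM_dM]
          induction M.D i using Finsupp.induction_linear with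
          | zero => simp
          | add x y hx hy => simp only [map_add, hx, hy]; abel
          | single i c => simp
        rw [map_sub, map_smul, b1] at a1
        rw [b2] at a2
        rw [map_add, dM_smul, h.ev] at a3
        have := add_mem (sub_mem (add_mem a1 a2) a3) a4
        convert this j using 1
        simp only [Finsupp.add_apply, Finsupp.sub_apply, Finsupp.smul_apply, smul_eq_mul]
        noncomm_ring
      rw [dblD, map_add, dM_dbl_inl, dM_dbl_inr]
      convert add_mem (VJ_mapDomain (κ := ι ⊕ ι) Sum.inl_injective e1)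
        (VJ_mapDomain (κ := ι ⊕ ι) Sum.inr_injective (VJ_eM e2)) using 1
      simp only [mapDomain_add, map_sub, mapDomain_sub]; abel
    · have e0 : (single (Sum.inl i) (dC v) : ι ⊕ ι →₀ C) ∈ VJ J' _ := fun j => by
        rw [single_apply]; split_ifs; exacts [h.dv, zero_mem _]
      rw [dblD, map_sub, dM_dbl_inr, dM_single, dblD, h.ev]
      convert add_mem e0 (add_mem (VJ_mapDomain (κ := ι ⊕ ι) Sum.inl_injective (hv (M.D i)))
        (VJ_mapDomain (κ := ι ⊕ ι) Sum.inr_injective (VJ_eM (hu1 i)))) using 1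
      simp only [mapDomain_add, map_add, mapDomain_sub, mapDomain_smul, eM_smul, h.ev, smul_add]
      abel

end

end Pool.Agent.Tel
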