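import Pool.Agent.Lib.MP_3a30fb_gt.Coord
import Pool.Agent.Lib.MP_3a30fb_gt.Lam

/-!
Maps of differential graded algebras from the cobar algebra to commutative rings.
-/

namespace Pool.Agent.Tel

open MvPolynomial Finset DirectSum

noncomputable section

theorem sl_inj (i : ℕ) : Function.Injective fun l : ℕ => (l + 1, i - 1) := fun a b h => by
  simpa using h

/-- Reduction modulo 2 and all generators except `t_i`. -/
def red (i : ℕ) : PZ →+* PT :=
  (killCompl (sl_inj i)).toRingHom.comp (MvPolynomial.map (PadicInt.toZMod (p := 2)))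

theorem red_X (i : ℕ) (p : ℕ × ℕ) :
    red i (X p) = if p.1 ≠ 0 ∧ p.2 = i - 1 then X (p.1 - 1) else 0 := by
  simp only [red, RingHom.comp_apply, map_X, AlgHom.toRingHom_eq_coe, RingHom.coe_coe]
  split_ifs with h
  · have : (X p : MvPolynomial (ℕ × ℕ) (ZMod 2)) =
        rename (fun l : ℕ => (l + 1, i - 1)) (X (p.1 - 1)) := by
      rw [rename_X]; congr 1; ext
      · simp; omega
      · exact h.2
    rw [this, killCompl_rename_app]
  · rw [killCompl, aeval_X, dif_neg]
    rintro ⟨l, rfl⟩
    simp at h

theorem red_C (i : ℕ) (r : ℤ_[2]) :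
    red i (MvPolynomial.C r) = MvPolynomial.C (PadicInt.toZMod r) := by
  simp [red]

theorem red_two (i : ℕ) : red i 2 = 0 := by
  rw [map_ofNat]; exact CharTwo.two_eq_zero

theorem red_v (i n : ℕ) : red i (X (0, n)) = 0 := by simp [red_X]

theorem red_vv (i j n : ℕ) : red i (crd (vv (mm j) n)) = 0 := by
  obtain ⟨y, hy, e⟩ := vv_mem (red i) (red_two i) (red_v i) j n
  rw [← e, crd_ev, hy]

theorem renY_C (f : ℕ → ℕ) (r : ℤ_[2]) : renY f (MvPolynomial.C r) = MvPolynomial.C r :=
  algHom_C _ _

theorem renY_v (f : ℕ → ℕ) (n : ℕ) : renY f (X (0, n)) = crd (vv (mm (f 0)) (n + 1)) := by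
  rw [renY, aeval_X, ev_X_zero, map_vv, ren_mm]

theorem renY_t (f : ℕ → ℕ) (l n : ℕ) :
    renY f (X (l + 1, n)) = crd (tt (mm (f l)) (mm (f (l + 1))) (n + 1)) := by
  rw [renY, aeval_X, ev_X_succ, map_tt, ren_mm, ren_mm]

theorem crd_t (l n : ℕ) : crd (tt (mm l) (mm (l + 1)) (n + 1)) = X (l + 1, n) := by
  rw [← ev_X_succ, crd_ev]

theorem red_shift (i s : ℕ) (y : PZ) : red i (renY (· + s) y) = rename (· + s) (red i y) := by
  induction y using MvPolynomial.induction_on with
  | C r => rw [renY_C, red_C, rename_C]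
  | add x y hx hy => simp only [map_add, hx, hy]
  | mul_X x p hx =>
    rw [map_mul, map_mul, map_mul, map_mul, hx]
    refine congrArg (HMul.hMul _) ?_
    rcases p with ⟨_ | l, n⟩
    · rw [renY_v, red_vv, red_v, map_zero]
    · rw [renY_t, show l + 1 + s = l + s + 1 by omega, crd_t, red_X, red_X]
      by_cases h : n = i - 1 <;> simp [h]

theorem mono_min (s : ℕ) : Monotone fun j => min j s := fun _ _ h => min_le_min_right s h

theorem red_trunc (i s : ℕ) (y : PZ) : red i (renY (min · s) y) = tr s (red i y) := by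
  induction y using MvPolynomial.induction_on with
  | C r => rw [renY_C, red_C, algHom_C]; rfl
  | add x y hx hy => simp only [map_add, hx, hy]
  | mul_X x p hx =>
    rw [map_mul, map_mul, map_mul, map_mul, hx]
    refine congrArg (HMul.hMul _) ?_
    rcases p with ⟨_ | l, n⟩
    · rw [renY_v, red_vv, red_v, map_zero]
    · rw [renY_t, red_X]
      by_cases hl : l < s
      · rw [min_eq_left hl.le, min_eq_left (by omega), crd_t, red_X]
        by_cases h : n = i - 1 <;> simp [h, tr, hl]
      · rw [min_eq_right (by omega), min_eq_right (by omega), tt_self rfl, ← map_zero ev, crd_ev]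
        by_cases h : n = i - 1 <;> simp [h, tr, hl]

theorem ren_min {s : ℕ} {x : Amb} (hx : x ∈ A s) : ren (min · s) x = x := by
  conv_rhs => rw [← ren_id x]
  exact ren_congr (fun j hj => min_eq_left hj) hx

theorem red_mem (i : ℕ) {s : ℕ} {x : Amb} (hx : x ∈ A s) : red i (crd x) ∈ VV s := by
  obtain ⟨y, rfl⟩ := exists_ev hx
  rw [← ren_min hx, crd_ren (mono_min s), red_trunc]
  exact tr_mem _ _

theorem red_yt (i l n : ℕ) (hi : 1 ≤ i) :
    red i (yt l (n + 1)) = if n + 1 = i then X l else 0 := by
  rw [yt, red_X]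
  by_cases h : n + 1 = i
  · rw [if_pos h, if_pos ⟨by simp, by simp; omega⟩]; rfl
  · rw [if_neg h, if_neg fun h' => h (by have := h'.2; simp at this; omega)]

/-- The ideal of `2^i`-th powers. -/
def II (i : ℕ) : Ideal PT := Ideal.span (Set.range fun l : ℕ => (X l : PT) ^ 2 ^ i)

theorem red_tt02 (i n l : ℕ) (hi : 1 ≤ i) : red i (crd (tt (mm l) (mm (l + 2)) (n + 1))) -
    (if n + 1 = i then X l + X (l + 1) else 0) ∈ II i := by
  obtain ⟨y, hy, e⟩ := tt02 (red i) (red_two i) (red_v i) (n + 1)
  have e1 : tt (mm l) (mm (l + 2)) (n + 1) = ren (· + l) (ev y) := by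
    rw [e, map_tt, ren_mm, ren_mm, zero_add, add_comm]
  rw [e1, crd_ren (fun _ _ h => Nat.add_le_add_right h l), red_shift, hy, map_pw, map_pw, pw_succ,
    Finset.sum_range_succ, Nat.sub_self, red_yt _ _ _ hi, red_yt _ _ _ hi, yt, yt]
  simp only [map_one, one_mul, one_pow, mul_one]
  have : ∑ k ∈ range n, rename (· + l) (red i (yt 0 (k + 1))) *
      rename (· + l) (red i (yt 1 (n - k))) ^ 2 ^ (k + 1) ∈ II i := by
    refine sum_mem fun k hk => ?_
    obtain ⟨m, hm⟩ : ∃ m, n - k = m + 1 := ⟨n - k - 1, by have := mem_range.mp hk; omega⟩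
    rw [hm, red_yt _ _ _ hi, red_yt _ _ _ hi]
    by_cases h : k + 1 = i
    · refine Ideal.mul_mem_left _ _ ?_
      split_ifs
      · rw [rename_X, h]; exact Ideal.subset_span ⟨_, rfl⟩
      · simp
    · simp [h]
  convert this using 1
  split_ifs
  · simp only [rename_X, zero_add, add_comm 1 l]; ring
  · simp

theorem face_mono (k : ℕ) : Monotone fun j => if j < k then j else j + 1 := fun a b h => by
  dsimp only; split_ifs <;> omega

theorem red_face (i k : ℕ) (hi : 1 ≤ i) (y : PZ) :
    red i (renY (fun j => if j < k then j else j + 1) y) - fc k (red i y) ∈ II i := by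
  induction y using MvPolynomial.induction_on with
  | C r => rw [renY_C, red_C, algHom_C]; simp
  | add x y hx hy =>
    simp only [map_add]
    convert add_mem hx hy using 1; ring
  | mul_X x p hx =>
    have : red i (renY (fun j => if j < k then j else j + 1) (X p)) - fc k (red i (X p)) ∈
        II i := by
      rcases p with ⟨_ | l, n⟩
      · rw [renY_v, red_vv, red_v, map_zero, sub_zero]; exact zero_mem _
      · have e := red_yt i l n hi
        rw [yt] at e
        rw [renY_t, e]
        by_cases h1 : l + 1 < k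
        · rw [if_pos (by omega), if_pos h1, crd_t, e]
          split_ifs <;> simp [fc, h1]
        by_cases h2 : l + 1 = k
        · rw [if_pos (by omega), if_neg h1]
          convert red_tt02 i n l hi using 2
          split_ifs <;> simp [fc, h2]
        · have e' := red_yt i (l + 1) n hi
          rw [yt] at e'
          rw [if_neg (by omega), if_neg h1, crd_t, e']
          split_ifs <;> simp [fc, h1, h2]
    simp only [map_mul]
    convert add_mem (Ideal.mul_mem_right (red i (renY (fun j => if j < k then j else j + 1) (X p)))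
      _ hx) (Ideal.mul_mem_left _ (fc k (red i x)) this) using 1
    ring

variable {S : Type} [CommRing S] [Algebra (ZMod 2) S]

theorem crd_add {s : ℕ} {x y : Amb} (hx : x ∈ A s) (hy : y ∈ A s) :
    crd (x + y) = crd x + crd y := by
  obtain ⟨x, rfl⟩ := exists_ev hx
  obtain ⟨y, rfl⟩ := exists_ev hy
  rw [← map_add, crd_ev, crd_ev, crd_ev]

theorem crd_zero : crd 0 = 0 := by rw [← map_zero ev, crd_ev]

def psiS (i : ℕ) (θ : ℕ → S) (s : ℕ) : Cs s →+ S where
  toFun a := Lam θ s (red i (crd a.1))
  map_zero' := by simp [crd_zero]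
  map_add' a b := by rw [Cs.val_add, crd_add a.2 b.2, map_add, map_add]

/-- The ring map attached to a twisting cochain `θ` on the quotient `F_2[t_i]`. -/
def psi (i : ℕ) (θ : ℕ → S) : C →+* S :=
  liftC (psiS i θ) (by
    change Lam θ 0 (red i (crd 1)) = 1
    rw [← map_one ev, crd_ev, map_one]
    simpa [mon] using Lam_mon θ 0 0) fun s s' a b => by
    change Lam θ (s + s') (red i (crd (a.1 * ren (· + s) b.1))) =
      Lam θ s (red i (crd a.1)) * Lam θ s' (red i (crd b.1))
    rw [← (Lam_mul θ (red_mem i a.2) (red_mem i b.2)).2, ← red_shift, ← map_mul]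
    obtain ⟨x, hx⟩ := exists_ev a.2
    obtain ⟨y, hy⟩ := exists_ev b.2
    rw [← hx, ← hy, ← ev_renY (fun _ _ h => Nat.add_le_add_right h s), ← map_mul, crd_ev, crd_ev,
      crd_ev]

theorem psi_of (i : ℕ) (θ : ℕ → S) {s : ℕ} (a : Cs s) :
    psi i θ (ofC s a) = Lam θ s (red i (crd a.1)) := liftC_of _ _ _ _

theorem two_eq_zero' : (2 : S) = 0 := by
  rw [← map_ofNat (algebraMap (ZMod 2) S) 2]; exact (congrArg _ rfl).trans (map_zero _)

/-- Ring maps from the cobar algebra that kill the differential and the sign. -/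
structure IsAug {S : Type} [CommRing S] (ψ : C →+* S) : Prop where
  d : ∀ x, ψ (dC x) = 0
  e : ∀ x, ψ (eC x) = ψ x

theorem psi_aug (i : ℕ) (hi : 1 ≤ i) (a b : S) (h : ∀ e, 2 ^ i ≤ e → th a b e = 0) :
    IsAug (psi i (th a b)) where
  e x := by
    obtain ⟨y, hy⟩ := eC_sub x
    rw [hy, map_add, map_mul, map_ofNat, two_eq_zero', zero_mul, add_zero]
  d x := by
    induction x using C.induction_on with
    | zero => simp
    | add x y hx hy => rw [map_add, map_add, hx, hy, add_zero]
    | of s x =>
      obtain ⟨y, hy⟩ := exists_ev x.2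
      have e : alt (s + 2) x.1 = ev (∑ k ∈ range (s + 2),
          (-1) ^ k * renY (fun j => if j < k then j else j + 1) y) := by
        simp only [alt, map_sum, map_mul, map_pow, map_neg, map_one, ev_renY (face_mono _), hy,
          face]
      rw [dC_of, psi_of, cob_val, e, crd_ev, map_sum, map_sum]
      refine Finset.sum_eq_zero fun k hk => ?_
      have h1 := Lam_ideal (th a b) (s + 1) _ (by positivity) h (red_face i k hi y)
      have h2 := Lam_fc (th a b) (by simp [th]) (th_conv a b) (k := k)
        (by have := mem_range.mp hk; omega) (red_mem i x.2)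
      rw [← hy, crd_ev] at h2
      rw [map_sub, h2, sub_zero] at h1
      rw [map_mul, map_pow, map_neg, map_one, CharTwo.neg_eq, one_pow, one_mul, h1]

theorem map_psi {S' : Type} [CommRing S'] [Algebra (ZMod 2) S'] (r : S →ₐ[ZMod 2] S') (i : ℕ)
    (θ : ℕ → S) (x : C) : r (psi i θ x) = psi i (fun e => r (θ e)) x := by
  induction x using C.induction_on with
  | zero => simp
  | add x y hx hy => simp only [map_add, hx, hy]
  | of s x => rw [psi_of, psi_of, map_Lam]

theorem kExo_eq (i j : ℕ) (x : C) :
    kExo i j x = psi i (fun e => if e = 2 ^ j then LaurentPolynomial.T 1 else 0) x := by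
  classical
  have e : ∀ s (a : Cs s), LaurentPolynomial.C (PadicInt.toZMod (coeff (mono i j s) (crd a.1))) *
      LaurentPolynomial.T s =
        psi i (fun e => if e = 2 ^ j then LaurentPolynomial.T 1 else (0 : K)) (ofC s a) := by
    intro s a
    rw [psi_of, Lam_single, red, RingHom.comp_apply, AlgHom.toRingHom_eq_coe, RingHom.coe_coe,
      coeff_killCompl, coeff_map, LaurentPolynomial.T_pow, mul_one, Algebra.smul_def,
      Finsupp.mapDomain_finsetSum]
    simp only [Finsupp.mapDomain_single]
    rfl
  rw [kExo]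
  simp only [e]
  obtain ⟨t, ht, ht'⟩ := exists_sum x
  rw [finsum_eq_sum_of_support_subset (s := t), ← map_sum, ht']
  intro s hs
  by_contra h
  apply hs
  simp only [ht s h, map_zero]

def kRatS (s : ℕ) : Cs s →+ ℚ_[2] where
  toFun a := kRat (ofC s a)
  map_zero' := by simp [kRat, crd_zero]
  map_add' a b := by
    simp only [kRat, map_add, Cs.val_add]
    rw [crd_add (s := 0) (Cs.property _) (Cs.property _), map_add, PadicInt.coe_add]

theorem kRat_pos {s : ℕ} (h : s ≠ 0) (a : Cs s) : kRat (ofC s a) = 0 := by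
  rw [kRat, cmp_ne _ h.symm]
  simp [crd_zero]

def psi0 : C →+* ℚ_[2] :=
  liftC kRatS (by
    change ((constantCoeff (crd 1) : ℤ_[2]) : ℚ_[2]) = 1
    rw [← map_one ev, crd_ev]; simp) fun s s' a b => by
    change kRat (ofC (s + s') (cup a b)) = kRat (ofC s a) * kRat (ofC s' b)
    by_cases h : s = 0
    · by_cases h' : s' = 0
      · subst h h'
        change ((constantCoeff (crd (a.1 * ren (· + 0) b.1)) : ℤ_[2]) : ℚ_[2]) =
          (constantCoeff (crd a.1) : ℤ_[2]) * (constantCoeff (crd b.1) : ℤ_[2])
        obtain ⟨x, hx⟩ := exists_ev a.2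
        obtain ⟨y, hy⟩ := exists_ev b.2
        rw [show ren (· + 0) b.1 = b.1 from ren_id _, ← hx, ← hy, ← map_mul, crd_ev, crd_ev,
          crd_ev, map_mul, PadicInt.coe_mul]
      · rw [kRat_pos h', kRat_pos (by omega), mul_zero]
    · rw [kRat_pos h, kRat_pos (by omega), zero_mul]

theorem psi0_of {s : ℕ} (a : Cs s) : psi0 (ofC s a) = kRat (ofC s a) :=
  liftC_of _ _ _ _

theorem kRat_eq (x : C) : kRat x = psi0 x := by
  induction x using C.induction_on with
  | zero => simp [kRat, crd_zero]
  | of s a => rw [psi0_of]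
  | add x y hx hy =>
    rw [map_add, ← hx, ← hy]
    simp only [kRat, map_add, Cs.val_add]
    rw [crd_add (s := 0) (Cs.property _) (Cs.property _), map_add, PadicInt.coe_add]

theorem psi0_aug : IsAug psi0 where
  d x := by
    induction x using C.induction_on with
    | zero => simp
    | add x y hx hy => rw [map_add, map_add, hx, hy, add_zero]
    | of s x => rw [dC_of, psi0_of, kRat_pos (by omega)]
  e x := by
    induction x using C.induction_on with
    | zero => simp
    | add x y hx hy => rw [map_add, map_add, hx, hy, map_add]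
    | of s x =>
      rw [eC_of, map_zsmul]
      by_cases h : s = 0
      · simp [h]
      · rw [psi0_of, kRat_pos h, smul_zero]

end

end Pool.Agent.Tel
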