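import Pool.Agent.Lib.MP_3a30fb_gt.Tower

/-!
Finite complexes of comodules over `F_2[t_1, t_2]`, as cell modules modulo `(2, v_1)`.
-/

namespace Pool.Agent.Tel

open MvPolynomial Matrix DirectSum
open scoped Kronecker

noncomputable section

abbrev Hz := MvPolynomial (Fin 2) ℤ

/-- A finite complex of comodules: coaction matrix `G` and differential `P`. -/
structure RO (ι : Type) [Fintype ι] [DecidableEq ι] where
  w : ι → ℤ
  ch : ι → ℤ
  G : Matrix ι ι Hz
  P : Matrix ι ι ℤ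
  hG : ∀ i j, (G i j).IsWeightedHomogeneous ![(1 : ℤ), 3] (w i - w j)
  cG : ∀ i j, G i j ≠ 0 → ch i = ch j
  lt : ∀ i j, i ≠ j → G i j ≠ 0 → w j < w i
  diag : ∀ i, G i i = 1
  hP : ∀ i j, P i j ≠ 0 → w i = w j ∧ ch i = ch j + 1
  PP : P * P = 0
  PG : P.map (Int.castRingHom Hz) * G = G * P.map (Int.castRingHom Hz)
  co : ∀ (T : Type) [CommRing T], (2 : T) = 0 → ∀ x y x' y' : T,
    G.map (aeval ![x + x', y + y' + x * x' ^ 2]) = G.map (aeval ![x, y]) * G.map (aeval ![x', y'])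

def el (j k : ℕ) : Hz →ₐ[ℤ] Amb := aeval ![tt (mm j) (mm k) 1, tt (mm j) (mm k) 2]

def elA (s j k : ℕ) (h : j ≤ k) (h' : k ≤ s) : Hz →ₐ[ℤ] A s :=
  aeval ![⟨_, tt_mem_A h h' 1⟩, ⟨_, tt_mem_A h h' 2⟩]

theorem elA_val {s j k : ℕ} (h : j ≤ k) (h' : k ≤ s) (g : Hz) : (elA s j k h h' g).1 = el j k g := by
  have : ((A s).val.toRingHom.comp (elA s j k h h').toRingHom) = (el j k).toRingHom :=
    ringHom_ext (by simp) (by simp [elA, el])
  exact RingHom.congr_fun this g

theorem ren_el (f : ℕ → ℕ) (j k : ℕ) (g : Hz) : ren f (el j k g) = el (f j) (f k) g := by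
  have : ((ren f).toRingHom.comp (el j k).toRingHom) = (el (f j) (f k)).toRingHom :=
    ringHom_ext (by simp) (by simp [el, map_tt, ren_mm])
  exact RingHom.congr_fun this g

def L1 : Hz →+ C := (ofC 1).comp
  { toFun g := ⟨el 0 1 g, elA_val (s := 1) (Nat.zero_le 1) le_rfl g ▸ Subtype.prop _⟩
    map_zero' := Cs.ext (map_zero _)
    map_add' _ _ := Cs.ext (map_add _ _ _) }

theorem L1_eq (g : Hz) : ∃ h, L1 g = ofC 1 ⟨el 0 1 g, h⟩ := ⟨_, rfl⟩

theorem el_hom {g : Hz} {u : ℤ} (h : g.IsWeightedHomogeneous ![(1 : ℤ), 3] u) (j k : ℕ) :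
    (el j k g).IsWeightedHomogeneous wt u := by
  rw [g.as_sum, map_sum]
  refine IsWeightedHomogeneous.sum _ _ _ fun d hd => ?_
  rw [el, aeval_monomial, Finsupp.prod_fintype _ _ (by simp), Fin.prod_univ_two,
    ← h (mem_support_iff.mp hd), Finsupp.weight_apply, Finsupp.sum_fintype _ _ (by simp),
    Fin.sum_univ_two, eq_intCast, ← map_intCast (MvPolynomial.C : ℚ_[2] →+* Amb)]
  exact (((tt_hom j k 1).pow _).mul ((tt_hom j k 2).pow _)).C_mul _

theorem eC_L1 (g : Hz) : eC (L1 g) = - L1 g := by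
  obtain ⟨h, e⟩ := L1_eq g
  rw [e, eC_of]; simp

theorem Cs.val_sum {α : Type} {s : ℕ} (t : Finset α) (f : α → Cs s) :
    (∑ a ∈ t, f a).1 = ∑ a ∈ t, (f a).1 :=
  map_sum (AddMonoidHom.mk' Cs.val Cs.val_add) f t

theorem exists_quot {B : Type} [CommRing B] (I : Ideal B) :
    ∃ (T : Type) (_ : CommRing T) (q : B →+* T), ∀ x, q x = 0 ↔ x ∈ I :=
  ⟨B ⧸ I, inferInstance, Ideal.Quotient.mk I, fun _ => Ideal.Quotient.eq_zero_iff_mem⟩

namespace RO

variable {ι κ : Type} [Fintype ι] [DecidableEq ι] [Fintype κ] [DecidableEq κ] (Y : RO ι)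

def toD (i : ι) : ι →₀ C :=
  Finsupp.equivFunOnFinite.symm fun j => L1 ((Y.G - 1) i j) + Y.P i j

theorem toD_apply (i j : ι) : Y.toD i j = L1 ((Y.G - 1) i j) + Y.P i j := rfl

theorem G1_ne {i j : ι} (h : (Y.G - 1) i j ≠ 0) :
    i ≠ j ∧ Y.G i j ≠ 0 ∧ (Y.G - 1) i j = Y.G i j := by
  by_cases e : i = j
  · exact absurd (by rw [e, Matrix.sub_apply, Y.diag, one_apply_eq, sub_self]) h
  · rw [Matrix.sub_apply, one_apply_ne e, sub_zero] at h ⊢
    exact ⟨e, h, rfl⟩

theorem co' (T : Type) [CommRing T] (h2 : (2 : T) = 0) (x y x' y' : T) (i k : ι) :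
    aeval ![x', y'] ((Y.G - 1) i k) - aeval ![x + x', y + y' + x * x' ^ 2] ((Y.G - 1) i k) +
      aeval ![x, y] ((Y.G - 1) i k) -
      ∑ j, aeval ![x, y] ((Y.G - 1) i j) * aeval ![x', y'] ((Y.G - 1) j k) = 0 := by
  have hm : ∀ f : Hz →ₐ[ℤ] T, ∀ a b, f ((Y.G - 1) a b) = (Y.G.map f - 1 : Matrix ι ι T) a b :=
    fun f a b => by
      simp only [Matrix.sub_apply, map_sub, Matrix.map_apply, one_apply]
      split_ifs <;> simp
  simp only [hm]
  rw [← mul_apply, Y.co T h2]
  simp only [Matrix.sub_mul, Matrix.mul_sub, Matrix.mul_one, Matrix.one_mul, Matrix.sub_apply]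
  linear_combination ((Y.G.map (aeval ![x', y'])) i k + (Y.G.map (aeval ![x, y])) i k -
    (Y.G.map (aeval ![x, y]) * Y.G.map (aeval ![x', y']) : Matrix ι ι T) i k -
      (1 : Matrix ι ι T) i k) * h2

theorem mc (i k : ι) : dC (L1 ((Y.G - 1) i k)) -
    ∑ j, L1 ((Y.G - 1) i j) * L1 ((Y.G - 1) j k) ∈ J2.J := by
  let v : A 2 := ⟨_, vv_mem_A (Nat.zero_le 2) 1⟩
  obtain ⟨T, _, q, hq⟩ := exists_quot (Ideal.span {(2 : A 2), v})
  have q2 : (2 : T) = 0 := by
    rw [← map_ofNat q 2]; exact (hq _).mpr (Ideal.subset_span (by simp))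
  have qv : q v = 0 := (hq _).mpr (Ideal.subset_span (by simp))
  let t : ∀ j k, j ≤ k → k ≤ 2 → ℕ → A 2 := fun j k h h' n => ⟨_, tt_mem_A h h' n⟩
  have qe : ∀ j k h h' g, q (elA 2 j k h h' g) = aeval ![q (t j k h h' 1), q (t j k h h' 2)] g := by
    intro j k h h' g
    have : q.comp (elA 2 j k h h').toRingHom =
        (aeval ![q (t j k h h' 1), q (t j k h h' 2)] : Hz →ₐ[ℤ] _).toRingHom :=
      ringHom_ext (by simp) (by simp [elA, t])
    exact RingHom.congr_fun this g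
  have e1 : t 0 2 (by omega) le_rfl 1 = t 0 1 (by omega) (by omega) 1 + t 1 2 (by omega) le_rfl 1 :=
    Subtype.ext (by simp [t, tt_one])
  have e2 : t 0 2 (by omega) le_rfl 2 = t 0 1 (by omega) (by omega) 2 + t 1 2 (by omega) le_rfl 2 +
      t 0 1 (by omega) (by omega) 1 * t 1 2 (by omega) le_rfl 1 ^ 2 -
        v * (t 0 1 (by omega) (by omega) 1 * t 1 2 (by omega) le_rfl 1) :=
    Subtype.ext (by simp [t, v, tt_one, tt_two, vv_one]; ring)
  have key : q (elA 2 1 2 (by omega) le_rfl ((Y.G - 1) i k) -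
      elA 2 0 2 (by omega) le_rfl ((Y.G - 1) i k) + elA 2 0 1 (by omega) (by omega) ((Y.G - 1) i k) -
      ∑ j, elA 2 0 1 (by omega) (by omega) ((Y.G - 1) i j) *
        elA 2 1 2 (by omega) le_rfl ((Y.G - 1) j k)) = 0 := by
    simp only [map_sub q, map_add q, map_sum q, map_mul q, qe, e1, e2, qv, map_pow q, zero_mul,
      sub_zero]
    exact Y.co' _ q2 _ _ _ _ i k
  obtain ⟨b, c, e⟩ := Ideal.mem_span_pair.mp ((hq _).mp key)
  have e' := congrArg Subtype.val e
  simp only [L1, AddMonoidHom.comp_apply, AddMonoidHom.coe_mk, ZeroHom.coe_mk, dC_of, of_mul]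
  rw [← map_sum, ← map_sub]
  refine of_mem_J2 b.2 c.2 ?_
  simp only [Cs.val_sub, Cs.val_sum, cup_val, cob_val, alt,
    Finset.sum_range_succ, face, ren_el]
  simp only [Subalgebra.coe_add, Subalgebra.coe_mul, Subalgebra.coe_sub, elA_val,
    AddSubmonoidClass.coe_finsetSum] at e'
  rw [mul_comm 2, mul_comm (vv _ _)]
  refine Eq.trans ?_ e'.symm
  simp
  ring

def toPC : PC J2 ι where
  deg i := (Y.ch i + 2 * Y.w i, Y.w i)
  D := Y.toD
  hom i j := by
    refine Hom_add ?_ ?_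
    · by_cases h : (Y.G - 1) i j = 0
      · rw [h, map_zero]; exact Hom_zero _
      · obtain ⟨-, h1, h2⟩ := Y.G1_ne h
        obtain ⟨h, e⟩ := L1_eq (Y.G i j)
        rw [h2, e]
        refine of_mem_Hom (by simpa using el_hom (Y.hG i j) 0 1) ?_
        have := Y.cG i j h1
        simp only [Prod.snd_sub, Prod.fst_sub]; omega
    · by_cases h : Y.P i j = 0
      · rw [h, Int.cast_zero]; exact Hom_zero _
      · have := Y.hP i j h
        refine Hom_congr (Hom_intCast _) ?_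
        ext <;> simp only [Prod.snd_sub, Prod.fst_sub] <;> omega
  wf := by
    refine Subrelation.wf (r := fun j i => Y.w j + Y.ch j < Y.w i + Y.ch i) (fun {j i} h => ?_)
      (Finite.wellFounded_of_trans_of_irrefl _)
    by_cases h1 : (Y.G - 1) i j = 0
    · have := Y.hP i j fun h2 => h (by rw [toD_apply, h1, h2]; simp)
      omega
    · obtain ⟨h0, h1, -⟩ := Y.G1_ne h1
      have := Y.cG i j h1
      have := Y.lt i j h0 h1
      omega
  sq i k := by
    have e : lc Y.toD (eM (Y.toD i)) k = ∑ j, eC (Y.toD i j) * Y.toD j k := by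
      rw [lc_apply]
      exact Finset.sum_subset (Finset.subset_univ _) fun j _ hj => by
        rw [Finsupp.notMem_support_iff.mp hj, zero_mul]
    have e1 : ∑ j, (Y.P i j : C) * L1 ((Y.G - 1) j k) = ∑ j, L1 ((Y.G - 1) i j) * Y.P j k := by
      have := congrFun (congrFun (show Y.P.map (Int.castRingHom Hz) * (Y.G - 1) =
        (Y.G - 1) * Y.P.map (Int.castRingHom Hz) by
          rw [Matrix.mul_sub, Matrix.sub_mul, Y.PG, Matrix.mul_one, Matrix.one_mul]) i) k
      simp only [mul_apply, Matrix.map_apply, eq_intCast] at this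
      simp only [← zsmul_eq_mul, ← zsmul_eq_mul', ← map_zsmul, ← map_sum] at this ⊢
      rw [this]
    have e2 : ∑ j, (Y.P i j : C) * Y.P j k = 0 := by
      have := congrArg (Int.cast : ℤ → C) (congrFun (congrFun Y.PP i) k)
      simpa [mul_apply] using this
    rw [dM_apply, e]
    simp only [toD_apply, map_add, eC_L1, dC_intCast, map_intCast, add_mul, mul_add, neg_mul,
      Finset.sum_add_distrib, Finset.sum_neg_distrib, e1, e2]
    convert Y.mc i k using 1
    abel

/-- The tensor product with the comodule underlying `M`. -/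
def tens (M : RO κ) : RO (ι × κ) where
  w p := Y.w p.1 + M.w p.2
  ch p := Y.ch p.1 + M.ch p.2
  G := Y.G ⊗ₖ M.G
  P := Y.P ⊗ₖ 1
  hG p q := by
    have := (Y.hG p.1 q.1).mul (M.hG p.2 q.2)
    rwa [← add_sub_add_comm] at this
  cG p q h := by
    rw [Y.cG _ _ (left_ne_zero_of_mul h), M.cG _ _ (right_ne_zero_of_mul h)]
  lt p q hn h := by
    have h1 := fun e => Y.lt p.1 q.1 e (left_ne_zero_of_mul h)
    have h2 := fun e => M.lt p.2 q.2 e (right_ne_zero_of_mul h)
    by_cases e1 : p.1 = q.1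
    · have := h2 fun e2 => hn (Prod.ext e1 e2)
      rw [e1]; omega
    · by_cases e2 : p.2 = q.2
      · have := h1 e1
        rw [e2]; omega
      · have := h1 e1
        have := h2 e2
        omega
  diag p := by rw [kronecker_apply, Y.diag, M.diag, one_mul]
  hP p q h := by
    have h1 := Y.hP _ _ (left_ne_zero_of_mul h)
    have h2 : p.2 = q.2 := by_contra fun e => right_ne_zero_of_mul h (one_apply_ne e)
    rw [h2]; omega
  PP := by rw [← mul_kronecker_mul, Y.PP, zero_kronecker]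
  PG := by
    have : (Y.P ⊗ₖ (1 : Matrix κ κ ℤ)).map (Int.castRingHom Hz) =
        Y.P.map (Int.castRingHom Hz) ⊗ₖ 1 := by
      ext1 p q; simp [one_apply]
    rw [this, ← mul_kronecker_mul, ← mul_kronecker_mul, Y.PG, Matrix.one_mul, Matrix.mul_one]
  co T _ h x y x' y' := by
    have : ∀ f : Hz →ₐ[ℤ] T, (Y.G ⊗ₖ M.G).map f = Y.G.map f ⊗ₖ M.G.map f := fun f => by
      ext1 p q; simp
    rw [this, this, this, ← mul_kronecker_mul, Y.co T h, M.co T h]

/-- The cone of a map `p : X → Y`. -/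
def cone (X : RO κ) (p : Matrix κ ι ℤ) (hp : ∀ i j, p i j ≠ 0 → X.w i = Y.w j ∧ X.ch i = Y.ch j)
    (hG : p.map (Int.castRingHom Hz) * Y.G = X.G * p.map (Int.castRingHom Hz))
    (hP : p * Y.P = X.P * p) : RO (ι ⊕ κ) where
  w := Sum.elim Y.w X.w
  ch := Sum.elim Y.ch fun i => X.ch i + 1
  G := fromBlocks Y.G 0 0 X.G
  P := fromBlocks Y.P 0 p (-X.P)
  hG := by
    rintro (i | i) (j | j)
    exacts [Y.hG i j, isWeightedHomogeneous_zero _ _ _, isWeightedHomogeneous_zero _ _ _, X.hG i j]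
  cG := by
    rintro (i | i) (j | j) h
    exacts [Y.cG i j h, absurd rfl h, absurd rfl h, congrArg (· + 1) (X.cG i j h)]
  lt := by
    rintro (i | i) (j | j) hn h
    exacts [Y.lt i j (fun e => hn (congrArg _ e)) h, absurd rfl h, absurd rfl h,
      X.lt i j (fun e => hn (congrArg _ e)) h]
  diag := by
    rintro (i | i)
    exacts [Y.diag i, X.diag i]
  hP := by
    rintro (i | i) (j | j) h
    exacts [Y.hP i j h, absurd rfl h, ⟨(hp i j h).1, congrArg (· + 1) (hp i j h).2⟩,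
      ⟨(X.hP i j (neg_ne_zero.mp h)).1, congrArg (· + 1) (X.hP i j (neg_ne_zero.mp h)).2⟩]
  PP := by simp [fromBlocks_multiply, Y.PP, X.PP, hP]
  PG := by
    simp only [fromBlocks_map, fromBlocks_multiply, Matrix.map_zero _ (map_zero _), Matrix.zero_mul,
      Matrix.mul_zero, add_zero, zero_add, Y.PG, hG,
      Matrix.map_neg _ (map_neg (Int.castRingHom Hz)), Matrix.neg_mul, Matrix.mul_neg, X.PG,
      neg_zero]
  co T _ h x y x' y' := by
    simp only [fromBlocks_map, fromBlocks_multiply, Matrix.map_zero _ (map_zero _), Matrix.zero_mul,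
      Matrix.mul_zero, add_zero, zero_add, Y.co T h, X.co T h]

theorem toD_cone (X : RO κ) (p : Matrix κ ι ℤ) (hp hG hP) : (Y.cone X p hp hG hP).toD =
    coneD X.toD Y.toD fun i => Finsupp.equivFunOnFinite.symm fun j => (p i j : C) := by
  funext a
  ext1 b
  rw [toD_apply]
  rcases a with a | a <;> rcases b with b | b
  · rw [coneD_ll, toD_apply]; simp [cone, one_apply]
  · rw [coneD_lr]; simp [cone]
  · rw [coneD_rl]; simp [cone]
  · rw [coneD_rr, toD_apply, map_add, eC_L1]; simp [cone, one_apply, add_comm]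

end RO

end

end Pool.Agent.Tel
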