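import Pool.Agent.Lib.MP_3a30fb_gt.BM

/-!
Coning off the top cell, and the comodules `A(1)` and `Cη`.
-/

namespace Pool.Agent.Tel

open MvPolynomial Matrix
open scoped Kronecker

noncomputable section

variable {ι κ : Type} [Fintype ι] [DecidableEq ι] [Fintype κ] [DecidableEq κ]
  {S : Type} [CommRing S] [Algebra (ZMod 2) S]

structure Top (M : RO κ) (t : κ) : Prop where
  G : ∀ a, M.G a t = (1 : Matrix κ κ Hz) a t
  w : M.w t = 0
  ch : M.ch t = 0

def pm (ι : Type) [DecidableEq ι] (t : κ) : Matrix (ι × κ) ι ℤ :=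
  Matrix.of fun p j => if p = (j, t) then 1 else 0

def tv (u : ι → S) (v : κ → S) : ι × κ → S := fun p => u p.1 * v p.2

omit [DecidableEq ι] [DecidableEq κ] [Algebra (ZMod 2) S] in
theorem tv_vecMul (u : ι → S) (v : κ → S) (A : Matrix ι ι S) (B : Matrix κ κ S) :
    tv u v ᵥ* (A ⊗ₖ B) = tv (u ᵥ* A) (v ᵥ* B) := by
  funext q
  simp only [tv, vecMul, dotProduct, Fintype.sum_prod_type, kroneckerMap_apply,
    Finset.sum_mul_sum]
  exact Finset.sum_congr rfl fun i _ => Finset.sum_congr rfl fun j _ => by ring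

namespace RO

variable (Y : RO ι)

theorem X_cone (X : RO κ) (p : Matrix κ ι ℤ) (hp hG hP) (c : Fin 2) (e : ℕ) :
    (Y.cone X p hp hG hP).X S c e = fromBlocks (Y.X S c e) 0 0 (X.X S c e) := by
  ext1 a b
  rcases a with a | a <;> rcases b with b | b
  exacts [rfl, cf_zero _ _, cf_zero _ _, rfl]

theorem B_cone (X : RO κ) (p : Matrix κ ι ℤ) (hp hG hP) (c : Fin 2) (a b : S) :
    (Y.cone X p hp hG hP).B c a b = fromBlocks (Y.B c a b) 0 (p.map (↑)) (X.B c a b) := by
  rw [B, X_cone, X_cone]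
  ext1 i j
  rcases i with i | i <;> rcases j with j | j <;> simp [B, cone]
  linear_combination (-(X.P i j : S)) * two_eq_zero' (S := S)

/-- The cone of `Y ⊗ M → Y`. -/
def step {M : RO κ} {t : κ} (h : Top M t) : RO (ι ⊕ ι × κ) :=
  Y.cone (Y.tens M) (pm ι t)
    (fun p j hn => by
      obtain rfl : p = (j, t) := by_contra fun e => hn (if_neg e)
      simp [tens, h.w, h.ch])
    (by
      ext1 p k
      simp [mul_apply, pm, tens, Fintype.sum_prod_type, Prod.ext_iff, ite_and, h.G, one_apply])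
    (by
      ext1 p k
      simp [mul_apply, pm, tens, Fintype.sum_prod_type, Prod.ext_iff, ite_and, one_apply])

theorem one_step {M : RO κ} {t : κ} (h : Top M t) {c : Fin 2} {a b : S}
    (hM : a • M.X S c 1 + b • M.X S c 2 = 0) {y : ι → S} (hy : y ᵥ* Y.B c a b = 0) :
    Sum.elim 0 (tv y (Pi.single t 1)) ᵥ* (Y.step h).B c a b =
      Sum.elim y (b • tv (y ᵥ* Y.X S c 1) (Pi.single t 1 ᵥ* M.X S c 1)) := by
  have e : tv y (Pi.single t 1) ᵥ* (pm ι t).map ((↑) : ℤ → S) = y := by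
    funext j
    simp [vecMul, dotProduct, pm, tv]
  have e0 : ∀ v : κ → S, tv (0 : ι → S) v = 0 := fun v => funext fun _ => zero_mul _
  rw [step, B_cone, vecMul_fromBlocks, B_tens, hM]
  simp only [Sum.elim_comp_inl, Sum.elim_comp_inr, zero_vecMul, zero_add, e, vecMul_add,
    kronecker_zero, vecMul_zero, add_zero, vecMul_smul, tv_vecMul, hy, e0]

theorem kill {M : RO κ} {t : κ} (h : Top M t) {a b : S} (ha : IsAug (psi 2 (th a b)))
    (hM : a • M.X S 1 1 + b • M.X S 1 2 = 0) {y : ι → S} (hy : y ᵥ* Y.B 1 a b = 0) :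
    ∃ z, z ᵥ* ((Y.step h).step h).B 1 a b = Sum.elim (Sum.elim y 0) 0 := by
  have e1 := Y.one_step h hM hy
  set u := b • tv (y ᵥ* Y.X S 1 1) (Pi.single t 1 ᵥ* M.X S 1 1) with hu
  have e2 : Sum.elim 0 u ᵥ* (Y.step h).B 1 a b = 0 := by
    have h1 := congrArg (· ᵥ* (Y.step h).B 1 a b) e1
    simp only [vecMul_vecMul, B_sq _ (c := 1) ha, vecMul_zero] at h1
    have h2 : Sum.elim y 0 ᵥ* (Y.step h).B 1 a b = 0 := by
      rw [step, B_cone, vecMul_fromBlocks]; simp [hy]
    have h3 : Sum.elim y u = Sum.elim y (0 : ι × κ → S) + Sum.elim (0 : ι → S) u := by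
      funext i; rcases i with i | i <;> simp
    rw [h3, add_vecMul, h2, zero_add] at h1
    exact h1.symm
  have e3 : Sum.elim 0 u ᵥ* (Y.step h).X S 1 1 = 0 := by
    have e0 : ∀ v : κ → S, tv (0 : ι → S) v = 0 := fun v => funext fun _ => zero_mul _
    have e0' : ∀ v : ι → S, tv v (0 : κ → S) = 0 := fun v => funext fun _ => mul_zero _
    rw [step, X_cone, vecMul_fromBlocks, X_tens1, hu]
    simp only [Sum.elim_comp_inl, Sum.elim_comp_inr, vecMul_add, smul_vecMul, tv_vecMul,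
      vecMul_vecMul, X_sq, vecMul_zero, zero_vecMul, e0, e0', add_zero, smul_zero]
    simp
  have e4 := (Y.step h).one_step h hM e2
  rw [e3] at e4
  refine ⟨Sum.elim (Sum.elim (0 : ι → S) (tv y (Pi.single t 1))) (0 : (ι ⊕ ι × κ) × κ → S) +
    Sum.elim (0 : ι ⊕ ι × κ → S) (tv (Sum.elim 0 u) (Pi.single t 1)), ?_⟩
  rw [add_vecMul, e4, step, B_cone, vecMul_fromBlocks]
  simp only [Sum.elim_comp_inl, Sum.elim_comp_inr, e1]
  funext i
  rcases i with (i | i) | i <;> simp [tv]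
  linear_combination (u i) * two_eq_zero' (S := S)

end RO

/-- The exponents of the monomials in the coaction on the double of `A(1)`. -/
def T8 : Fin 8 → Fin 8 → List (ℕ × ℕ) :=
  ![![[(0, 0)], [], [], [], [], [], [], []],
    ![[(1, 0)], [(0, 0)], [], [], [], [], [], []],
    ![[(2, 0)], [], [(0, 0)], [], [], [], [], []],
    ![[(3, 0)], [(2, 0)], [(1, 0)], [(0, 0)], [], [], [], []],
    ![[(0, 1)], [], [(1, 0)], [], [(0, 0)], [], [], []],
    ![[(1, 1)], [(0, 1)], [(2, 0)], [(1, 0)], [(1, 0)], [(0, 0)], [], []],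
    ![[(2, 1), (5, 0)], [(4, 0)], [(0, 1), (3, 0)], [], [(2, 0)], [], [(0, 0)], []],
    ![[(3, 1), (6, 0)], [(2, 1)], [(1, 1)], [(0, 1), (3, 0)], [(3, 0)], [(2, 0)], [(1, 0)],
      [(0, 0)]]]

def w8 : Fin 8 → ℤ := ![-6, -5, -4, -3, -3, -2, -1, 0]

def G8 {T : Type} [CommRing T] (x y : T) : Matrix (Fin 8) (Fin 8) T :=
  Matrix.of fun i j => ((T8 i j).map fun p => x ^ p.1 * y ^ p.2).sum

theorem map_G8 {T T' F : Type} [CommRing T] [CommRing T'] [FunLike F T T'] [RingHomClass F T T']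
    (f : F) (x y : T) : (G8 x y).map f = G8 (f x) (f y) := by
  ext1 i j
  simp [G8, map_list_sum, Function.comp_def]

theorem G8_co {T : Type} [CommRing T] (h : (2 : T) = 0) (x y x' y' : T) :
    G8 (x + x') (y + y' + x * x' ^ 2) = G8 x y * G8 x' y' := by
  rcases subsingleton_or_nontrivial T with _ | _
  · exact Subsingleton.elim _ _
  have : CharP T 2 := CharTwo.of_one_ne_zero_of_two_eq_zero one_ne_zero h
  ext1 i j
  rw [← sub_eq_zero]
  fin_cases i <;> fin_cases j <;> simp [G8, T8, mul_apply, Fin.sum_univ_eight] <;> ring_nf <;>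
    reduce_mod_char!

def Xi (T : Type) [CommRing T] : Matrix (Fin 8) (Fin 8) T :=
  Matrix.of fun i j => if (i : ℕ) = j + 4 then 1 else 0

theorem G8_zero {T : Type} [CommRing T] (y : T) : G8 0 y = 1 + y • Xi T := by
  ext1 i j
  fin_cases i <;> fin_cases j <;> simp [G8, T8, Xi]

/-- The double of `A(1)` (for `c = 1`) and its Frobenius twist (for `c = 0`). -/
def M8 (c : Fin 2) : RO (Fin 8) where
  w i := (2 - c : ℕ) * w8 i
  ch _ := 0
  G := G8 (X 0 ^ (2 - c : ℕ)) (X 1 ^ (2 - c : ℕ))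
  P := 0
  hG i j := by
    refine list_sum_mem (S := weightedHomogeneousSubmodule ℤ ![(1 : ℤ), 3] _) fun g hg => ?_
    obtain ⟨p, hp, rfl⟩ := List.mem_map.mp hg
    have := (by decide : ∀ i j, ∀ p ∈ T8 i j, (p.1 + 3 * p.2 : ℤ) = w8 i - w8 j) i j p hp
    rw [mem_weightedHomogeneousSubmodule]
    convert (((isWeightedHomogeneous_X ℤ ![(1 : ℤ), 3] 0).pow (2 - c)).pow p.1).mul
      (((isWeightedHomogeneous_X ℤ ![(1 : ℤ), 3] 1).pow (2 - c)).pow p.2) using 1
    simp only [nsmul_eq_mul, cons_val_zero, cons_val_one]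
    linear_combination (-(2 - c : ℕ) : ℤ) * this
  cG _ _ _ := rfl
  lt i j hn h := by
    have := (by decide : ∀ i j, i ≠ j → T8 i j ≠ [] → w8 j < w8 i) i j hn fun e =>
      h (by simp [G8, e])
    exact mul_lt_mul_of_pos_left this (by have := c.2; omega)
  diag i := by simp [G8, (by decide : ∀ i, T8 i i = [(0, 0)]) i]
  hP _ _ h := absurd rfl h
  PP := by simp
  PG := by simp
  co T _ h x y x' y' := by
    simp only [map_G8, map_pow, aeval_X, cons_val_zero, cons_val_one]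
    rw [← G8_co h]
    fin_cases c
    · congr 1
      · simp; linear_combination (x * x') * h
      · simp; linear_combination (y * y' + (y + y') * x * x' ^ 2) * h
    · simp

theorem M8_top (c : Fin 2) : Top (M8 c) 7 where
  G a := by fin_cases a <;> simp [M8, G8, T8, one_apply]
  w := mul_zero _
  ch := rfl

theorem M8_X (c : Fin 2) (e : ℕ) :
    (M8 c).X S 1 (e + 1) = if e + 1 = 2 - c then Xi S else 0 := by
  have h : (M8 c).G.map (pz 1) = 
      1 + (Polynomial.X ^ (2 - c : ℕ) : Polynomial (ZMod 2)) • Xi (Polynomial (ZMod 2)) := by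
    rw [← G8_zero, M8, map_G8]
    simp [pz, zero_pow (show (2 - c : ℕ) ≠ 0 by have := c.2; omega)]
  ext1 i j
  have := congrFun (congrFun h i) j
  rw [Matrix.map_apply] at this
  simp only [RO.X, Matrix.map_apply, cf, this, Matrix.add_apply, Matrix.smul_apply, one_apply, Xi,
    of_apply, smul_eq_mul]
  clear this h
  generalize (2 - c : ℕ) = q
  split_ifs <;> simp_all [Polynomial.coeff_one, Polynomial.coeff_X_pow]
  omega

omit [Algebra (ZMod 2) S] in
theorem Xi_ex {u : S} (hu : IsUnit u) : MEx (u • Xi S) := by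
  have h : Xi S * (Xi S)ᵀ + (Xi S)ᵀ * Xi S = 1 := by
    ext1 i j
    fin_cases i <;> fin_cases j <;> simp [Xi, mul_apply, Fin.sum_univ_eight]
  obtain ⟨v, hv⟩ := hu.exists_left_inv
  intro x hx
  have h0 : x ᵥ* Xi S = 0 := by
    rw [← one_smul S (x ᵥ* _), ← hv, mul_smul, ← vecMul_smul, hx, smul_zero]
  refine ⟨v • (x ᵥ* (Xi S)ᵀ), ?_⟩
  have := congrArg (x ᵥ* ·) h
  simp only [vecMul_add, ← vecMul_vecMul, h0, zero_vecMul, zero_add, vecMul_one] at this
  rw [smul_vecMul, vecMul_smul, smul_smul, hv, one_smul, this]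

/-- The cofibre of `η`. -/
def Ce : RO (Fin 2) where
  w := ![-2, -1]
  ch _ := -3
  G := !![1, 0; X 0, 1]
  P := 0
  hG i j := by
    fin_cases i <;> fin_cases j
    exacts [isWeightedHomogeneous_one _ _, isWeightedHomogeneous_zero _ _ _,
      isWeightedHomogeneous_X _ _ 0, isWeightedHomogeneous_one _ _]
  cG _ _ _ := rfl
  lt i j := by fin_cases i <;> fin_cases j <;> simp
  diag i := by fin_cases i <;> simp
  hP _ _ h := absurd rfl h
  PP := by simp
  PG := by simp
  co T _ h x y x' y' := by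
    ext1 i j
    fin_cases i <;> fin_cases j <;> simp [mul_apply, Fin.sum_univ_two]

theorem Ce_ex {u : S} (hu : IsUnit u) : MEx (Ce.B 0 u 0) := by
  have h : Ce.B 0 u 0 = !![0, 0; u, 0] := by
    ext1 i j
    fin_cases i <;> fin_cases j <;> simp [RO.B, RO.X, Ce, cf, pz, Polynomial.coeff_one]
  obtain ⟨v, hv⟩ := hu.exists_left_inv
  intro x hx
  rw [h] at hx ⊢
  have h1 : x 1 * u = 0 := by simpa [vecMul, dotProduct] using congrFun hx 0
  refine ⟨![0, x 0 * v], funext fun j => ?_⟩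
  fin_cases j
  · simp [mul_assoc, hv]
  · simp
    linear_combination (-v) * h1 + (x 1) * hv

theorem Ce_B1 (a b : S) : Ce.B 1 a b = 0 := by
  ext1 i j
  fin_cases i <;> fin_cases j <;> simp [RO.B, RO.X, Ce, cf, pz, Polynomial.coeff_one]

end

end Pool.Agent.Tel
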