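import Pool.Agent.Lib.MP_3a30fb_gt.Test
import Pool.Agent.Lib.MP_3a30fb_gt.Equiv

/-!
Subquotients of cell modules, filtrations by blocks, and small subcomplexes.
-/

namespace Pool.Agent.Tel

open Finsupp

noncomputable section

variable {ι κ μ : Type} {S : Type} [CommRing S] {ψ : C →+* S}

/-- The components along an injection. -/
def pl {R : Type} [Ring R] (j : μ → ι) (hj : Function.Injective j) : (ι →₀ R) →ₗ[R] (μ →₀ R) :=
  lcomapDomain j hj

theorem pl_apply {R : Type} [Ring R] {j : μ → ι} (hj : Function.Injective j) (x : ι →₀ R)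
    (a : μ) : pl j hj x a = x (j a) := rfl

theorem pl_md {R : Type} [Ring R] {j : μ → ι} (hj : Function.Injective j) (x : μ →₀ R) :
    pl j hj (mapDomain j x) = x := comapDomain_mapDomain j hj x

theorem pl_single {R : Type} [Ring R] {j : μ → ι} (hj : Function.Injective j) (a : μ) (c : R) :
    pl j hj (single (j a) c) = single a c := by rw [← mapDomain_single, pl_md]

theorem md_pl {R : Type} [Ring R] {j : μ → ι} (hj : Function.Injective j) {x : ι →₀ R}
    (hx : ∀ i, x i ≠ 0 → i ∈ Set.range j) : mapDomain j (pl j hj x) = x :=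
  mapDomain_comapDomain j hj x fun i hi => hx i (mem_support_iff.mp hi)

theorem supp_ind {R : Type} [Ring R] {t : ι → Prop} {P : (ι →₀ R) → Prop} (h0 : P 0)
    (ha : ∀ x y, P x → P y → P (x + y)) (hs : ∀ i c, t i → P (single i c)) {x : ι →₀ R}
    (hx : ∀ i, x i ≠ 0 → t i) : P x := by
  rw [← x.sum_single, Finsupp.sum]
  exact Finset.sum_induction _ _ ha h0 fun i hi => hs _ _ (hx i (mem_support_iff.mp hi))

theorem pl_out {R : Type} [Ring R] {j : μ → ι} (hj : Function.Injective j) {i : ι}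
    (h : i ∉ Set.range j) (c : R) : pl j hj (single i c) = 0 :=
  Finsupp.ext fun a => single_eq_of_ne fun e => h ⟨a, e⟩

theorem pl_dM {j : μ → ι} (hj : Function.Injective j) {D : ι → ι →₀ C} {x : ι →₀ C}
    (hx : ∀ i, x i ≠ 0 → i ∈ Set.range j ∨ ∀ a, D i (j a) = 0) :
    pl j hj (dM D x) = dM (fun a => pl j hj (D (j a))) (pl j hj x) := by
  refine supp_ind (P := fun x => pl j hj (dM D x) = dM _ (pl j hj x)) (by simp)
    (fun x y hx hy => by simp only [map_add, hx, hy]) (fun i c hi => ?_) hx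
  by_cases h : i ∈ Set.range j
  · obtain ⟨a, rfl⟩ := h
    simp only [dM_single, map_add, pl_single, map_smul]
  · have : pl j hj (D i) = 0 := Finsupp.ext (hi.resolve_left h)
    simp only [dM_single, map_add, pl_out hj h, map_smul, this, map_zero, smul_zero, add_zero]

theorem pl_bl {j : μ → ι} (hj : Function.Injective j) {D : ι → ι →₀ C} {x : ι →₀ S}
    (hx : ∀ i, x i ≠ 0 → i ∈ Set.range j ∨ ∀ a, D i (j a) = 0) :
    pl j hj (bl ψ D x) = bl ψ (fun a => pl j hj (D (j a))) (pl j hj x) := by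
  refine supp_ind (P := fun x => pl j hj (bl ψ D x) = bl ψ _ (pl j hj x)) (by simp)
    (fun x y hx hy => by simp only [map_add, hx, hy]) (fun i c hi => ?_) hx
  by_cases h : i ∈ Set.range j
  · obtain ⟨a, rfl⟩ := h
    rw [pl_single, bl_single, bl_single, map_smul]
    exact congrArg _ (Finsupp.ext fun _ => rfl)
  · rw [pl_out hj h, map_zero, bl_single, map_smul]
    ext1 a
    rw [Finsupp.smul_apply, pl_apply, bm_apply, hi.resolve_left h, map_zero, smul_zero]
    rfl

theorem lc_pl {j : μ → ι} (hj : Function.Injective j) {g : ι → κ →₀ C} {x : ι →₀ C}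
    (hx : ∀ i, x i ≠ 0 → i ∈ Set.range j ∨ g i = 0) :
    lc g x = lc (fun a => g (j a)) (pl j hj x) := by
  refine supp_ind (P := fun x => lc g x = lc _ (pl j hj x)) (by simp)
    (fun x y hx hy => by simp only [map_add, hx, hy]) (fun i c hi => ?_) hx
  by_cases h : i ∈ Set.range j
  · obtain ⟨a, rfl⟩ := h
    simp only [pl_single, linearCombination_single]
  · simp only [pl_out hj h, map_zero, linearCombination_single, hi.resolve_left h, smul_zero]

theorem lc_congr {f g : ι → κ →₀ C} {x : ι →₀ C} (hx : ∀ i, x i ≠ 0 → f i = g i) :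
    lc f x = lc g x :=
  supp_ind (P := fun x => lc f x = lc g x) (by simp)
    (fun x y hx hy => by simp only [map_add, hx, hy])
    (fun i c hi => by simp only [linearCombination_single, hi]) hx

theorem eM_ne {x : ι →₀ C} {i : ι} (h : eM x i ≠ 0) : x i ≠ 0 := fun e =>
  h (by rw [eM_apply, e, map_zero])

theorem bl_ne {f : ι → κ →₀ C} {x : ι →₀ S} {k : κ} (h : bl ψ f x k ≠ 0) :
    ∃ i, x i ≠ 0 ∧ f i k ≠ 0 := by
  by_contra h'
  refine h (supp_ind (t := fun i => f i k = 0) (P := fun x => bl ψ f x k = 0) (by simp)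
    (fun x y hx hy => by rw [map_add, Finsupp.add_apply, hx, hy, add_zero]) (fun i c hi => ?_)
    fun i hi => by_contra fun e => h' ⟨i, hi, e⟩)
  rw [bl_single, Finsupp.smul_apply, bm_apply, hi, map_zero, smul_zero]

/-- The subquotient on the cells in the image of `j`. -/
def pullC (g : ι → ℤ × ℤ) (D : ι → ι →₀ C) (j : μ → ι) (hj : Function.Injective j)
    (hh : ∀ a b, D (j a) (j b) ∈ Hom (g (j a) - g (j b) - (1, 0)))
    (wf : WellFounded fun j i => D i j ≠ 0) (sq : ∀ a, dM D (D (j a)) = 0)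
    (cl : ∀ a i, D (j a) i ≠ 0 → i ∈ Set.range j ∨ ∀ a, D i (j a) = 0) : Cell μ where
  deg a := g (j a)
  D a := pl j hj (D (j a))
  hom := hh
  wf := InvImage.wf j wf
  sq a := by rw [← pl_dM hj (cl a), sq, map_zero]

theorem rel_blocks (hψ : IsAug ψ) {β : Type} (ρ : β → Ordinal.{0}) {p : β → Type}
    (j : ∀ b, p b → κ) (hj : ∀ b, Function.Injective (j b)) (Z : Cell κ) {s : Set κ}
    (hs : Closed Z.D s) (cov : ∀ k, k ∈ s ∨ ∃ b, k ∈ Set.range (j b)) (dis : ∀ b a, j b a ∉ s)
    (low : ∀ b a k, Z.D (j b a) k ≠ 0 →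
      k ∈ s ∨ k ∈ Set.range (j b) ∨ ∃ b', ρ b' < ρ b ∧ k ∈ Set.range (j b'))
    (uni : ∀ b b' a a', j b a = j b' a' → b = b')
    (ex : ∀ b, ExOn ψ (fun a => pl (j b) (hj b) (Z.D (j b a))) Set.univ) (x : κ →₀ S)
    (hx : bl ψ Z.D x ∈ supported S S s) : ∃ y, x - bl ψ Z.D y ∈ supported S S s := by
  classical
  have fin : ∀ (P : β → Prop) (t : Set κ) (F : Finset κ),
      (∀ k ∈ F, k ∈ t ∨ ∃ b, P b ∧ k ∈ Set.range (j b)) →
      ∃ m : Multiset β, (∀ b ∈ m, P b) ∧ ∀ k ∈ F, k ∈ t ∨ ∃ b ∈ m, k ∈ Set.range (j b) := by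
    intro P t F h
    induction F using Finset.induction_on with
    | empty => exact ⟨0, by simp, by simp⟩
    | insert k F _ ih =>
      obtain ⟨m, h1, h2⟩ := ih fun k hk => h k (Finset.mem_insert_of_mem hk)
      rcases h k (Finset.mem_insert_self _ _) with h3 | ⟨b, h3, h4⟩
      · exact ⟨m, h1, Finset.forall_mem_insert _ _ _ |>.mpr ⟨.inl h3, h2⟩⟩
      · refine ⟨b ::ₘ m, Multiset.forall_mem_cons.mpr ⟨h3, h1⟩,
          Finset.forall_mem_insert _ _ _ |>.mpr ⟨.inr ⟨b, by simp, h4⟩, fun k hk => ?_⟩⟩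
        exact (h2 k hk).imp_right fun ⟨b, h, h'⟩ => ⟨b, Multiset.mem_cons_of_mem h, h'⟩
  obtain ⟨m, -, hm⟩ := fin (fun _ => True) s x.support fun k _ => by simpa using cov k
  simp only [mem_support_iff] at hm
  induction m using (WellFounded.cutExpand (InvImage.wf ρ Ordinal.lt_wf)).induction
    generalizing x with
  | _ m ih =>
  by_cases h0 : m = 0
  · refine ⟨0, (mem_supported' _ _).mpr fun k hk => ?_⟩
    rw [map_zero, sub_zero]
    by_contra e
    simpa [hk, h0] using hm k e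
  obtain ⟨b, hb, hmax⟩ := Multiset.exists_max_image ρ h0
  obtain ⟨y, -, hy⟩ := ex b (pl (j b) (hj b) x) (by simp) (by
    rw [← pl_bl (hj b)]
    · exact Finsupp.ext fun a => (mem_supported' _ _).mp hx _ (dis b a)
    · intro i hi
      refine or_iff_not_imp_right.mpr fun e => ?_
      obtain ⟨a, ha⟩ := not_forall.mp e
      rcases hm i hi with h | ⟨b', hb', a', rfl⟩
      · exact absurd (hs i h _ ha) (dis b a)
      · rcases low b' a' _ ha with h | ⟨a'', h⟩ | ⟨b'', h, a'', h'⟩
        · exact absurd h (dis b a)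
        · obtain rfl := uni _ _ _ _ h
          exact ⟨_, rfl⟩
        · obtain rfl := uni _ _ _ _ h'
          exact absurd (hmax _ hb') h.not_ge)
  have hr : ∀ i, mapDomain (j b) y i ≠ 0 → i ∈ Set.range (j b) := fun i hi =>
    by_contra fun e => hi (mapDomain_of_notMem_range _ _ e)
  obtain ⟨t, ht, ht'⟩ := fin (fun b' => ρ b' < ρ b) (s ∪ Set.range (j b))
    (bl ψ Z.D (mapDomain (j b) y)).support fun k hk => by
      obtain ⟨i, hi, hk⟩ := bl_ne (mem_support_iff.mp hk)
      obtain ⟨a, rfl⟩ := hr i hi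
      exact or_assoc.mpr (low b a k hk)
  obtain ⟨y', hy'⟩ := ih (m.erase b + t) ⟨t, b, ht, by
      rw [add_right_comm, add_comm (m.erase b), Multiset.singleton_add, Multiset.cons_erase hb]⟩
    (x - bl ψ Z.D (mapDomain (j b) y)) (by rwa [map_sub, sq_bl hψ, sub_zero]) fun k hk => by
      have hk' : k ∉ Set.range (j b) := by
        rintro ⟨a, rfl⟩
        apply hk
        rw [← pl_apply (hj b), map_sub, pl_bl (hj b) fun i hi => .inl (hr i hi), pl_md, hy,
          sub_self, Finsupp.zero_apply]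
      by_cases e : x k = 0
      · rw [Finsupp.sub_apply, e, zero_sub, neg_ne_zero] at hk
        rcases ht' k (mem_support_iff.mpr hk) with (h | h) | ⟨b', h, h'⟩
        exacts [.inl h, absurd h hk', .inr ⟨b', Multiset.mem_add.mpr (.inr h), h'⟩]
      · refine (hm k e).imp_right fun ⟨b', h, h'⟩ => ⟨b', Multiset.mem_add.mpr (.inl ?_), h'⟩
        exact (Multiset.mem_erase_of_ne fun e : b' = b => hk' (e ▸ h')).mpr h
  exact ⟨mapDomain (j b) y + y', by rwa [map_add, ← sub_sub]⟩

/-- Terms for the closure of a point under a finitary operation. -/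
abbrev Om (S : Type) : Type := WType fun a : Σ n : ℕ, (Fin n → S) × ℕ => Fin a.1

theorem exists_small (N : (ι →₀ S) → Finset ι) (i0 : ι) : ∃ ev : Om S → ι,
    ∀ x : ι →₀ S, (∀ i, x i ≠ 0 → i ∈ Set.range ev) → ∀ i ∈ N x, i ∈ Set.range ev := by
  refine ⟨WType.elim ι fun a =>
    (N (∑ k, single (a.2 k) (a.1.2.1 k))).toList.getD a.1.2.2 i0, fun x hx i hi => ?_⟩
  let e := x.support.equivFin.symm
  choose w hw using fun k => hx (e k) (mem_support_iff.mp (e k).2)
  obtain ⟨m, hm, rfl⟩ := List.mem_iff_getElem.mp (Finset.mem_toList.mpr hi)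
  refine ⟨⟨⟨_, fun k => x (e k), m⟩, w⟩, ?_⟩
  have : ∑ k, single (e k).1 (x (e k)) = x := by
    rw [e.sum_comp fun i => single i.1 (x i), Finset.sum_coe_sort _ fun i => single i (x i)]
    exact x.sum_single
  rw [WType.elim]
  simp only [hw, this]
  exact List.getD_eq_getElem _ _ hm

end

end Pool.Agent.Tel
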