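import Pool.Agent.Lib.MP_3a30fb_gt.Step
import Pool.Agent.Lib.MP_3a30fb_gt.Loc

/-!
Construction of the test object.
-/

namespace Pool.Agent.Tel

open Finsupp Matrix LaurentPolynomial

noncomputable section

section
variable {ι κ : Type} [Fintype ι] [DecidableEq ι] [Fintype κ] [DecidableEq κ]
  {S : Type} [CommRing S] [Algebra (ZMod 2) S] (Y : RO ι) {M : RO κ} {t : κ} (h : Top M t)

theorem step_toD : (Y.step h).toD = coneD (Y.tens M).toD Y.toD
    fun i => Finsupp.equivFunOnFinite.symm fun j => (pm ι t i j : C) := RO.toD_cone _ _ _ _ _ _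

theorem step_sub : IsSub Y.toPC (Y.step h).toPC Sum.inl :=
  ⟨fun _ => rfl, fun i => congrFun (step_toD Y h) (.inl i)⟩

theorem torP_B (c : Fin 2) (a b : S) :
    TorP (· = 1) (psi (c + 1) (th a b)) Y.toD ↔ MEx (Y.B c a b) := by
  rw [torP_iff, RO.psi_toD]

theorem step_rel {c : Fin 2} {a b : S} (ha : IsAug (psi (c + 1) (th a b)))
    (he : MEx ((Y.tens M).B c a b)) : Rel (· = 1) (psi (c + 1) (th a b)) (Y.step h).toD Sum.inl := by
  rw [step_toD]
  exact cone_rel ha _ _ ((torP_B _ c a b).mpr he)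

omit [Algebra (ZMod 2) S] in
theorem one_mul_one (a b : S) (ha : a = 1) (hb : b = 1) : a * b = 1 := by rw [ha, hb, one_mul]

theorem step_ex {c : Fin 2} {a b : S} (ha : IsAug (psi (c + 1) (th a b)))
    (he : MEx (Y.B c a b)) : MEx ((Y.step h).B c a b) :=
  (torP_B _ c a b).mp (Rel.tor one_mul_one Sum.inl_injective (step_sub Y h).D
    (bl_sq ha fun i j => psi_J2 _ _ ((Y.step h).toPC.sq i j))
    (step_rel Y h ha (Y.tens_left M ha he)) ((torP_B _ c a b).mpr he))

theorem step_kill {a b : S} (ha : IsAug (psi 2 (th a b)))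
    (hM : a • M.X S 1 1 + b • M.X S 1 2 = 0) (y : ι →₀ S) (hy : bl (psi 2 (th a b)) Y.toD y = 0) :
    ∃ z, bl (psi 2 (th a b)) ((Y.step h).step h).toD z = mapDomain .inl (mapDomain .inl y) := by
  obtain ⟨z, hz⟩ := Y.kill h ha hM (y := y) (by
    rw [← RO.psi_toD, ← bl_vec]; exact congrArg DFunLike.coe hy)
  refine ⟨Finsupp.equivFunOnFinite.symm z, DFunLike.coe_injective ?_⟩
  rw [bl_vec]
  refine (congrArg (z ᵥ* ·) (RO.psi_toD _ 1 a b)).trans (hz.trans (funext ?_))
  rintro ((i | i) | i) <;> simp [md_ll, md_lr]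

end

/-- A finite complex of comodules together with its index type. -/
structure BRO where
  ι : Type
  [fin : Fintype ι]
  [dec : DecidableEq ι]
  Y : RO ι

attribute [instance] BRO.fin BRO.dec

def towR (c : Fin 2) : ℕ → BRO
  | 0 => ⟨Fin 2, Ce⟩
  | n + 1 => ⟨_, (towR c n).Y.step (M8_top c)⟩

def inlR (c : Fin 2) (n : ℕ) : (towR c n).ι → (towR c (n + 1)).ι := Sum.inl

theorem rr_comp (c : Fin 2) : (rr c).comp ψR =
    psi 2 (th (rr c (MvPolynomial.X 0)) (rr c (MvPolynomial.X 1))) := RingHom.ext (rr_psi c)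

theorem rr_aug (c : Fin 2) :
    IsAug (psi 2 (th (rr c (MvPolynomial.X 0)) (rr c (MvPolynomial.X 1)))) :=
  rr_comp c ▸ ψR_aug.comp _

theorem M8_kill (c : Fin 2) : rr c (MvPolynomial.X 0) • (M8 c).X K 1 1 +
    rr c (MvPolynomial.X 1) • (M8 c).X K 1 2 = 0 := by
  rw [M8_X c 0, M8_X c 1]
  fin_cases c
  · simp [show rr 0 (MvPolynomial.X 1) = 0 from rr_rev 0]
  · simp [show rr 1 (MvPolynomial.X 0) = 0 from rr_rev 1]

theorem M8_ex (c : Fin 2) : MEx (rr c.rev (MvPolynomial.X 0) • (M8 c).X K 1 1 +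
    rr c.rev (MvPolynomial.X 1) • (M8 c).X K 1 2) := by
  rw [M8_X c 0, M8_X c 1]
  fin_cases c
  · simpa [show Fin.rev (0 : Fin 2) = 1 from rfl, rr_X] using Xi_ex (S := K) (isUnit_T 1)
  · simpa [show Fin.rev (1 : Fin 2) = 0 from rfl, rr_X] using Xi_ex (S := K) (isUnit_T 1)

theorem towR_ex (c : Fin 2) (n : ℕ) : MEx ((towR c n).Y.B 0 (T 1 : K) 0) := by
  induction n with
  | zero => exact Ce_ex (isUnit_T 1)
  | succ n ih => exact step_ex _ (M8_top c) ψh_aug ih

theorem exists_U (c : Fin 2) : ∃ (κ : Type) (e : Fin 2 → κ) (U : PC J2 κ),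
    Function.Injective e ∧ IsSub Ce.toPC U e ∧ Rel (· = 1) ψh U.D e ∧ TorP (· = 1) ψh U.D ∧
      Rel (· = 1) ((rr c.rev).comp ψR) U.D e ∧ TorP (· = 1) ((rr c).comp ψR) U.D := by
  obtain ⟨κ, E, U, hc, hs⟩ := PC.exists_colim (ι := fun n => (towR c n).ι) (e := inlR c)
    (fun _ => Sum.inl_injective) (fun n => (towR c n).Y.toPC) fun n => step_sub _ (M8_top c)
  have q1 := bl_sq ψh_aug fun i j => psi_J2 _ _ (U.sq i j)
  have r1 : Rel (· = 1) ψh U.D (E 0) :=
    hc.rel (P := fun τ : K => τ = 1) rfl one_mul_one (fun n => (hs n).D) q1 fun n =>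
    step_rel _ (M8_top c) (c := 0) ψh_aug (RO.tens_left _ _ ψh_aug (towR_ex c n))
  refine ⟨κ, E 0, U, hc.inj 0, hs 0, r1, Rel.tor one_mul_one (hc.inj 0) (hs 0).D q1 r1
    ((torP_B _ 0 _ _).mpr (towR_ex c 0)), ?_, ?_⟩
  · rw [rr_comp]
    exact hc.rel (P := fun τ : K => τ = 1) rfl one_mul_one (fun n => (hs n).D)
      (bl_sq (rr_aug _) fun i j => psi_J2 _ _ (U.sq i j)) fun n =>
      step_rel _ (M8_top c) (c := 1) (rr_aug _) (RO.tens_right _ _ (rr_aug _) (M8_ex c))
  · rw [rr_comp]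
    intro x hx
    obtain ⟨n, y, rfl⟩ := hc.stage x
    rw [bl_sub _ (hs n).D] at hx
    obtain ⟨z, hz⟩ := step_kill (towR c n).Y (M8_top c) (rr_aug c) (M8_kill c) y
      (mapDomain_injective (hc.inj n) (by rw [mapDomain_zero]; exact hx))
    refine ⟨1, rfl, mapDomain (E (n + 1 + 1)) z, ?_⟩
    rw [bl_sub _ (hs (n + 1 + 1)).D, one_smul, ← hc.md, ← hc.md]
    exact congrArg _ hz.symm

section
variable {ι κ : Type} {S : Type} [CommRing S] {ψ : C →+* S} {D : ι → ι →₀ C} {D' : κ → κ →₀ C}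
  {e : ι → κ}

theorem closed_range (h : ∀ i, D' (e i) = mapDomain e (D i)) : Closed D' (Set.range e) := by
  rintro _ ⟨i, rfl⟩ j hj
  rw [h] at hj
  exact by_contra fun e => hj (mapDomain_of_notMem_range _ _ e)

theorem md_mem (x : ι →₀ S) : mapDomain e x ∈ supported S S (Set.range e) :=
  (mem_supported' _ _).mpr fun _ h => mapDomain_of_notMem_range _ _ h

theorem exOn_range (he : Function.Injective e) (h : ∀ i, D' (e i) = mapDomain e (D i))
    (hD : TorP (· = 1) ψ D) : ExOn ψ D' (Set.range e) := by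
  intro x hx hx0
  obtain ⟨y, rfl⟩ : ∃ y, x = mapDomain e y :=
    ⟨_, (mapDomain_comapDomain e he x ((mem_supported _ _).mp hx)).symm⟩
  rw [bl_sub ψ h] at hx0
  obtain ⟨_, rfl, z, hz⟩ := hD y (mapDomain_injective he (by rw [mapDomain_zero]; exact hx0))
  exact ⟨_, md_mem z, by rw [bl_sub ψ h, ← hz, one_smul]⟩

end

section
variable {κ : Fin 2 → Type} {S : Type} [CommRing S]

theorem split2 (c : Fin 2) (x : (Σ c, κ c) →₀ S) :
    ∃ x1 x2, x = mapDomain (Sigma.mk c) x1 + mapDomain (Sigma.mk c.rev) x2 := by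
  induction x using Finsupp.induction_linear with
  | zero => exact ⟨0, 0, by simp⟩
  | add x y hx hy =>
    obtain ⟨a, b, rfl⟩ := hx
    obtain ⟨a', b', rfl⟩ := hy
    exact ⟨a + a', b + b', by simp only [mapDomain_add]; abel⟩
  | single p s =>
    obtain ⟨d, k⟩ := p
    rcases (by decide : ∀ c d : Fin 2, d = c ∨ d = c.rev) c d with rfl | rfl
    · exact ⟨single k s, 0, by simp⟩
    · exact ⟨0, single k s, by simp⟩

theorem split2_zero {c : Fin 2} {x : κ c →₀ S} {y : κ c.rev →₀ S}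
    (h : mapDomain (Sigma.mk c) x + mapDomain (Sigma.mk c.rev) y = 0) : x = 0 ∧ y = 0 := by
  have hc := (by decide : ∀ c : Fin 2, c.rev ≠ c) c
  constructor
  · ext1 i
    have := DFunLike.congr_fun h ⟨c, i⟩
    rwa [Finsupp.add_apply, mapDomain_apply sigma_mk_injective, mapDomain_of_notMem_range _ _
      (by rintro ⟨k, e⟩; exact hc (congrArg Sigma.fst e)), add_zero] at this
  · ext1 i
    have := DFunLike.congr_fun h ⟨c.rev, i⟩
    rwa [Finsupp.add_apply, mapDomain_apply sigma_mk_injective, mapDomain_of_notMem_range _ _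
      (by rintro ⟨k, e⟩; exact hc (congrArg Sigma.fst e).symm), zero_add] at this

variable {ι : Type} {e : ∀ c, ι → κ c}

/-- The diagonal map. -/
def diagF (e : ∀ c, ι → κ c) (i : ι) : (Σ c, κ c) →₀ C := ∑ c, single ⟨c, e c i⟩ 1

theorem bl_diag (ψ : C →+* S) (c : Fin 2) (x : ι →₀ S) : bl ψ (diagF e) x =
    mapDomain (Sigma.mk c) (mapDomain (e c) x) +
      mapDomain (Sigma.mk c.rev) (mapDomain (e c.rev) x) := by
  induction x using Finsupp.induction_linear with
  | zero => simp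
  | add x y hx hy => simp only [map_add, mapDomain_add, hx, hy]; abel
  | single i s =>
    simp only [bl_single, diagF, Fin.sum_univ_two, map_add, bm_single, map_one, smul_add,
      Finsupp.smul_single, smul_eq_mul, mul_one, mapDomain_single]
    fin_cases c
    · rfl
    · exact add_comm _ _

theorem W_ex {ψ : C →+* S} (h : IsAug ψ) {D : ι → ι →₀ C} {D' : ∀ c, κ c → κ c →₀ C}
    (he : ∀ c, Function.Injective (e c)) (hD : ∀ c i, D' c (e c i) = mapDomain (e c) (D i))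
    (c : Fin 2) (h2 : ∀ x, bl ψ (D' c.rev) (bl ψ (D' c.rev) x) = 0) (h1 : TorP (· = 1) ψ (D' c))
    (hr : Rel (· = 1) ψ (D' c.rev) (e c.rev)) :
    ExOn ψ (coneD D (sigD D') (diagF e)) Set.univ := by
  intro x _ hx
  obtain ⟨u, x0, rfl⟩ := split x
  obtain ⟨x1, x2, rfl⟩ := split2 c u
  rw [map_add, bl_cone_inl, bl_cone_inr h, ← add_assoc, ← mapDomain_add, map_add, bl_sig, bl_sig,
    bl_diag ψ c, add_add_add_comm, ← mapDomain_add, ← mapDomain_add] at hx
  obtain ⟨a1, a2⟩ := split2_zero (split_zero hx).1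
  have neg : ∀ c x, mapDomain (e c) (-x : ι →₀ S) = - mapDomain (e c) x := fun c x =>
    map_neg (lmapDomain S S (e c)) x
  obtain ⟨_, rfl, y, z, b1⟩ := hr x2 (-x0) (by rw [neg]; exact eq_neg_of_add_eq_zero_left a2)
  rw [one_smul] at b1
  have b2 : - bl ψ D z = x0 := mapDomain_injective (he c.rev) (by
    rw [b1, map_add, h2, zero_add, bl_sub ψ (hD _)] at a2
    rw [neg]; exact neg_eq_of_add_eq_zero_right a2)
  obtain ⟨_, rfl, y1, b3⟩ := h1 (x1 - mapDomain (e c) z) (by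
    rw [map_sub, bl_sub ψ (hD _), sub_eq_add_neg, ← neg, b2, a1])
  rw [one_smul] at b3
  refine ⟨mapDomain .inl (mapDomain (Sigma.mk c) y1 + mapDomain (Sigma.mk c.rev) y) +
    mapDomain .inr z, by simp, ?_⟩
  rw [map_add, bl_cone_inl, bl_cone_inr h, ← add_assoc, ← mapDomain_add, map_add, bl_sig, bl_sig,
    bl_diag ψ c, add_add_add_comm, ← mapDomain_add, ← mapDomain_add, ← b3, ← b1, b2,
    sub_add_cancel]

end

theorem exists_pkg : ∃ (ι : Type) (M : PC J2 ι) (top : ι) (s : Fin 2 → Set ι),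
    Pkg M.D top s ∧ M.deg top = (-4, -1) := by
  choose κ e U he hs r1 t1 r2 t2 using exists_U
  have q : ∀ {S : Type} [CommRing S] [Algebra (ZMod 2) S] (i : ℕ) (θ : ℕ → S),
      IsAug (psi i θ) → ∀ c x, bl (psi i θ) (U c).D (bl (psi i θ) (U c).D x) = 0 :=
    fun i θ h c => bl_sq h fun i j => psi_J2 _ _ ((U c).sq i j)
  have sub : ∀ c k, coneD Ce.toD (sigD fun c => (U c).D) (diagF e) (.inl ⟨c, k⟩) =
      mapDomain (fun k => Sum.inl ⟨c, k⟩) ((U c).D k) := fun c k =>
    (mapDomain_comp (f := Sigma.mk c) (g := Sum.inl)).symm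
  have z0 : ∀ x, bl ψR Ce.toD x = 0 := fun x => DFunLike.coe_injective (by
    rw [bl_vec]
    exact (congrArg (x ᵥ* ·) ((RO.psi_toD _ 1 _ _).trans (Ce_B1 _ _))).trans (vecMul_zero _))
  refine ⟨_, Ce.toPC.cone (PC.sigma U) (diagF e) (fun i j => ?_) fun i => ?_, .inr 1,
    fun c => Set.range fun k => Sum.inl ⟨c, k⟩, ⟨?_, fun c => closed_range (sub c), fun c => ?_,
      ⟨fun c => mapDomain (fun k => Sum.inl ⟨c, k⟩) (mapDomain (e c) (single 1 1)),
        fun c => ⟨md_mem _, ?_⟩, ?_⟩,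
      W_ex ψh_aug he (fun c => (hs c).D) 0 (q _ _ ψh_aug _) (t1 0) (r1 _), fun c => ?_,
      fun c => exOn_range (Sum.inl_injective.comp sigma_mk_injective) (sub c) (t2 c)⟩, rfl⟩
  · rw [diagF, Finsupp.finsetSum_apply]
    exact Hom_sum fun c _ => single_hom (g := (PC.sigma U).deg) _ _
      (sub_eq_zero.mpr ((hs c).deg i).symm)
  · have : ∀ x, lc (diagF e) x = ∑ c, mapDomain (Sigma.mk c) (mapDomain (e c) x) := fun x => by
      induction x using Finsupp.induction_linear with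
      | zero => simp
      | add x y hx hy => simp only [map_add, mapDomain_add, hx, hy, Finset.sum_add_distrib]
      | single i s => simp [diagF]
    rw [this, diagF, map_sum]
    refine Finset.sum_congr rfl fun c _ => ?_
    rw [dM_single, dC_one, Finsupp.single_zero, zero_add, map_one, one_smul, ← (hs c).D]
    rfl
  · rintro (k | i)
    · exact coneD_lr Ce.toD (PC.sigma U).D (diagF e) _ _
    · refine (coneD_rr Ce.toD (PC.sigma U).D (diagF e) _ _).trans ?_
      rw [neg_eq_zero, eC_eq_zero, RO.toD_apply]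
      fin_cases i <;> simp [Ce]
  · rintro ⟨k, hk⟩
    cases hk
  · refine (bl_sub ψR (sub c) _).trans ?_
    rw [bl_sub ψR (D := Ce.toD) (hs c).D, z0, mapDomain_zero, mapDomain_zero]
  · rw [← mapDomain_single (f := Sum.inr)]
    refine (bl_cone_inr ψR_aug Ce.toD _ _ _).trans ?_
    rw [z0, bl_diag ψR 0]
    simp [mapDomain_add]
  · refine W_ex (ψR_aug.comp _) he (fun c => (hs c).D) c ?_ (t2 c) ?_
    · rw [rr_comp]; exact q _ _ (rr_aug c) _
    · simpa using r2 c.rev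

theorem main : (∃ (κ : Type) (Z : Cell κ) (η : Map unit Z), IsFinLoc 3 0 η) ∧
    ∀ (κ : Type) (Z : Cell κ) (η : Map unit Z), IsFinLoc 3 0 η → ¬ Local 3 0 Z := by
  constructor
  · obtain ⟨κ, Z, e, h, -, hl, -⟩ := exists_loc unit
    exact ⟨κ, Z, _, hl⟩
  · intro κ Z η hη
    obtain ⟨ι, M, top, s, P, ht⟩ := exists_pkg
    obtain ⟨ι', W, top', s', P', ht', hW⟩ := exists_test M P ht
    exact not_local P' ht' hW η (finAcyc_tor hη.2)

end

end Pool.Agent.Tel
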