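import Pool.Agent.Lib.MP_3a30fb_gt.Pkg

/-!
Sequential colimits, sums and cones of cell modules.
-/

namespace Pool.Agent.Tel

open Finsupp

noncomputable section

structure Colim (ι : ℕ → Type) (e : ∀ n, ι n → ι (n + 1)) (κ : Type) (E : ∀ n, ι n → κ) :
    Prop where
  inj : ∀ n, Function.Injective (E n)
  comp : ∀ n i, E (n + 1) (e n i) = E n i
  surj : ∀ k, ∃ n i, E n i = k
  lift : ∀ (β : Type) (h : ∀ n, ι n → β), (∀ n i, h (n + 1) (e n i) = h n i) →
    ∃ H : κ → β, ∀ n i, H (E n i) = h n i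

theorem exists_colim (ι : ℕ → Type) (e : ∀ n, ι n → ι (n + 1))
    (he : ∀ n, Function.Injective (e n)) : ∃ κ E, Colim ι e κ E := by
  let f : ∀ i j (_ : i ≤ j), ι i ↪ ι j := fun i j h =>
    ⟨Nat.leRecOn h fun {k} => e k, Nat.leRecOn_injective h _ he⟩
  have : DirectedSystem ι (f · · ·) :=
    ⟨fun _ x => Nat.leRecOn_self x, fun _ _ _ h h' x => (Nat.leRecOn_trans h h' x).symm⟩
  refine ⟨DirectLimit ι f, fun n i => ⟦⟨n, i⟩⟧,
    DirectLimit.mk_injective f fun i j h => (f i j h).injective, fun n i => ?_, fun k => ?_,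
    fun β h hh => ⟨DirectLimit.lift f h fun i j hij x => ?_, fun _ _ => rfl⟩⟩
  · rw [← DirectLimit.mk_apply (f := f) n (n + 1) i (Nat.le_succ n)]
    exact congrArg (fun x => (⟦⟨n + 1, x⟩⟧ : DirectLimit ι f))
      (Nat.leRecOn_succ' (next := fun {k} => e k) i).symm
  · obtain ⟨n, i, rfl⟩ := DirectLimit.exists_eq_mk f k
    exact ⟨n, i, rfl⟩
  · induction hij with
    | refl => exact congrArg _ (Nat.leRecOn_self x).symm
    | step hij ih =>
      exact ih.trans ((hh _ _).symm.trans (congrArg _ (Nat.leRecOn_succ hij x).symm))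

section
variable {ι : ℕ → Type} {e : ∀ n, ι n → ι (n + 1)} {κ : Type} {E : ∀ n, ι n → κ}

theorem Colim.md {α : Type} [AddCommMonoid α] (h : Colim ι e κ E) (n : ℕ) (x : ι n →₀ α) :
    mapDomain (E (n + 1)) (mapDomain (e n) x) = mapDomain (E n) x := by
  rw [← mapDomain_comp]; exact congrArg (mapDomain · x) (funext (h.comp n))

theorem Colim.up {α : Type} [AddCommMonoid α] (h : Colim ι e κ E) {n m : ℕ} (hm : n ≤ m)
    (x : ι n →₀ α) : ∃ y, mapDomain (E n) x = mapDomain (E m) y := by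
  induction hm with
  | refl => exact ⟨x, rfl⟩
  | step _ ih =>
    obtain ⟨y, hy⟩ := ih
    exact ⟨_, hy.trans (h.md _ y).symm⟩

theorem Colim.stage {α : Type} [AddCommMonoid α] (h : Colim ι e κ E) (x : κ →₀ α) :
    ∃ n y, x = mapDomain (E n) y := by
  induction x using Finsupp.induction_linear with
  | zero => exact ⟨0, 0, by simp⟩
  | add x y hx hy =>
    obtain ⟨n, x, rfl⟩ := hx
    obtain ⟨m, y, rfl⟩ := hy
    obtain ⟨x', hx⟩ := h.up (le_max_left n m) x
    obtain ⟨y', hy⟩ := h.up (le_max_right n m) y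
    exact ⟨_, x' + y', by rw [hx, hy, mapDomain_add]⟩
  | single k c =>
    obtain ⟨n, i, rfl⟩ := h.surj k
    exact ⟨n, single i c, by simp⟩

end

variable {ι κ : Type} {J : DId}

/-- `e` embeds `M` as a subcomplex of `N`. -/
structure IsSub (M : PC J ι) (N : PC J κ) (e : ι → κ) : Prop where
  deg : ∀ i, N.deg (e i) = M.deg i
  D : ∀ i, N.D (e i) = mapDomain e (M.D i)

theorem PC.exists_colim {ι : ℕ → Type} {e : ∀ n, ι n → ι (n + 1)}
    (he : ∀ n, Function.Injective (e n)) (M : ∀ n, PC J (ι n))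
    (hM : ∀ n, IsSub (M n) (M (n + 1)) (e n)) :
    ∃ κ E, ∃ N : PC J κ, Colim ι e κ E ∧ ∀ n, IsSub (M n) N (E n) := by
  obtain ⟨κ, E, h⟩ := Tel.exists_colim ι e he
  obtain ⟨g, hg⟩ := h.lift _ (fun n => (M n).deg) fun n => (hM n).deg
  obtain ⟨D, hD⟩ := h.lift _ (fun n i => mapDomain (E n) ((M n).D i)) fun n i => by
    rw [(hM n).D, h.md]
  have key : ∀ n i k, D (E n i) k ≠ 0 → ∃ j, k = E n j ∧ D (E n i) k = (M n).D i j := by
    intro n i k hk
    rw [hD] at hk ⊢
    obtain ⟨j, rfl⟩ : k ∈ Set.range (E n) := by_contra fun e =>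
      hk (mapDomain_of_notMem_range _ _ e)
    exact ⟨j, rfl, mapDomain_apply (h.inj n) _ _⟩
  refine ⟨κ, E, ⟨g, D, fun a b => ?_, ⟨fun a => ?_⟩, fun a => ?_⟩, h, fun n => ⟨hg n, hD n⟩⟩
  · obtain ⟨n, i, rfl⟩ := h.surj a
    by_cases h0 : D (E n i) b = 0
    · rw [h0]; exact Hom_zero _
    · obtain ⟨j, rfl, e⟩ := key n i b h0
      rw [e, hg, hg]; exact (M n).hom i j
  · obtain ⟨n, i, rfl⟩ := h.surj a
    induction i using (M n).wf.induction with
    | _ i ih =>
      refine ⟨_, fun b hb => ?_⟩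
      obtain ⟨j, rfl, e⟩ := key n i b hb
      exact ih j (e ▸ hb)
  · obtain ⟨n, i, rfl⟩ := h.surj a
    rw [hD, dM_sub (hD n)]
    exact VJ_mapDomain (h.inj n) ((M n).sq i)

variable {S : Type} [CommRing S]

/-- Every cycle is a boundary after multiplication by a scalar satisfying `P`. -/
def TorP (P : S → Prop) (ψ : C →+* S) (D : ι → ι →₀ C) : Prop :=
  ∀ x, bl ψ D x = 0 → ∃ τ, P τ ∧ ∃ y, τ • x = bl ψ D y

/-- The relative version of `TorP`. -/
def Rel (P : S → Prop) (ψ : C →+* S) (D : κ → κ →₀ C) (e : ι → κ) : Prop :=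
  ∀ x z, bl ψ D x = mapDomain e z → ∃ τ, P τ ∧ ∃ y z', τ • x = bl ψ D y + mapDomain e z'

theorem torP_one {ψ : C →+* S} {D : ι → ι →₀ C} : TorP (· = 1) ψ D ↔ ExOn ψ D Set.univ := by
  simp [TorP, ExOn, eq_comm]

theorem cone_rel {P : S → Prop} {ψ : C →+* S} (h : IsAug ψ) {D : ι → ι →₀ C} (D' : κ → κ →₀ C)
    (f : ι → κ →₀ C) (hD : TorP P ψ D) : Rel P ψ (coneD D D' f) Sum.inl := by
  intro x z e
  obtain ⟨x1, x2, rfl⟩ := split x
  rw [map_add, bl_cone_inl, bl_cone_inr h, ← sub_eq_zero, ← add_assoc, ← mapDomain_add,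
    add_sub_right_comm, ← mapDomain_sub] at e
  obtain ⟨τ, hτ, y, hy⟩ := hD x2 (neg_eq_zero.mp (split_zero e).2)
  refine ⟨τ, hτ, mapDomain .inr (-y), τ • x1 + bl ψ f y, ?_⟩
  rw [bl_cone_inr h, map_neg, map_neg, neg_neg, ← hy, smul_add, mapDomain_add, mapDomain_smul,
    mapDomain_smul, ← lmapDomain_apply S S _ (-_), map_neg, lmapDomain_apply]
  abel

theorem Colim.rel {ι : ℕ → Type} {e : ∀ n, ι n → ι (n + 1)} {κ : Type} {E : ∀ n, ι n → κ}
    (h : Colim ι e κ E) {P : S → Prop} (h1 : P 1) (hm : ∀ a b, P a → P b → P (a * b))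
    {ψ : C →+* S} {D : ∀ n, ι n → ι n →₀ C} {D' : κ → κ →₀ C}
    (hD : ∀ n i, D' (E n i) = mapDomain (E n) (D n i)) (h2 : ∀ x, bl ψ D' (bl ψ D' x) = 0)
    (hr : ∀ n, Rel P ψ (D (n + 1)) (e n)) : Rel P ψ D' (E 0) := by
  intro x z
  obtain ⟨n, x, rfl⟩ := h.stage x
  induction n generalizing z with
  | zero => exact fun _ => ⟨1, h1, 0, x, by simp⟩
  | succ n ih =>
    intro hx
    obtain ⟨z1, hz⟩ := h.up (Nat.zero_le n) z
    obtain ⟨τ, hτ, y, z', e1⟩ := hr n x z1 (mapDomain_injective (h.inj (n + 1)) (by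
      rw [← bl_sub ψ (hD _), hx, hz, h.md]))
    have e2 := congrArg (mapDomain (E (n + 1))) e1
    rw [mapDomain_smul, mapDomain_add, ← bl_sub ψ (hD _), h.md] at e2
    obtain ⟨σ, hσ, y', z'', e3⟩ := ih (τ • z) z' (by
      have := congrArg (bl ψ D') e2
      rw [map_smul, map_add, h2, zero_add, hx] at this
      rw [← this, mapDomain_smul])
    refine ⟨σ * τ, hm _ _ hσ hτ, σ • mapDomain (E (n + 1)) y + y', z'', ?_⟩
    rw [mul_smul, e2, smul_add, e3, map_add, map_smul, add_assoc]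

theorem Rel.tor {P : S → Prop} (hm : ∀ a b, P a → P b → P (a * b)) {ψ : C →+* S}
    {D : ι → ι →₀ C} {D' : κ → κ →₀ C} {e : ι → κ} (he : Function.Injective e)
    (hD : ∀ i, D' (e i) = mapDomain e (D i)) (h2 : ∀ x, bl ψ D' (bl ψ D' x) = 0)
    (hr : Rel P ψ D' e) (h0 : TorP P ψ D) : TorP P ψ D' := by
  intro x hx
  obtain ⟨τ, hτ, y, z, e1⟩ := hr x 0 (by rw [hx, mapDomain_zero])
  obtain ⟨σ, hσ, y', e2⟩ := h0 z (mapDomain_injective he (by
    have := congrArg (bl ψ D') e1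
    rw [map_smul, map_add, h2, zero_add, hx, smul_zero, bl_sub ψ hD] at this
    rw [← this, mapDomain_zero]))
  refine ⟨σ * τ, hm _ _ hσ hτ, σ • y + mapDomain e y', ?_⟩
  rw [mul_smul, e1, smul_add, ← mapDomain_smul, e2, map_add, map_smul, bl_sub ψ hD]

section
variable {α : Type} {β : α → Type}

/-- The matrix of a direct sum. -/
def sigD (D : ∀ a, β a → β a →₀ C) (p : Σ a, β a) : (Σ a, β a) →₀ C :=
  mapDomain (Sigma.mk p.1) (D p.1 p.2)

theorem sigD_ne {D : ∀ a, β a → β a →₀ C} {a : α} {i : β a} {q : Σ a, β a}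
    (h : sigD D ⟨a, i⟩ q ≠ 0) : ∃ j, q = ⟨a, j⟩ ∧ sigD D ⟨a, i⟩ q = D a i j := by
  obtain ⟨j, rfl⟩ : q ∈ Set.range (Sigma.mk a) := by_contra fun e =>
    h (mapDomain_of_notMem_range _ _ e)
  exact ⟨j, rfl, mapDomain_apply sigma_mk_injective _ _⟩

def PC.sigma (M : ∀ a, PC J (β a)) : PC J (Σ a, β a) where
  deg p := (M p.1).deg p.2
  D := sigD fun a => (M a).D
  hom := by
    rintro ⟨a, i⟩ q
    by_cases h0 : sigD (fun a => (M a).D) ⟨a, i⟩ q = 0
    · rw [h0]; exact Hom_zero _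
    · obtain ⟨j, rfl, e⟩ := sigD_ne h0
      rw [e]; exact (M a).hom i j
  wf := ⟨by
    rintro ⟨a, i⟩
    induction i using (M a).wf.induction with
    | _ i ih =>
      refine ⟨_, fun b hb => ?_⟩
      obtain ⟨j, rfl, e⟩ := sigD_ne hb
      exact ih j (e ▸ hb)⟩
  sq := by
    rintro ⟨a, i⟩
    rw [sigD, dM_sub (D := (M a).D) (D' := sigD fun a => (M a).D) fun _ => rfl]
    exact VJ_mapDomain sigma_mk_injective ((M a).sq i)

theorem bl_sig (ψ : C →+* S) (D : ∀ a, β a → β a →₀ C) (a : α) (x : β a →₀ S) :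
    bl ψ (sigD D) (mapDomain (Sigma.mk a) x) = mapDomain (Sigma.mk a) (bl ψ (D a) x) :=
  bl_sub ψ (D := D a) (D' := sigD D) (fun _ => rfl) x

theorem bl_sig_apply (ψ : C →+* S) (D : ∀ a, β a → β a →₀ C) (a : α) (x : (Σ a, β a) →₀ S)
    (j : β a) : bl ψ (sigD D) x ⟨a, j⟩ =
      bl ψ (D a) (x.comapDomain (Sigma.mk a) sigma_mk_injective.injOn) j := by
  induction x using Finsupp.induction_linear with
  | zero => simp
  | add x y hx hy =>
    rw [map_add, Finsupp.add_apply, hx, hy, comapDomain_add_of_injective sigma_mk_injective,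
      map_add, Finsupp.add_apply]
  | single p c =>
    obtain ⟨b, i⟩ := p
    by_cases h : b = a
    · subst h
      rw [comapDomain_single, ← mapDomain_single, bl_sig, mapDomain_apply sigma_mk_injective]
    · have : (single ⟨b, i⟩ c : (Σ a, β a) →₀ S).comapDomain (Sigma.mk a)
          sigma_mk_injective.injOn = 0 := by
        ext1 k
        rw [comapDomain_apply, single_eq_of_ne fun e => h (congrArg Sigma.fst e).symm]; rfl
      rw [this, map_zero, ← mapDomain_single, bl_sig, mapDomain_of_notMem_range]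
      · rfl
      · rintro ⟨k, e⟩; exact h (congrArg Sigma.fst e)

theorem sig_tor {P : S → Prop} (h1 : P 1) (hm : ∀ a b, P a → P b → P (a * b)) {ψ : C →+* S}
    {D : ∀ a, β a → β a →₀ C} (h : ∀ a, TorP P ψ (D a)) : TorP P ψ (sigD D) := by
  classical
  intro x hx
  have e : x = ∑ a ∈ x.support.image Sigma.fst,
      mapDomain (Sigma.mk a) (x.comapDomain (Sigma.mk a) sigma_mk_injective.injOn) := by
    ext1 ⟨b, k⟩
    rw [Finsupp.finsetSum_apply, Finset.sum_eq_single b, mapDomain_apply sigma_mk_injective,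
      comapDomain_apply]
    · intro a _ hab
      refine mapDomain_of_notMem_range _ _ ?_
      rintro ⟨k, e⟩; exact hab (congrArg Sigma.fst e)
    · intro hb
      rw [mapDomain_apply sigma_mk_injective, comapDomain_apply]
      by_contra h0
      exact hb (Finset.mem_image.mpr ⟨_, mem_support_iff.mpr h0, rfl⟩)
  rw [e]
  refine Finset.sum_induction _ (fun x => ∃ τ, P τ ∧ ∃ y, τ • x = bl ψ (sigD D) y) ?_
    ⟨1, h1, 0, by simp⟩ fun a _ => ?_
  · rintro x y ⟨τ, hτ, x', e⟩ ⟨σ, hσ, y', e'⟩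
    refine ⟨τ * σ, hm _ _ hτ hσ, σ • x' + τ • y', ?_⟩
    rw [map_add, map_smul, map_smul, ← e, ← e', smul_add, smul_smul, smul_smul, mul_comm σ]
  · obtain ⟨τ, hτ, y, e⟩ := h a (x.comapDomain (Sigma.mk a) sigma_mk_injective.injOn)
      (Finsupp.ext fun j => by rw [← bl_sig_apply, hx]; rfl)
    exact ⟨τ, hτ, mapDomain (Sigma.mk a) y, by rw [bl_sig, ← e, mapDomain_smul]⟩

end

theorem lc_single_one (g : ι → κ) (x : ι →₀ C) :
    lc (fun i => single (g i) 1) x = mapDomain g x := by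
  induction x using Finsupp.induction_linear with
  | zero => simp
  | add x y hx hy => simp only [map_add, mapDomain_add, hx, hy]
  | single i c => simp

theorem bl_single_one (ψ : C →+* S) (g : ι → κ) (x : ι →₀ S) :
    bl ψ (fun i => single (g i) 1) x = mapDomain g x := by
  induction x using Finsupp.induction_linear with
  | zero => simp
  | add x y hx hy => simp only [map_add, mapDomain_add, hx, hy]
  | single i c => simp [bl_single, bm_single]

theorem lc_mapDomain {μ : Type} (f : κ → μ →₀ C) (g : ι → κ) (x : ι →₀ C) :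
    lc f (mapDomain g x) = lc (fun i => f (g i)) x := linearCombination_mapDomain _ _ _

theorem mapDomain_lc {μ : Type} (f : ι → κ →₀ C) (g : κ → μ) (x : ι →₀ C) :
    mapDomain g (lc f x) = lc (fun i => mapDomain g (f i)) x := by
  induction x using Finsupp.induction_linear with
  | zero => simp
  | add x y hx hy => simp only [map_add, mapDomain_add, hx, hy]
  | single i c => simp only [linearCombination_single, mapDomain_smul]

/-- The cone of a strict chain map of cell modules modulo `J`. -/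
def PC.cone (M : PC J ι) (N : PC J κ) (f : ι → κ →₀ C)
    (hf : ∀ i j, f i j ∈ Hom (M.deg i - N.deg j)) (hc : ∀ i, dM N.D (f i) = lc f (M.D i)) :
    PC J (κ ⊕ ι) where
  deg := Sum.elim N.deg fun i => M.deg i + (1, 0)
  D := coneD M.D N.D f
  hom := cone_hom M.hom N.hom hf
  wf := cone_wf _ M.wf N.wf
  sq := by
    rintro (k | i)
    · rw [coneD, dM_cone_inl]; exact VJ_mapDomain Sum.inl_injective (N.sq k)
    · rw [cone_sq, hc, sub_self, mapDomain_zero, zero_add]
      exact VJ_mapDomain Sum.inr_injective (VJ_eM (M.sq i))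

end

end Pool.Agent.Tel
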