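import Pool.Agent.Lib.MP_3a30fb_gt.Sub

/-!
Locality can be tested on small acyclic modules.
-/

namespace Pool.Agent.Tel

open Finsupp

noncomputable section

variable {ι κ μ : Type} {S : Type} [CommRing S] {ψ : C →+* S}

theorem mem_sup {s : Set ι} {x : ι →₀ S} : x ∈ supported S S s ↔ ∀ i, x i ≠ 0 → i ∈ s := by
  rw [mem_supported']; exact forall_congr' fun i => not_imp_comm

/-- A small extension of an exact subcomplex of an exact module. -/
theorem small_ext [Nontrivial S] (hψ : IsAug ψ) (W : Cell ι) (hW : ExOn ψ W.D Set.univ)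
    {s : Set ι} (hs : Closed W.D s) (hs' : ExOn ψ W.D s) {i0 : ι} (h0 : i0 ∉ s) :
    ∃ (p : Set (Om S)) (j : p → ι) (hj : Function.Injective j), i0 ∈ Set.range j ∧
      (∀ a, j a ∉ s) ∧ Closed W.D (s ∪ Set.range j) ∧ ExOn ψ W.D (s ∪ Set.range j) ∧
      ExOn ψ (fun a => pl j hj (W.D (j a))) Set.univ := by
  classical
  have rel : ∀ x : ι →₀ S, ∃ y, bl ψ W.D x ∈ supported S S s →
      x - bl ψ W.D y ∈ supported S S s := fun x => by
    by_cases h : bl ψ W.D x ∈ supported S S s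
    · obtain ⟨z, hz, e⟩ := hs' _ h (sq_bl hψ W x)
      obtain ⟨y, -, e'⟩ := hW (x - z) (by simp) (by rw [map_sub, e, sub_self])
      exact ⟨y, fun _ => by rwa [e', sub_sub_cancel]⟩
    · exact ⟨0, fun h' => absurd h' h⟩
  choose Y hY using rel
  obtain ⟨ev, hev⟩ := exists_small
    (fun x => insert i0 ((Y x).support ∪ x.support.biUnion fun i => (W.D i).support)) i0
  have m0 : i0 ∈ Set.range ev := hev 0 (by simp) _ (Finset.mem_insert_self _ _)
  have : Nonempty (Om S) := ⟨m0.choose⟩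
  let p : Set (Om S) := {w | ev w ∉ s ∧ Function.invFun ev (ev w) = w}
  have hj : Function.Injective fun w : p => ev w := fun a b e =>
    Subtype.ext (a.2.2.symm.trans ((congrArg _ e).trans b.2.2))
  have hr : ∀ i, i ∈ Set.range ev → i ∈ s ∪ Set.range fun w : p => ev w := fun i hi => by
    have e := Function.invFun_eq hi
    exact (em _).imp_right fun h =>
      ⟨⟨Function.invFun ev i, by rwa [e], by rw [e]⟩, e⟩
  generalize hj' : (fun w : p => ev w) = j at hj hr
  have hj1 : ∀ i ∈ Set.range j, i ∈ Set.range ev := by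
    rintro _ ⟨a, rfl⟩; exact ⟨a, congrFun hj' a⟩
  have hj2 : ∀ a, j a ∉ s := fun a => hj' ▸ a.2.1
  have cl : Closed W.D (s ∪ Set.range j) := by
    rintro i (hi | hi) k hk
    · exact .inl (hs i hi k hk)
    · refine hr k (hev (single i 1) (fun a ha => ?_) k ?_)
      · rw [show a = i from by_contra fun e => ha (single_eq_of_ne e)]; exact hj1 i hi
      · simp [hk]
  have mr : ∀ (x : p →₀ S) i, mapDomain j x i ≠ 0 → i ∈ Set.range j := fun x i hi =>
    by_contra fun e => hi (mapDomain_of_notMem_range _ _ e)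
  have hY' : ∀ (x : p →₀ S), Y (mapDomain j x) ∈ supported S S (s ∪ Set.range j) := fun x =>
    mem_sup.mpr fun i hi => hr i (hev _ (fun k hk => hj1 k (mr x k hk)) i (by simp [hi]))
  have z : ∀ x ∈ supported S S (s ∪ Set.range j), pl j hj x = 0 → x ∈ supported S S s :=
    fun x hx e => mem_sup.mpr fun i hi => (mem_sup.mp hx i hi).resolve_right (by
      rintro ⟨a, rfl⟩; exact hi (DFunLike.congr_fun e a))
  have pb : ∀ x ∈ supported S S (s ∪ Set.range j), pl j hj (bl ψ W.D x) =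
      bl ψ (fun a => pl j hj (W.D (j a))) (pl j hj x) := fun x hx => pl_bl hj fun i hi =>
    (mem_sup.mp hx i hi).symm.imp_right fun h a => by_contra fun e => hj2 a (hs i h _ e)
  have ms : ∀ x : p →₀ S, mapDomain j x ∈ supported S S (s ∪ Set.range j) := fun x =>
    mem_sup.mpr fun i hi => .inr (mr x i hi)
  have ex : ExOn ψ (fun a => pl j hj (W.D (j a))) Set.univ := fun x _ hx => by
    have := hY _ (z _ (bl_supported ψ cl (ms x)) (by rw [pb _ (ms x), pl_md, hx]))
    refine ⟨pl j hj (Y (mapDomain j x)), by simp, ?_⟩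
    have e : pl j hj (mapDomain j x - bl ψ W.D (Y (mapDomain j x))) = 0 :=
      Finsupp.ext fun a => (mem_supported' _ _).mp this _ (hj2 a)
    rw [map_sub, pl_md, pb _ (hY' x)] at e
    exact (sub_eq_zero.mp e).symm
  refine ⟨p, j, hj, (hr _ m0).resolve_left h0, hj2, cl, fun x hx hx0 => ?_, ex⟩
  obtain ⟨y, -, hy⟩ := ex (pl j hj x) (by simp) (by rw [← pb x hx, hx0, map_zero])
  obtain ⟨y', hy', e⟩ := hs' (x - bl ψ W.D (mapDomain j y))
    (z _ (sub_mem hx (bl_supported ψ cl (ms y))) (by rw [map_sub, pb _ (ms y), pl_md, hy, sub_self]))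
    (by rw [map_sub, sq_bl hψ, hx0, sub_zero])
  exact ⟨y' + mapDomain j y, add_mem (supported_mono Set.subset_union_left hy') (ms y),
    by rw [map_add, e, sub_add_cancel]⟩

theorem lc_add (f g : ι → κ →₀ C) (x : ι →₀ C) : lc (fun i => f i + g i) x = lc f x + lc g x := by
  induction x using Finsupp.induction_linear with
  | zero => simp
  | add x y hx hy => simp only [map_add, hx, hy]; abel
  | single i c => simp only [linearCombination_single, smul_add]

theorem lc_sub (f g : ι → κ →₀ C) (x : ι →₀ C) : lc (fun i => f i - g i) x = lc f x - lc g x := by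
  induction x using Finsupp.induction_linear with
  | zero => simp
  | add x y hx hy => simp only [map_add, hx, hy]; abel
  | single i c => simp only [linearCombination_single, smul_sub]

theorem dM_dM0 (M : Cell ι) (x : ι →₀ C) : dM M.D (dM M.D x) = 0 := by
  rw [dM_dM, funext M.sq]
  exact DFunLike.congr_fun (linearCombination_zero _ _ _) x

/-- The boundary `d h + h d` of a homotopy. -/
def bdry (M : Cell ι) (N : Cell κ) (h : ι → κ →₀ C)
    (hh : ∀ i j, h i j ∈ Hom (M.deg i - N.deg j + (1, 0))) : Map M N where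
  f i := dM N.D (h i) + lc h (eM (M.D i))
  hom i j := Hom_add (Hom_congr (dM_hom (p := M.deg i + (1, 0))
      (fun k => Hom_congr (hh i k) (by abel)) N.hom j) (by abel))
    (Hom_congr (lc_hom (p := M.deg i - (1, 0)) (g := M.deg)
      (fun k => Hom_congr (Hom_eC (M.hom i k)) (by abel)) hh j) (by abel))
  comm i := by
    rw [map_add, dM_dM0, zero_add, dM_lc (fun _ => rfl), M.sq, map_zero, map_zero, sub_zero]

def Map.sub {M : Cell ι} {N : Cell κ} (f g : Map M N) : Map M N where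
  f i := f.f i - g.f i
  hom i j := Hom_sub (f.hom i j) (g.hom i j)
  comm i := by rw [map_sub, f.comm, g.comm, lc_sub]

/-- The graph of a null-homotopy on an exact subcomplex. -/
structure Good (ψ : C →+* S) {W : Cell ι} {Z : Cell κ} (f : Map W Z)
    (G : Set (ι × (κ →₀ C))) : Prop where
  fn : ∀ i u v, (i, u) ∈ G → (i, v) ∈ G → u = v
  ex : ExOn ψ W.D (Prod.fst '' G)
  hom : ∀ i u, (i, u) ∈ G → ∀ j, u j ∈ Hom (W.deg i - Z.deg j + (1, 0))
  eq : ∀ i u, (i, u) ∈ G → ∃ h, (∀ j, W.D i j ≠ 0 → (j, h j) ∈ G) ∧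
    f.f i = dM Z.D u + lc h (eM (W.D i))

theorem local_of_small [Nontrivial S] (hψ : IsAug ψ) {Z : Cell κ}
    (hZ : ∀ (p : Set (Om S)) (F : Cell p), ExOn ψ F.D Set.univ → ∀ f : Map F Z, f.Null)
    (W : Cell ι) (hW : ExOn ψ W.D Set.univ) (f : Map W Z) : f.Null := by
  classical
  obtain ⟨G, -, hG⟩ := zorn_subset_nonempty {G | Good ψ f G} (fun c hc ch ne => by
    refine ⟨⋃₀ c, ⟨?_, fun x hx h0 => ?_, ?_, ?_⟩, fun s hs => Set.subset_sUnion_of_mem hs⟩
    · rintro i u v ⟨G, hG, h⟩ ⟨G', hG', h'⟩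
      rcases ch.total hG hG' with e | e
      exacts [(hc hG').fn i u v (e h) h', (hc hG).fn i u v h (e h')]
    · obtain ⟨G, hG, h⟩ := DirectedOn.exists_mem_subset_of_finset_subset_biUnion
        (f := fun G => Prod.fst '' G) (s := x.support) ne
        (ch.directedOn.mono fun _ _ h => Set.image_mono h) (by
          rw [← Set.image_iUnion₂, ← Set.sUnion_eq_biUnion]; exact hx)
      obtain ⟨y, hy, e⟩ := (hc hG).ex x h h0
      exact ⟨y, supported_mono (Set.image_mono (Set.subset_sUnion_of_mem hG)) hy, e⟩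
    · rintro i u ⟨G, hG, h⟩
      exact (hc hG).hom i u h
    · rintro i u ⟨G, hG, h⟩
      obtain ⟨k, h1, h2⟩ := (hc hG).eq i u h
      exact ⟨k, fun j hj => ⟨G, hG, h1 j hj⟩, h2⟩) ∅
    ⟨by simp, fun x hx _ => ⟨0, zero_mem _, by
      rw [map_zero]; exact (Finsupp.ext fun i => (mem_supported' _ _).mp hx i (by simp)).symm⟩,
      by simp, by simp⟩
  have g : Good ψ f G := hG.prop
  obtain ⟨h, h1, h2⟩ : ∃ h : ι → κ →₀ C, (∀ i ∈ Prod.fst '' G, (i, h i) ∈ G) ∧
      ∀ i ∉ Prod.fst '' G, h i = 0 := by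
    have : ∀ i, ∃ u, (i ∈ Prod.fst '' G → (i, u) ∈ G) ∧ (i ∉ Prod.fst '' G → u = 0) := fun i => by
      by_cases e : i ∈ Prod.fst '' G
      · obtain ⟨⟨i, u⟩, hu, rfl⟩ := e
        exact ⟨u, fun _ => hu, fun e => absurd ⟨_, hu, rfl⟩ e⟩
      · exact ⟨0, fun e' => absurd e' e, fun _ => rfl⟩
    choose h h1 h2 using this
    exact ⟨h, h1, h2⟩
  have hh : ∀ i j, h i j ∈ Hom (W.deg i - Z.deg j + (1, 0)) := fun i j => by
    by_cases e : i ∈ Prod.fst '' G
    exacts [g.hom i _ (h1 i e) j, by rw [h2 i e]; exact Hom_zero _]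
  have cl : Closed W.D (Prod.fst '' G) := fun i hi j hj => by
    obtain ⟨k, e, -⟩ := g.eq i _ (h1 i hi)
    exact ⟨_, e j hj, rfl⟩
  have he : ∀ i ∈ Prod.fst '' G, f.f i = dM Z.D (h i) + lc h (eM (W.D i)) := fun i hi => by
    obtain ⟨k, e, e'⟩ := g.eq i _ (h1 i hi)
    rw [e', lc_congr fun j hj => g.fn j _ _ (e j (eM_ne hj)) (h1 j (cl i hi j (eM_ne hj)))]
  refine ⟨h, hh, fun i0 => he i0 (by_contra fun h0 => ?_)⟩
  obtain ⟨p, j, hj, m0, dis, cl', ex, ex'⟩ := small_ext hψ W hW cl g.ex h0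
  let f' := f.sub (bdry W Z h hh)
  obtain ⟨k, hk, ek⟩ := hZ p (pullC W.deg W.D j hj (fun a b => W.hom _ _) W.wf (fun a => W.sq _)
      fun a i hi => (cl' _ (.inr ⟨a, rfl⟩) i hi).symm.imp_right fun hi a =>
        by_contra fun e => dis a (cl i hi _ e)) ex'
    ⟨fun a => f'.f (j a), fun a b => f'.hom _ _, fun a => (f'.comm _).trans (lc_pl hj fun i hi =>
      (cl' _ (.inr ⟨a, rfl⟩) i hi).symm.imp_right fun hi => sub_eq_zero.mpr (he i hi))⟩
  obtain ⟨k0, k1, k2⟩ : ∃ k0 : ι → κ →₀ C, (∀ a, k0 (j a) = k a) ∧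
      ∀ i ∉ Set.range j, k0 i = 0 := ⟨Function.extend j k 0, fun a => hj.extend_apply _ _ _,
    fun i hi => Function.extend_apply' _ _ _ hi⟩
  have k3 : ∀ i ∈ Prod.fst '' G, k0 i = 0 := fun i hi => k2 i (by
    rintro ⟨a, rfl⟩; exact dis a hi)
  obtain ⟨G', hG'⟩ : ∃ G' : Set (ι × (κ →₀ C)), ∀ i u, (i, u) ∈ G' ↔
      i ∈ Prod.fst '' G ∪ Set.range j ∧ u = h i + k0 i :=
    ⟨{q | q.1 ∈ Prod.fst '' G ∪ Set.range j ∧ q.2 = h q.1 + k0 q.1}, fun _ _ => Iff.rfl⟩
  have im : Prod.fst '' G' = Prod.fst '' G ∪ Set.range j :=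
    Set.ext fun i => ⟨by rintro ⟨⟨i, u⟩, h, rfl⟩; exact ((hG' _ _).mp h).1,
      fun hi => ⟨_, (hG' _ _).mpr ⟨hi, rfl⟩, rfl⟩⟩
  have gd : Good ψ f G' := by
    refine ⟨fun i u v hu hv => ((hG' _ _).mp hu).2.trans ((hG' _ _).mp hv).2.symm,
      by rwa [im], fun i u hu b => ?_, fun i u hu => ?_⟩
    · obtain ⟨hi, rfl⟩ := (hG' _ _).mp hu
      refine Hom_add (hh i b) ?_
      rcases hi with hi | ⟨a, rfl⟩
      · rw [k3 i hi]; exact Hom_zero _
      · rw [k1]; exact hk a b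
    · obtain ⟨hi, rfl⟩ := (hG' _ _).mp hu
      refine ⟨fun i => h i + k0 i, fun b hb => (hG' _ _).mpr ⟨cl' i hi b hb, rfl⟩, ?_⟩
      rcases hi with hi | ⟨a, rfl⟩
      · rw [he i hi, k3 i hi, add_zero]
        exact congrArg _ (lc_congr fun b hb => by rw [k3 b (cl i hi b (eM_ne hb)), add_zero])
      · have e1 : lc k0 (eM (W.D (j a))) = lc k (eM (pl j hj (W.D (j a)))) := by
          rw [lc_pl hj fun i _ => (em _).imp_right (k2 i), funext k1]
          exact congrArg _ (Finsupp.ext fun _ => rfl)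
        have e2 : f.f (j a) - (dM Z.D (h (j a)) + lc h (eM (W.D (j a)))) =
          dM Z.D (k a) + lc k (eM (pl j hj (W.D (j a)))) := ek a
        rw [lc_add, e1, k1, map_add, eq_add_of_sub_eq e2]
        abel
  have le : G ⊆ G' := by
    rintro ⟨i, u⟩ hu
    have hi : i ∈ Prod.fst '' G := ⟨_, hu, rfl⟩
    exact (hG' _ _).mpr ⟨.inl hi, by rw [k3 i hi, add_zero]; exact g.fn i _ _ hu (h1 i hi)⟩
  exact h0 (Set.image_mono (hG.le_of_ge gd le) (by rw [im]; exact .inr m0))

end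

end Pool.Agent.Tel
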